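import Pool.Agent.FHA.Reg

/-!
# FHA.Avg: the mean values for a random scale and a random place

PROOF.  `|Ω| = J n ^ J` for `Ω = Fin J × Fin (n ^ J)`.  `avg_gen`: for fixed `j < J` the map `x ↦ x / n ^ (J - j)` from
`range (n ^ J) = range (n ^ j * n ^ (J-j))` takes every value `< n ^ j` exactly `n ^ (J-j)` times
(`FHT.sum_digits`, `(u * m + i) / m = u` for `i < m`), so
`∑_{ξ,ξ'} F ξ.1 (ix ξ) ξ'.1 (ix ξ') = ∑_{j,j'<J} n^(J-j) n^(J-j') ∑_{u<n^j} ∑_{v<n^j'} F j u j' v`.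
`avg_dens`: by `dens_sum` the inner double sum is `n^j n^j' dens n Z A B U V` (as `A - j + j = A`).
`avg_irr`: `n^(J-j) n^(J-j') = n^(2J) / (n^j n^j')`, then `reg`; `n^(2J) * 12 J φ = (J n^J)^2 * (12/J) φ`.
-/

namespace FHA

open Finset

private theorem Avg_one {n : ℕ} (hn : 1 ≤ n) {J j : ℕ} (hj : j ≤ J) (f : ℕ → ℝ) :
    ∑ x ∈ range (n ^ J), f (x / n ^ (J - j)) = (n : ℝ) ^ (J - j) * ∑ u ∈ range (n ^ j), f u := by
  have h1 : n ^ J = n ^ j * n ^ (J - j) := by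
    rw [← pow_add]
    congr 1
    omega
  rw [h1, FHT.sum_digits, mul_sum]
  refine sum_congr rfl fun u _ => ?_
  have h2 : ∀ i ∈ range (n ^ (J - j)), f ((u * n ^ (J - j) + i) / n ^ (J - j)) = f u := by
    intro i hi
    have h3 : 0 < n ^ (J - j) := pow_pos hn _
    rw [Nat.mul_comm, Nat.mul_add_div h3, Nat.div_eq_of_lt (mem_range.1 hi), add_zero]
  rw [sum_congr rfl h2, sum_const, card_range, nsmul_eq_mul]
  push_cast
  rfl

private theorem Avg_xi {n : ℕ} (hn : 1 ≤ n) (J : ℕ) (f : ℕ → ℕ → ℝ) :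
    ∑ ξ : Fin J × Fin (n ^ J), f ξ.1 (ix n J ξ) =
      ∑ j ∈ range J, (n : ℝ) ^ (J - j) * ∑ u ∈ range (n ^ j), f j u := by
  rw [Fintype.sum_prod_type, Finset.sum_range]
  refine sum_congr rfl fun j _ => ?_
  have h1 := Avg_one hn (le_of_lt j.2) (fun u => f j u)
  rw [← h1, Finset.sum_range]
  rfl

theorem avg_gen {n : ℕ} (hn : 1 ≤ n) (J : ℕ) (F : ℕ → ℕ → ℕ → ℕ → ℝ) :
    ∑ ξ : Fin J × Fin (n ^ J), ∑ ξ' : Fin J × Fin (n ^ J),
      F ξ.1 (ix n J ξ) ξ'.1 (ix n J ξ') =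
    ∑ j ∈ range J, ∑ j' ∈ range J, (n : ℝ) ^ (J - j) * (n : ℝ) ^ (J - j') *
      ∑ u ∈ range (n ^ j), ∑ v ∈ range (n ^ j'), F j u j' v := by
  rw [Avg_xi hn J (fun j u => ∑ ξ' : Fin J × Fin (n ^ J), F j u ξ'.1 (ix n J ξ'))]
  refine sum_congr rfl fun j _ => ?_
  have h1 : ∀ u ∈ range (n ^ j), ∑ ξ' : Fin J × Fin (n ^ J), F j u ξ'.1 (ix n J ξ') =
      ∑ j' ∈ range J, (n : ℝ) ^ (J - j') * ∑ v ∈ range (n ^ j'), F j u j' v := by
    intro u _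
    exact Avg_xi hn J (fun j' v => F j u j' v)
  rw [sum_congr rfl h1, sum_comm, mul_sum]
  refine sum_congr rfl fun j' _ => ?_
  rw [← mul_sum]
  ring

theorem avg_dens {n : ℕ} (hn : 1 ≤ n) (Z : Finset (ℕ × ℕ)) (J A B U V : ℕ) (hA : J ≤ A)
    (hB : J ≤ B) :
    ∑ ξ : Fin J × Fin (n ^ J), ∑ ξ' : Fin J × Fin (n ^ J),
      dens n Z (A - ξ.1) (B - ξ'.1) (U * n ^ (ξ.1 : ℕ) + ix n J ξ) (V * n ^ (ξ'.1 : ℕ) + ix n J ξ') =
    ((J : ℝ) * (n : ℝ) ^ J) ^ 2 * dens n Z A B U V := by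
  rw [avg_gen hn J (fun j x j' y => dens n Z (A - j) (B - j') (U * n ^ j + x) (V * n ^ j' + y))]
  have hn0 : (0 : ℝ) < n := by exact_mod_cast hn
  have h1 : ∀ j ∈ range J, ∀ j' ∈ range J, (n : ℝ) ^ (J - j) * (n : ℝ) ^ (J - j') *
      ∑ u ∈ range (n ^ j), ∑ v ∈ range (n ^ j'),
        dens n Z (A - j) (B - j') (U * n ^ j + u) (V * n ^ j' + v) =
      ((n : ℝ) ^ J) ^ 2 * dens n Z A B U V := by
    intro j hj j' hj'
    have hj1 := mem_range.1 hj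
    have hj2 := mem_range.1 hj'
    have h2 := dens_sum hn Z (A - j) (B - j') j j' U V
    rw [show A - j + j = A by omega, show B - j' + j' = B by omega] at h2
    rw [h2]
    have e1 : (n : ℝ) ^ J = (n : ℝ) ^ (J - j) * (n : ℝ) ^ j := by
      rw [← pow_add]
      congr 1
      omega
    have e2 : (n : ℝ) ^ J = (n : ℝ) ^ (J - j') * (n : ℝ) ^ j' := by
      rw [← pow_add]
      congr 1
      omega
    calc _ = ((n : ℝ) ^ (J - j) * (n : ℝ) ^ j) * ((n : ℝ) ^ (J - j') * (n : ℝ) ^ j') *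
          dens n Z A B U V := by ring
      _ = (n : ℝ) ^ J * (n : ℝ) ^ J * dens n Z A B U V := by rw [← e1, ← e2]
      _ = _ := by ring
  rw [sum_congr rfl fun j hj => sum_congr rfl fun j' hj' => h1 j hj j' hj']
  rw [sum_const, sum_const, card_range, nsmul_eq_mul, nsmul_eq_mul]
  ring

theorem avg_irr {n : ℕ} (hn : 1 ≤ n) (Z : Finset (ℕ × ℕ)) (J A B U V : ℕ) (hJ : 1 ≤ J)
    (hA : J ≤ A) (hB : J ≤ B) :
    ∑ ξ : Fin J × Fin (n ^ J), ∑ ξ' : Fin J × Fin (n ^ J),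
      irr n Z (A - (ξ.1 + 1)) (B - (ξ'.1 + 1)) (U * n ^ (ξ.1 : ℕ) + ix n J ξ)
        (V * n ^ (ξ'.1 : ℕ) + ix n J ξ') ≤
    ((J : ℝ) * (n : ℝ) ^ J) ^ 2 * (12 / J * Real.negMulLog (dens n Z A B U V)) := by
  rw [avg_gen hn J (fun j x j' y => irr n Z (A - (j + 1)) (B - (j' + 1)) (U * n ^ j + x)
    (V * n ^ j' + y))]
  have hn0 : (0 : ℝ) < n := by exact_mod_cast hn
  have h1 : ∀ j ∈ range J, ∀ j' ∈ range J, (n : ℝ) ^ (J - j) * (n : ℝ) ^ (J - j') *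
      ∑ u ∈ range (n ^ j), ∑ v ∈ range (n ^ j'),
        irr n Z (A - (j + 1)) (B - (j' + 1)) (U * n ^ j + u) (V * n ^ j' + v) =
      ((n : ℝ) ^ J) ^ 2 * ((∑ u ∈ range (n ^ j), ∑ v ∈ range (n ^ j'),
        irr n Z (A - (j + 1)) (B - (j' + 1)) (U * n ^ j + u) (V * n ^ j' + v)) /
          ((n : ℝ) ^ j * (n : ℝ) ^ j')) := by
    intro j hj j' hj'
    have hj1 := mem_range.1 hj
    have hj2 := mem_range.1 hj'
    have e1 : (n : ℝ) ^ J = (n : ℝ) ^ (J - j) * (n : ℝ) ^ j := by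
      rw [← pow_add]
      congr 1
      omega
    have e2 : (n : ℝ) ^ J = (n : ℝ) ^ (J - j') * (n : ℝ) ^ j' := by
      rw [← pow_add]
      congr 1
      omega
    rw [sq]
    conv_rhs =>
      enter [1, 1]
      rw [e1]
    conv_rhs =>
      enter [1, 2]
      rw [e2]
    field_simp
  rw [sum_congr rfl fun j hj => sum_congr rfl fun j' hj' => h1 j hj j' hj']
  have h2 := reg hn Z J A B U V hA hB
  have h3 : ∑ j ∈ range J, ∑ j' ∈ range J, ((n : ℝ) ^ J) ^ 2 *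
      ((∑ u ∈ range (n ^ j), ∑ v ∈ range (n ^ j'),
        irr n Z (A - (j + 1)) (B - (j' + 1)) (U * n ^ j + u) (V * n ^ j' + v)) /
          ((n : ℝ) ^ j * (n : ℝ) ^ j')) = ((n : ℝ) ^ J) ^ 2 * ∑ j ∈ range J, ∑ j' ∈ range J,
      (∑ u ∈ range (n ^ j), ∑ v ∈ range (n ^ j'),
        irr n Z (A - (j + 1)) (B - (j' + 1)) (U * n ^ j + u) (V * n ^ j' + v)) /
          ((n : ℝ) ^ j * (n : ℝ) ^ j') := by
    rw [mul_sum]
    refine sum_congr rfl fun j _ => ?_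
    rw [mul_sum]
  rw [h3]
  have hJ0 : (0 : ℝ) < J := by exact_mod_cast hJ
  calc _ ≤ ((n : ℝ) ^ J) ^ 2 * (12 * J * Real.negMulLog (dens n Z A B U V)) :=
        mul_le_mul_of_nonneg_left h2 (by positivity)
    _ = _ := by
        field_simp

end FHA
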