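import Pool.Agent.FHA.Cut

/-!
# FHA.Bal: balanced refinement

PROOF.  If `N = 0` then `k = 0` and everything is trivial (`c = d = 0`).
Let `rank i` be the number of the `i' < i` with `p i' = p i` and `X0` the set of the `i` with `m ∣ rank i`; in the same way `Y0`.
`√(f i) ≤ lam` for all `i` (one term of `hrow` with `g = p i`, `h = q (σ i)`).  Take `X`, `Y` from `cut`.
Let `c i = #{j ∈ X | j ≤ i, p j = p i} - 1` (at least one such `j`: the first element of the group of `i` is in `X0`), `d` in the same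
way.  As `X` contains the first element of every group, `lab X i = lab X i'` iff (`p i = p i'` and `c i = c i'`); so the fibres of
`(p, c)` are the parts of `X`, and `part X i ⊆ part X0 i` has at most `m` elements (the ranks in a part of `X0` are in an interval
`[a m, (a+1) m)`).
SUMS: for `R = {p = g, c = x}` the sum in the statement is `rr σ f Y R` (the nonempty fibres of `lab Y ∘ σ` correspond to those
of `(q ∘ σ, d ∘ σ)`; empty fibres give `√0 = 0`), hence `≤ 9 lam`; it is `0` if `R` is empty.  For the columns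
reindex the inner sum by `σ`.
NUMBER OF PARTS: let `n_g` be the number of parts (= elements of `X`) in row group `g`, `n'_h` for column groups, `M` the maximum of
all of them, and suppose `M > 2 b`, say `M = n_g`.  At most `b` parts of the group `g` are parts of `X0` (the group has at most
`b m` elements, so at most `b` elements of `X0`, and different parts of `X` which are parts of `X0` contain different
elements of `X0`).  So more than `M/2` parts `R` of the group have `rr σ f Y R > 7/2 lam`, and the sum of `rr σ f Y R` over the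
parts `R` of `g` is `> (M/2) (7/2) lam ≥ M lam` (if `lam = 0` it is `> 0 = M lam`).  On the other hand this sum is
`∑_h ∑_{parts R of g, parts S of h} √(∑_{i ∈ R, σ i ∈ S} f i) ≤ ∑_h √(n_g n'_h) √(∑_{p i = g, q (σ i) = h} f i) ≤ M lam`
by Cauchy-Schwarz (`Finset.sum_mul_sq_le_sq_mul_sq` / `Real.sum_sqrt_le`) and `hrow`.  Contradiction.  The case of a column group is the same
with `hcol`.  Hence `c i < n_(p i) ≤ 2 b`.
-/

namespace FHA

open Finset

private def Bal_rk {k : ℕ} (p : Fin k → ℕ) (i : Fin k) : ℕ :=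
  (univ.filter fun i' => i' < i ∧ p i' = p i).card

private def Bal_X0 {k : ℕ} (p : Fin k → ℕ) (m : ℕ) : Finset (Fin k) :=
  univ.filter fun i => m ∣ Bal_rk p i

private def Bal_c {k : ℕ} (p : Fin k → ℕ) (X : Finset (Fin k)) (i : Fin k) : ℕ :=
  (X.filter fun j => j ≤ i ∧ p j = p i).card - 1

private theorem Bal_rk_lt {k : ℕ} {p : Fin k → ℕ} {i j : Fin k} (hij : i < j) (h : p i = p j) :
    Bal_rk p i < Bal_rk p j := by
  unfold Bal_rk
  refine Finset.card_lt_card ?_
  rw [Finset.ssubset_iff_of_subset]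
  · refine ⟨i, ?_, ?_⟩
    · rw [Finset.mem_filter]
      exact ⟨Finset.mem_univ _, hij, h⟩
    · rw [Finset.mem_filter]
      exact fun h' => absurd h'.2.1 (lt_irrefl _)
  · intro x hx
    rw [Finset.mem_filter] at hx ⊢
    exact ⟨hx.1, hx.2.1.trans hij, hx.2.2.trans h⟩

private theorem Bal_rk_inj {k : ℕ} {p : Fin k → ℕ} {i j : Fin k} (h : p i = p j)
    (hr : Bal_rk p i = Bal_rk p j) : i = j := by
  rcases lt_trichotomy i j with h1 | h1 | h1
  · exact absurd hr (Bal_rk_lt h1 h).ne
  · exact h1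
  · exact absurd hr (Bal_rk_lt h1 h.symm).ne'

private theorem Bal_rk_card {k : ℕ} (p : Fin k → ℕ) (i : Fin k) :
    Bal_rk p i < (univ.filter fun j => p j = p i).card := by
  unfold Bal_rk
  refine Finset.card_lt_card ?_
  rw [Finset.ssubset_iff_of_subset]
  · refine ⟨i, ?_, ?_⟩
    · rw [Finset.mem_filter]
      exact ⟨Finset.mem_univ _, rfl⟩
    · rw [Finset.mem_filter]
      exact fun h' => absurd h'.2.1 (lt_irrefl _)
  · intro x hx
    rw [Finset.mem_filter] at hx ⊢
    exact ⟨hx.1, hx.2.2⟩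

private theorem Bal_rk_ex {k : ℕ} (p : Fin k → ℕ) (i : Fin k) (r : ℕ) (hr : r ≤ Bal_rk p i) :
    ∃ j, p j = p i ∧ Bal_rk p j = r ∧ j ≤ i := by
  have h1 : (univ.filter fun j => p j = p i).image (Bal_rk p) =
      range (univ.filter fun j => p j = p i).card := by
    refine Finset.eq_of_subset_of_card_le ?_ ?_
    · intro x hx
      rw [Finset.mem_image] at hx
      obtain ⟨j, hj, rfl⟩ := hx
      rw [Finset.mem_filter] at hj
      rw [Finset.mem_range]
      have := Bal_rk_card p j
      rwa [hj.2] at this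
    · rw [Finset.card_range, Finset.card_image_of_injOn]
      intro x hx y hy hxy
      rw [Finset.mem_coe, Finset.mem_filter] at hx hy
      exact Bal_rk_inj (hx.2.trans hy.2.symm) hxy
  have h2 : r ∈ (univ.filter fun j => p j = p i).image (Bal_rk p) := by
    rw [h1, Finset.mem_range]
    exact hr.trans_lt (Bal_rk_card p i)
  rw [Finset.mem_image] at h2
  obtain ⟨j, hj, hj2⟩ := h2
  rw [Finset.mem_filter] at hj
  refine ⟨j, hj.2, hj2, ?_⟩
  by_contra hcon
  have := Bal_rk_lt (not_le.1 hcon) hj.2.symm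
  omega

private theorem Bal_lab_mono {k : ℕ} (X : Finset (Fin k)) {i j : Fin k} (h : i ≤ j) :
    lab X i ≤ lab X j := by
  unfold lab
  exact Finset.card_le_card fun x hx => by
    rw [Finset.mem_filter] at hx ⊢
    exact ⟨hx.1, hx.2.trans h⟩

private theorem Bal_lab_lt {k : ℕ} {X : Finset (Fin k)} {i j : Fin k} (h : i < j) (hj : j ∈ X) :
    lab X i < lab X j := by
  unfold lab
  refine Finset.card_lt_card ?_
  rw [Finset.ssubset_iff_of_subset]
  · refine ⟨j, Finset.mem_filter.2 ⟨hj, le_rfl⟩, ?_⟩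
    rw [Finset.mem_filter]
    exact fun h' => absurd h (not_lt.2 h'.2)
  · intro y hy
    rw [Finset.mem_filter] at hy ⊢
    exact ⟨hy.1, hy.2.trans h.le⟩

private theorem Bal_lab_le {k : ℕ} (X : Finset (Fin k)) (i : Fin k) : lab X i ≤ k := by
  unfold lab
  exact (Finset.card_le_univ _).trans (by rw [Fintype.card_fin])

private theorem Bal_rep {k m : ℕ} {p : Fin k → ℕ} (hp : Monotone p)
    {X : Finset (Fin k)} (hX : Bal_X0 p m ⊆ X) (i : Fin k) :
    ∃ j ∈ X, j ≤ i ∧ p j = p i ∧ lab X j = lab X i := by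
  obtain ⟨j0, h1, h2, h3⟩ := Bal_rk_ex p i 0 (Nat.zero_le _)
  have h4 : j0 ∈ X := hX (Finset.mem_filter.2 ⟨Finset.mem_univ _, by rw [h2]; exact dvd_zero m⟩)
  have hne : (X.filter fun j => j ≤ i).Nonempty := ⟨j0, Finset.mem_filter.2 ⟨h4, h3⟩⟩
  obtain ⟨j, hj⟩ : ∃ j, j = (X.filter fun j => j ≤ i).max' hne := ⟨_, rfl⟩
  have hj1 : j ∈ X.filter fun j => j ≤ i := hj ▸ Finset.max'_mem _ hne
  have hj2 : ∀ x ∈ X, x ≤ i → x ≤ j := fun x hx hxi =>
    hj ▸ Finset.le_max' _ x (Finset.mem_filter.2 ⟨hx, hxi⟩)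
  rw [Finset.mem_filter] at hj1
  refine ⟨j, hj1.1, hj1.2, ?_, ?_⟩
  · have a1 := hp (hj2 j0 h4 h3)
    have a2 := hp hj1.2
    omega
  · unfold lab
    congr 1
    ext x
    rw [Finset.mem_filter, Finset.mem_filter]
    exact ⟨fun h => ⟨h.1, h.2.trans hj1.2⟩, fun h => ⟨h.1, hj2 x h.1 h.2⟩⟩

private theorem Bal_one {k m : ℕ} {p : Fin k → ℕ} {X : Finset (Fin k)}
    (hX : Bal_X0 p m ⊆ X) (i : Fin k) : 1 ≤ (X.filter fun j => j ≤ i ∧ p j = p i).card := by
  obtain ⟨j0, h1, h2, h3⟩ := Bal_rk_ex p i 0 (Nat.zero_le _)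
  have h4 : j0 ∈ X := hX (Finset.mem_filter.2 ⟨Finset.mem_univ _, by rw [h2]; exact dvd_zero m⟩)
  exact Finset.card_pos.2 ⟨j0, Finset.mem_filter.2 ⟨h4, h3, h1⟩⟩

private theorem Bal_lab_iff {k m : ℕ} {p : Fin k → ℕ} (hp : Monotone p)
    {X : Finset (Fin k)} (hX : Bal_X0 p m ⊆ X) (i j : Fin k) :
    lab X i = lab X j ↔ p i = p j ∧ Bal_c p X i = Bal_c p X j := by
  have key : ∀ i j : Fin k, i ≤ j → (lab X i = lab X j ↔ p i = p j ∧ Bal_c p X i = Bal_c p X j) := by
    intro i j hij
    constructor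
    · intro h
      obtain ⟨i', hi1, hi2, hi3, hi4⟩ := Bal_rep hp hX i
      obtain ⟨j', hj1, hj2, hj3, hj4⟩ := Bal_rep hp hX j
      have hpe : p i = p j := by
        rw [← hi3, ← hj3]
        rcases lt_trichotomy i' j' with h1 | h1 | h1
        · have := Bal_lab_lt h1 hj1
          omega
        · rw [h1]
        · have := Bal_lab_lt h1 hi1
          omega
      refine ⟨hpe, ?_⟩
      unfold Bal_c
      congr 2
      ext x
      rw [Finset.mem_filter, Finset.mem_filter]
      constructor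
      · rintro ⟨h1, h2, h3⟩
        exact ⟨h1, h2.trans hij, h3.trans hpe⟩
      · rintro ⟨h1, h2, h3⟩
        refine ⟨h1, ?_, h3.trans hpe.symm⟩
        by_contra hcon
        have a1 := Bal_lab_lt (not_le.1 hcon) h1
        have a2 := Bal_lab_mono X h2
        omega
    · rintro ⟨hpe, hc⟩
      have b1 := Bal_one hX i
      have b2 := Bal_one hX j
      unfold Bal_c at hc
      have hsub : (X.filter fun x => x ≤ i ∧ p x = p i) ⊆ X.filter fun x => x ≤ j ∧ p x = p j := by
        intro x hx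
        rw [Finset.mem_filter] at hx ⊢
        exact ⟨hx.1, hx.2.1.trans hij, hx.2.2.trans hpe⟩
      have heq := Finset.eq_of_subset_of_card_le hsub (by omega)
      unfold lab
      congr 1
      ext x
      rw [Finset.mem_filter, Finset.mem_filter]
      constructor
      · rintro ⟨h1, h2⟩
        exact ⟨h1, h2.trans hij⟩
      · rintro ⟨h1, h2⟩
        refine ⟨h1, ?_⟩
        by_contra hcon
        have a1 := hp (not_le.1 hcon).le
        have a2 := hp h2
        have a3 : x ∈ X.filter fun x => x ≤ j ∧ p x = p j :=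
          Finset.mem_filter.2 ⟨h1, h2, by omega⟩
        rw [← heq, Finset.mem_filter] at a3
        exact hcon a3.2.1
  rcases le_total i j with h | h
  · exact key i j h
  · rw [eq_comm, key j i h, eq_comm (a := p i), eq_comm (a := Bal_c p X i)]

private theorem Bal_c_mono {k : ℕ} (p : Fin k → ℕ) (X : Finset (Fin k)) (i j : Fin k)
    (h : i ≤ j) (hpe : p i = p j) : Bal_c p X i ≤ Bal_c p X j := by
  unfold Bal_c
  refine Nat.sub_le_sub_right (Finset.card_le_card ?_) 1
  intro x hx
  rw [Finset.mem_filter] at hx ⊢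
  exact ⟨hx.1, hx.2.1.trans h, hx.2.2.trans hpe⟩

private theorem Bal_c_card {k m : ℕ} (hm : 1 ≤ m) {p : Fin k → ℕ} (hp : Monotone p)
    {X : Finset (Fin k)} (hX : Bal_X0 p m ⊆ X) (g x : ℕ) :
    (univ.filter fun i => p i = g ∧ Bal_c p X i = x).card ≤ m := by
  have key : ∀ i j : Fin k, i ≤ j → p i = p j → lab X i = lab X j →
      Bal_rk p i / m = Bal_rk p j / m := by
    intro i j hij hpe hl
    have hle : Bal_rk p i ≤ Bal_rk p j := by
      rcases hij.lt_or_eq with h | h
      · exact (Bal_rk_lt h hpe).le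
      · rw [h]
    refine le_antisymm (Nat.div_le_div_right hle) ?_
    by_contra hcon
    rw [not_le] at hcon
    obtain ⟨y, hy1, hy2, hy3⟩ := Bal_rk_ex p j (m * (Bal_rk p j / m)) (Nat.mul_div_le _ _)
    have hyX : y ∈ X := hX (Finset.mem_filter.2 ⟨Finset.mem_univ _, by rw [hy2]; exact dvd_mul_right _ _⟩)
    have h1 : Bal_rk p i < Bal_rk p y := by
      rw [hy2]
      have a1 := Nat.lt_mul_div_succ (Bal_rk p i) (show 0 < m by omega)
      have a2 : m * (Bal_rk p i / m + 1) ≤ m * (Bal_rk p j / m) := Nat.mul_le_mul_left _ hcon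
      omega
    have h2 : i < y := by
      by_contra h3
      rcases (not_lt.1 h3).lt_or_eq with h4 | h4
      · have := Bal_rk_lt h4 (hy1.trans hpe.symm)
        omega
      · rw [h4] at h1
        exact absurd h1 (lt_irrefl _)
    have a1 := Bal_lab_lt h2 hyX
    have a2 := Bal_lab_mono X hy3
    omega
  have h2 : (univ.filter fun i => p i = g ∧ Bal_c p X i = x).card ≤ (range m).card := by
    refine Finset.card_le_card_of_injOn (fun i => Bal_rk p i % m) ?_ ?_
    · intro i _
      rw [Finset.mem_coe, Finset.mem_range]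
      exact Nat.mod_lt _ (by omega)
    · intro i hi j hj hij
      rw [Finset.mem_coe, Finset.mem_filter] at hi hj
      have hpe : p i = p j := hi.2.1.trans hj.2.1.symm
      have hl : lab X i = lab X j := (Bal_lab_iff hp hX i j).2 ⟨hpe, hi.2.2.trans hj.2.2.symm⟩
      have hd : Bal_rk p i / m = Bal_rk p j / m := by
        rcases le_total i j with h | h
        · exact key i j h hpe hl
        · exact (key j i h hpe.symm hl.symm).symm
      refine Bal_rk_inj hpe ?_
      have e1 := Nat.div_add_mod (Bal_rk p i) m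
      have e2 := Nat.div_add_mod (Bal_rk p j) m
      simp only at hij
      rw [hd, hij] at e1
      omega
  rwa [Finset.card_range] at h2

private theorem Bal_c_lt {k m : ℕ} {p : Fin k → ℕ} {X : Finset (Fin k)}
    (hX : Bal_X0 p m ⊆ X) (i : Fin k) : Bal_c p X i < (X.filter fun j => p j = p i).card := by
  have h1 := Bal_one hX i
  have h2 : (X.filter fun j => j ≤ i ∧ p j = p i).card ≤ (X.filter fun j => p j = p i).card := by
    refine Finset.card_le_card ?_
    intro x hx
    rw [Finset.mem_filter] at hx ⊢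
    exact ⟨hx.1, hx.2.2⟩
  unfold Bal_c
  omega

private theorem Bal_mem_part {k : ℕ} {X : Finset (Fin k)} {i x : Fin k} :
    x ∈ part X i ↔ lab X x = lab X i := by
  unfold part
  simp

private theorem Bal_old {k b m : ℕ} (hm : 1 ≤ m) {p : Fin k → ℕ} (hp : Monotone p)
    {X : Finset (Fin k)} (g : ℕ) (hpm : (univ.filter fun i => p i = g).card ≤ b * m) :
    (X.filter fun j => p j = g ∧ part X j = part (Bal_X0 p m) j).card ≤ b := by
  have h2 : (X.filter fun j => p j = g ∧ part X j = part (Bal_X0 p m) j).card ≤ (range b).card := by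
    have hin : ∀ j ∈ X.filter (fun j => p j = g ∧ part X j = part (Bal_X0 p m) j),
        j ∈ Bal_X0 p m ∧ p j = g := by
      intro j hj
      rw [Finset.mem_filter] at hj
      refine ⟨?_, hj.2.1⟩
      obtain ⟨x, hx1, hx2, hx3, hx4⟩ := Bal_rep hp (Finset.Subset.refl (Bal_X0 p m)) j
      have h1 : x ∈ part X j := by
        rw [hj.2.2]
        exact Bal_mem_part.2 hx4
      rw [Bal_mem_part] at h1
      rcases hx2.lt_or_eq with h3 | h3
      · have := Bal_lab_lt h3 hj.1
        omega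
      · rwa [← h3]
    refine Finset.card_le_card_of_injOn (fun i => Bal_rk p i / m) ?_ ?_
    · intro i hi
      rw [Finset.mem_coe] at hi
      rw [Finset.mem_coe, Finset.mem_range]
      obtain ⟨h1, h3⟩ := hin i hi
      have h4 := Bal_rk_card p i
      rw [h3] at h4
      exact (Nat.div_lt_iff_lt_mul (by omega)).2 (h4.trans_le hpm)
    · intro i hi j hj hij
      rw [Finset.mem_coe] at hi hj
      obtain ⟨h1, h3⟩ := hin i hi
      obtain ⟨h4, h5⟩ := hin j hj
      refine Bal_rk_inj (h3.trans h5.symm) ?_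
      have d1 := (Finset.mem_filter.1 h1).2
      have d2 := (Finset.mem_filter.1 h4).2
      have e1 := Nat.div_mul_cancel d1
      have e2 := Nat.div_mul_cancel d2
      simp only at hij
      rw [← e1, ← e2, hij]
  rwa [Finset.card_range] at h2

private theorem Bal_fib {ι α β : Type} [DecidableEq ι] [DecidableEq α] [DecidableEq β]
    (S : Finset ι) (φ : ι → α) (ψ : ι → β) (A : Finset α) (C : Finset β)
    (hC : ∀ i ∈ S, ψ i ∈ C) (h : ∀ i ∈ S, ∀ j ∈ S, φ i = φ j ↔ ψ i = ψ j) (f : ι → ℝ) :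
    ∑ a ∈ A, √(∑ i ∈ S.filter (fun i => φ i = a), f i) ≤
      ∑ c ∈ C, √(∑ i ∈ S.filter (fun i => ψ i = c), f i) := by
  classical
  rcases S.eq_empty_or_nonempty with rfl | ⟨i0, hi0⟩
  · simp
  obtain ⟨τ, hτ⟩ : ∃ τ : α → β, ∀ i ∈ S, τ (φ i) = ψ i := by
    refine ⟨fun a => if h : ∃ i ∈ S, φ i = a then ψ h.choose else ψ i0, ?_⟩
    intro i hi
    have h1 : ∃ i' ∈ S, φ i' = φ i := ⟨i, hi, rfl⟩
    simp only [dif_pos h1]
    have h2 := h1.choose_spec
    exact (h _ h2.1 _ hi).1 h2.2
  have h1 : ∑ a ∈ A, √(∑ i ∈ S.filter (fun i => φ i = a), f i) =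
      ∑ a ∈ A.filter (fun a => ∃ i ∈ S, φ i = a), √(∑ i ∈ S.filter (fun i => φ i = a), f i) := by
    refine (Finset.sum_filter_of_ne ?_).symm
    intro a _ hne
    by_contra hcon
    apply hne
    rw [Finset.filter_false_of_mem, Finset.sum_empty, Real.sqrt_zero]
    exact fun i hi hia => hcon ⟨i, hi, hia⟩
  have h2 : ∑ a ∈ A.filter (fun a => ∃ i ∈ S, φ i = a), √(∑ i ∈ S.filter (fun i => φ i = a), f i) =
      ∑ a ∈ A.filter (fun a => ∃ i ∈ S, φ i = a), √(∑ i ∈ S.filter (fun i => ψ i = τ a), f i) := by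
    refine Finset.sum_congr rfl fun a ha => ?_
    obtain ⟨i, hi, rfl⟩ := (Finset.mem_filter.1 ha).2
    rw [hτ i hi]
    congr 2
    refine Finset.filter_congr fun j hj => ?_
    exact h j hj i hi
  rw [h1, h2]
  have h3 : ∑ a ∈ A.filter (fun a => ∃ i ∈ S, φ i = a), √(∑ i ∈ S.filter (fun i => ψ i = τ a), f i) =
      ∑ c ∈ (A.filter (fun a => ∃ i ∈ S, φ i = a)).image τ,
        √(∑ i ∈ S.filter (fun i => ψ i = c), f i) := by
    rw [Finset.sum_image]
    intro a ha a' ha' haa
    rw [Finset.mem_coe] at ha ha'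
    obtain ⟨i, hi, rfl⟩ := (Finset.mem_filter.1 ha).2
    obtain ⟨j, hj, rfl⟩ := (Finset.mem_filter.1 ha').2
    rw [hτ i hi, hτ j hj] at haa
    exact (h i hi j hj).2 haa
  rw [h3]
  refine Finset.sum_le_sum_of_subset_of_nonneg ?_ fun _ _ _ => Real.sqrt_nonneg _
  intro c hc
  rw [Finset.mem_image] at hc
  obtain ⟨a, ha, rfl⟩ := hc
  obtain ⟨i, hi, rfl⟩ := (Finset.mem_filter.1 ha).2
  rw [hτ i hi]
  exact hC i hi

/-- the total of the sums over the parts of a group -/
private theorem Bal_tot {k N m : ℕ} (σ : Equiv.Perm (Fin k)) (f : Fin k → ℝ) (hf : ∀ i, 0 ≤ f i)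
    {p q : Fin k → ℕ} (hp : Monotone p) (hq : Monotone q)
    (hqN : ∀ i, q i < N) {lam : ℝ} {X Y : Finset (Fin k)}
    (hX : Bal_X0 p m ⊆ X) (hY : Bal_X0 q m ⊆ Y) (g : ℕ)
    (hrow : ∑ h ∈ range N, √(∑ i ∈ univ.filter (fun i => p i = g ∧ q (σ i) = h), f i) ≤ lam)
    (hmax : ∀ h, (Y.filter fun j => q j = h).card ≤ (X.filter fun j => p j = g).card) :
    ∑ j ∈ X.filter (fun j => p j = g), rr σ f Y (part X j) ≤
      ((X.filter fun j => p j = g).card : ℝ) * lam := by
  obtain ⟨M, hM⟩ : ∃ M, M = (X.filter fun j => p j = g).card := ⟨_, rfl⟩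
  rw [← hM]
  choose r hr1 hr2 hr3 hr4 using fun i => Bal_rep hq hY i
  have hruniq : ∀ x y, lab Y x = lab Y y ↔ r x = r y := by
    intro x y
    constructor
    · intro h
      rcases lt_trichotomy (r x) (r y) with h1 | h1 | h1
      · have := Bal_lab_lt h1 (hr1 y)
        have := hr4 x
        have := hr4 y
        omega
      · exact h1
      · have := Bal_lab_lt h1 (hr1 x)
        have := hr4 x
        have := hr4 y
        omega
    · intro h
      rw [← hr4 x, ← hr4 y, h]
  have hstep1 : ∀ j ∈ X.filter (fun j => p j = g), rr σ f Y (part X j) ≤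
      ∑ h ∈ range N, ∑ y ∈ Y.filter (fun y => q y = h),
        √(∑ i ∈ (part X j).filter (fun i => r (σ i) = y), f i) := by
    intro j hj
    have h1 : rr σ f Y (part X j) ≤ ∑ y ∈ Y, √(∑ i ∈ (part X j).filter (fun i => r (σ i) = y), f i) := by
      unfold rr
      refine Bal_fib (part X j) (fun i => lab Y (σ i)) (fun i => r (σ i)) (range (k + 1)) Y
        (fun i _ => hr1 _) ?_ f
      intro i _ i' _
      exact hruniq _ _
    refine h1.trans (le_of_eq ?_)
    exact (Finset.sum_fiberwise_of_maps_to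
      (s := Y) (t := range N) (g := q) (fun y _ => Finset.mem_range.2 (hqN y)) _).symm
  refine (Finset.sum_le_sum hstep1).trans ?_
  rw [Finset.sum_comm]
  have hstep2 : ∀ h ∈ range N, ∑ j ∈ X.filter (fun j => p j = g), ∑ y ∈ Y.filter (fun y => q y = h),
        √(∑ i ∈ (part X j).filter (fun i => r (σ i) = y), f i) ≤
      (M : ℝ) * √(∑ i ∈ univ.filter (fun i => p i = g ∧ q (σ i) = h), f i) := by
    intro h _
    rw [← Finset.sum_product']
    obtain ⟨A, hA⟩ : ∃ A, A = (X.filter fun j => p j = g) ×ˢ (Y.filter fun y => q y = h) := ⟨_, rfl⟩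
    rw [← hA]
    have hw : ∀ z ∈ A, 0 ≤ ∑ i ∈ (part X z.1).filter (fun i => r (σ i) = z.2), f i :=
      fun z _ => Finset.sum_nonneg fun i _ => hf i
    have hcs := sq_sum_le_card_mul_sum_sq (s := A)
      (f := fun z => √(∑ i ∈ (part X z.1).filter (fun i => r (σ i) = z.2), f i))
    have hcard : (A.card : ℝ) ≤ (M : ℝ) ^ 2 := by
      rw [hA, Finset.card_product, ← hM, pow_two]
      have := hmax h
      rw [← hM] at this
      exact_mod_cast Nat.mul_le_mul_left M this
    have hsum : ∑ z ∈ A, √(∑ i ∈ (part X z.1).filter (fun i => r (σ i) = z.2), f i) ^ 2 ≤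
        ∑ i ∈ univ.filter (fun i => p i = g ∧ q (σ i) = h), f i := by
      have e1 : ∑ z ∈ A, √(∑ i ∈ (part X z.1).filter (fun i => r (σ i) = z.2), f i) ^ 2 =
          ∑ z ∈ A, ∑ i ∈ (part X z.1).filter (fun i => r (σ i) = z.2), f i :=
        Finset.sum_congr rfl fun z hz => Real.sq_sqrt (hw z hz)
      rw [e1, ← Finset.sum_biUnion]
      · refine Finset.sum_le_sum_of_subset_of_nonneg ?_ fun i _ _ => hf i
        intro i hi
        rw [Finset.mem_biUnion] at hi
        obtain ⟨z, hz, hi⟩ := hi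
        rw [hA, Finset.mem_product, Finset.mem_filter, Finset.mem_filter] at hz
        rw [Finset.mem_filter, Bal_mem_part] at hi
        rw [Finset.mem_filter]
        refine ⟨Finset.mem_univ _, ?_, ?_⟩
        · exact ((Bal_lab_iff hp hX _ _).1 hi.1).1.trans hz.1.2
        · rw [← hr3 (σ i), hi.2]
          exact hz.2.2
      · intro z hz z' hz' hne
        rw [Finset.mem_coe, hA, Finset.mem_product, Finset.mem_filter, Finset.mem_filter] at hz hz'
        rw [Function.onFun, Finset.disjoint_left]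
        intro i hi hi'
        rw [Finset.mem_filter, Bal_mem_part] at hi hi'
        apply hne
        refine Prod.ext ?_ (hi.2.symm.trans hi'.2)
        have h1 : lab X z.1 = lab X z'.1 := hi.1.symm.trans hi'.1
        rcases lt_trichotomy z.1 z'.1 with h2 | h2 | h2
        · have := Bal_lab_lt h2 hz'.1.1
          omega
        · exact h2
        · have := Bal_lab_lt h2 hz.1.1
          omega
    have hT : 0 ≤ ∑ i ∈ univ.filter (fun i => p i = g ∧ q (σ i) = h), f i :=
      Finset.sum_nonneg fun i _ => hf i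
    refine abs_le_of_sq_le_sq' ?_ (by positivity) |>.2
    rw [mul_pow, Real.sq_sqrt hT]
    refine hcs.trans ?_
    exact mul_le_mul hcard hsum (Finset.sum_nonneg fun z _ => sq_nonneg _) (by positivity)
  refine (Finset.sum_le_sum hstep2).trans ?_
  rw [← Finset.mul_sum]
  exact mul_le_mul_of_nonneg_left hrow (Nat.cast_nonneg _)

private theorem Bal_cnt {k N b m : ℕ} (hm : 1 ≤ m) (σ : Equiv.Perm (Fin k)) (f : Fin k → ℝ)
    (hf : ∀ i, 0 ≤ f i)
    {p q : Fin k → ℕ} (hp : Monotone p) (hq : Monotone q)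
    (hqN : ∀ i, q i < N) {lam : ℝ} (hlam : 0 ≤ lam) {X Y : Finset (Fin k)}
    (hX : Bal_X0 p m ⊆ X) (hY : Bal_X0 q m ⊆ Y) (g : ℕ)
    (hpm : (univ.filter fun i => p i = g).card ≤ b * m)
    (hdich : ∀ i, part X i = part (Bal_X0 p m) i ∨ 7 / 2 * lam < rr σ f Y (part X i))
    (hrow : ∑ h ∈ range N, √(∑ i ∈ univ.filter (fun i => p i = g ∧ q (σ i) = h), f i) ≤ lam)
    (hmax : ∀ h, (Y.filter fun j => q j = h).card ≤ (X.filter fun j => p j = g).card) :
    (X.filter fun j => p j = g).card ≤ 2 * b := by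
  by_contra hcon
  rw [not_le] at hcon
  have htot := Bal_tot σ f hf hp hq hqN hX hY g hrow hmax
  have hold := Bal_old hm hp (X := X) g hpm
  classical
  obtain ⟨P, hP⟩ : ∃ P, P = X.filter fun j => p j = g := ⟨_, rfl⟩
  rw [← hP] at htot hcon
  have hsplit := Finset.card_filter_add_card_filter_not (s := P)
    (fun j => part X j = part (Bal_X0 p m) j)
  have hold' : (P.filter fun j => part X j = part (Bal_X0 p m) j).card ≤ b := by
    rw [hP, Finset.filter_filter]
    exact hold
  obtain ⟨Q, hQ⟩ : ∃ Q, Q = P.filter fun j => ¬ part X j = part (Bal_X0 p m) j := ⟨_, rfl⟩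
  rw [← hQ] at hsplit
  have hcard : P.card < 2 * Q.card := by omega
  have hcard' : (P.card : ℝ) < 2 * (Q.card : ℝ) := by exact_mod_cast hcard
  have hrr0 : ∀ j, 0 ≤ rr σ f Y (part X j) := fun j => by
    unfold rr
    exact Finset.sum_nonneg fun _ _ => Real.sqrt_nonneg _
  have h1 : ∑ j ∈ Q, rr σ f Y (part X j) ≤ ∑ j ∈ P, rr σ f Y (part X j) := by
    refine Finset.sum_le_sum_of_subset_of_nonneg ?_ fun j _ _ => hrr0 j
    rw [hQ]
    exact Finset.filter_subset _ _
  have hQne : Q.Nonempty := by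
    rw [← Finset.card_pos]
    omega
  have h2 : ∑ j ∈ Q, 7 / 2 * lam < ∑ j ∈ Q, rr σ f Y (part X j) := by
    refine Finset.sum_lt_sum_of_nonempty hQne fun j hj => ?_
    rw [hQ, Finset.mem_filter] at hj
    rcases hdich j with h3 | h3
    · exact absurd h3 hj.2
    · exact h3
  rw [Finset.sum_const, nsmul_eq_mul] at h2
  nlinarith [mul_le_mul_of_nonneg_right hcard'.le hlam, mul_nonneg (Nat.cast_nonneg (α := ℝ) Q.card) hlam]

private theorem Bal_reidx {k : ℕ} (σ : Equiv.Perm (Fin k)) (f : Fin k → ℝ) (P : Fin k → Fin k → Prop)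
    [∀ i j, Decidable (P i j)] :
    ∑ i ∈ univ.filter (fun i => P i (σ i)), f i =
      ∑ j ∈ univ.filter (fun j => P (σ.symm j) j), f (σ.symm j) := by
  refine Finset.sum_bij' (fun i _ => σ i) (fun j _ => σ.symm j) ?_ ?_ ?_ ?_ ?_
  · intro i hi
    rw [Finset.mem_filter] at hi ⊢
    rw [Equiv.symm_apply_apply]
    exact ⟨Finset.mem_univ _, hi.2⟩
  · intro j hj
    rw [Finset.mem_filter] at hj ⊢
    rw [Equiv.apply_symm_apply]
    exact ⟨Finset.mem_univ _, hj.2⟩
  · intro i _
    exact Equiv.symm_apply_apply _ _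
  · intro j _
    exact Equiv.apply_symm_apply _ _
  · intro i _
    rw [Equiv.symm_apply_apply]

/-- one side of the sums -/
private theorem Bal_sum {k N b m : ℕ} (σ : Equiv.Perm (Fin k)) (f : Fin k → ℝ)
    {p q : Fin k → ℕ} (hp : Monotone p) (hq : Monotone q)
    {lam : ℝ} (hlam : 0 ≤ lam) {X Y : Finset (Fin k)}
    (hX : Bal_X0 p m ⊆ X) (hY : Bal_X0 q m ⊆ Y)
    (hrr : ∀ i, rr σ f Y (part X i) ≤ 9 * lam) (g x : ℕ) :
    ∑ h ∈ range N, ∑ y ∈ range (2 * b),
        √(∑ i ∈ univ.filter (fun i => (p i = g ∧ Bal_c p X i = x) ∧ q (σ i) = h ∧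
          Bal_c q Y (σ i) = y), f i) ≤ 9 * lam := by
  obtain ⟨R, hR⟩ : ∃ R, R = univ.filter (fun i => p i = g ∧ Bal_c p X i = x) := ⟨_, rfl⟩
  have e1 : ∀ h y, univ.filter (fun i => (p i = g ∧ Bal_c p X i = x) ∧ q (σ i) = h ∧
          Bal_c q Y (σ i) = y) = R.filter (fun i => (q (σ i), Bal_c q Y (σ i)) = (h, y)) := by
    intro h y
    rw [hR, Finset.filter_filter]
    refine Finset.filter_congr fun i _ => ?_
    rw [Prod.mk.injEq]
  have e2 : ∑ h ∈ range N, ∑ y ∈ range (2 * b),
        √(∑ i ∈ univ.filter (fun i => (p i = g ∧ Bal_c p X i = x) ∧ q (σ i) = h ∧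
          Bal_c q Y (σ i) = y), f i) = ∑ z ∈ range N ×ˢ range (2 * b),
        √(∑ i ∈ R.filter (fun i => (q (σ i), Bal_c q Y (σ i)) = z), f i) := by
    rw [Finset.sum_product]
    refine Finset.sum_congr rfl fun h _ => Finset.sum_congr rfl fun y _ => ?_
    rw [e1]
  rw [e2]
  rcases R.eq_empty_or_nonempty with h0 | ⟨i0, hi0⟩
  · rw [h0]
    simp only [Finset.filter_empty, Finset.sum_empty, Real.sqrt_zero, Finset.sum_const_zero]
    linarith
  have hRp : R = part X i0 := by
    rw [hR, Finset.mem_filter] at hi0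
    ext i
    rw [Bal_mem_part, Bal_lab_iff hp hX, hR, Finset.mem_filter, hi0.2.1, hi0.2.2]
    exact ⟨fun h => h.2, fun h => ⟨Finset.mem_univ _, h⟩⟩
  refine le_trans ?_ (hrr i0)
  rw [← hRp]
  unfold rr
  refine Bal_fib R (fun i => (q (σ i), Bal_c q Y (σ i))) (fun i => lab Y (σ i)) _ (range (k + 1))
    (fun i _ => Finset.mem_range.2 (Nat.lt_succ_of_le (Bal_lab_le _ _))) ?_ f
  intro i _ j _
  rw [Prod.mk.injEq]
  exact (Bal_lab_iff hq hY _ _).symm

theorem bal {k N b m : ℕ} (σ : Equiv.Perm (Fin k)) (f : Fin k → ℝ) (hf : ∀ i, 0 ≤ f i)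
    (p q : Fin k → ℕ) (hp : Monotone p) (hq : Monotone q) (hpN : ∀ i, p i < N)
    (hqN : ∀ i, q i < N) (hb : 1 ≤ b) (hm : 1 ≤ m)
    (hpm : ∀ g, (univ.filter fun i => p i = g).card ≤ b * m)
    (hqm : ∀ h, (univ.filter fun j => q j = h).card ≤ b * m) {lam : ℝ} (hlam : 0 ≤ lam)
    (hrow : ∀ g < N, ∑ h ∈ range N,
      √(∑ i ∈ univ.filter (fun i => p i = g ∧ q (σ i) = h), f i) ≤ lam)
    (hcol : ∀ h < N, ∑ g ∈ range N,
      √(∑ i ∈ univ.filter (fun i => p i = g ∧ q (σ i) = h), f i) ≤ lam) :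
    ∃ c d : Fin k → ℕ, (∀ i, c i < 2 * b) ∧ (∀ j, d j < 2 * b) ∧
      (∀ i j, i ≤ j → p i = p j → c i ≤ c j) ∧ (∀ i j, i ≤ j → q i = q j → d i ≤ d j) ∧
      (∀ g x, (univ.filter fun i => p i = g ∧ c i = x).card ≤ m) ∧
      (∀ h y, (univ.filter fun j => q j = h ∧ d j = y).card ≤ m) ∧
      (∀ g < N, ∀ x < 2 * b, ∑ h ∈ range N, ∑ y ∈ range (2 * b),
        √(∑ i ∈ univ.filter (fun i => (p i = g ∧ c i = x) ∧ q (σ i) = h ∧ d (σ i) = y), f i) ≤
          9 * lam) ∧
      (∀ h < N, ∀ y < 2 * b, ∑ g ∈ range N, ∑ x ∈ range (2 * b),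
        √(∑ i ∈ univ.filter (fun i => (p i = g ∧ c i = x) ∧ q (σ i) = h ∧ d (σ i) = y), f i) ≤
          9 * lam) := by
  have hfl : ∀ i, √(f i) ≤ lam := by
    intro i
    have h1 := hrow (p i) (hpN i)
    have h2 : √(∑ i' ∈ univ.filter (fun i' => p i' = p i ∧ q (σ i') = q (σ i)), f i') ≤
        ∑ h ∈ range N, √(∑ i' ∈ univ.filter (fun i' => p i' = p i ∧ q (σ i') = h), f i') :=
      Finset.single_le_sum (f := fun h => √(∑ i' ∈ univ.filter (fun i' => p i' = p i ∧ q (σ i') = h), f i'))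
        (fun h _ => Real.sqrt_nonneg _) (Finset.mem_range.2 (hqN (σ i)))
    have h3 : √(f i) ≤ √(∑ i' ∈ univ.filter (fun i' => p i' = p i ∧ q (σ i') = q (σ i)), f i') :=
      Real.sqrt_le_sqrt (Finset.single_le_sum (f := f) (fun i' _ => hf i')
        (Finset.mem_filter.2 ⟨Finset.mem_univ _, rfl, rfl⟩))
    linarith
  obtain ⟨X, Y, hX, hY, hrr1, hrr2, hd1, hd2⟩ := cut σ f hf hfl (Bal_X0 p m) (Bal_X0 q m)
  -- the maximum of the numbers of parts
  have hbound : (∀ g < N, (X.filter fun j => p j = g).card ≤ 2 * b) ∧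
      (∀ h < N, (Y.filter fun j => q j = h).card ≤ 2 * b) := by
    by_contra hcon
    obtain ⟨M, hM⟩ : ∃ M, M = max ((range N).sup fun g => (X.filter fun j => p j = g).card)
      ((range N).sup fun h => (Y.filter fun j => q j = h).card) := ⟨_, rfl⟩
    have hM1 : ∀ g, (X.filter fun j => p j = g).card ≤ M := by
      intro g
      by_cases hg : g < N
      · rw [hM]
        exact (Finset.le_sup (f := fun g => (X.filter fun j => p j = g).card)
          (Finset.mem_range.2 hg)).trans (le_max_left _ _)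
      · rw [Finset.filter_false_of_mem, Finset.card_empty]
        · exact Nat.zero_le _
        · intro j _ hj
          exact hg (hj ▸ hpN j)
    have hM2 : ∀ h, (Y.filter fun j => q j = h).card ≤ M := by
      intro h
      by_cases hg : h < N
      · rw [hM]
        exact (Finset.le_sup (f := fun h => (Y.filter fun j => q j = h).card)
          (Finset.mem_range.2 hg)).trans (le_max_right _ _)
      · rw [Finset.filter_false_of_mem, Finset.card_empty]
        · exact Nat.zero_le _
        · intro j _ hj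
          exact hg (hj ▸ hqN j)
    have hbig : 2 * b < M := by
      by_contra h1
      rw [not_lt] at h1
      exact hcon ⟨fun g _ => (hM1 g).trans h1, fun h _ => (hM2 h).trans h1⟩
    have hNpos : (range N).Nonempty := by
      rw [Finset.nonempty_iff_ne_empty]
      intro h1
      rw [h1] at hM
      simp at hM
      omega
    rcases le_total ((range N).sup fun h => (Y.filter fun j => q j = h).card)
      ((range N).sup fun g => (X.filter fun j => p j = g).card) with hle | hle
    · rw [max_eq_left hle] at hM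
      obtain ⟨g, hg, hgM⟩ := Finset.exists_mem_eq_sup (range N) hNpos
        (fun g => (X.filter fun j => p j = g).card)
      rw [Finset.mem_range] at hg
      have hgM' : M = (X.filter fun j => p j = g).card := hM.trans hgM
      have := Bal_cnt hm σ f hf hp hq hqN hlam hX hY g (hpm g) hd1 (hrow g hg)
        (fun h => hgM' ▸ hM2 h)
      omega
    · rw [max_eq_right hle] at hM
      obtain ⟨h, hh, hhM⟩ := Finset.exists_mem_eq_sup (range N) hNpos
        (fun h => (Y.filter fun j => q j = h).card)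
      rw [Finset.mem_range] at hh
      have hhM' : M = (Y.filter fun j => q j = h).card := hM.trans hhM
      have hcol' : ∑ g ∈ range N, √(∑ j ∈ univ.filter (fun j => q j = h ∧ p (σ.symm j) = g),
          f (σ.symm j)) ≤ lam := by
        refine le_trans (le_of_eq ?_) (hcol h hh)
        refine Finset.sum_congr rfl fun g _ => ?_
        rw [Bal_reidx σ f (fun i j => p i = g ∧ q j = h)]
        congr 2
        refine Finset.filter_congr fun j _ => ?_
        exact and_comm
      have := Bal_cnt hm σ.symm (fun j => f (σ.symm j)) (fun j => hf _) hq hp hpN hlam hY hX h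
        (hqm h) hd2 hcol' (fun g => hhM' ▸ hM1 g)
      omega
  refine ⟨Bal_c p X, Bal_c q Y, ?_, ?_, Bal_c_mono p X, Bal_c_mono q Y, Bal_c_card hm hp hX,
    Bal_c_card hm hq hY, ?_, ?_⟩
  · exact fun i => (Bal_c_lt hX i).trans_le (hbound.1 _ (hpN i))
  · exact fun j => (Bal_c_lt hY j).trans_le (hbound.2 _ (hqN j))
  · exact fun g _ x _ => Bal_sum σ f hp hq hlam hX hY hrr1 g x
  · intro h _ y _
    have h1 := Bal_sum (N := N) (b := b) σ.symm (fun j => f (σ.symm j)) hq hp hlam hY hX hrr2 h y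
    refine le_trans (le_of_eq ?_) h1
    refine Finset.sum_congr rfl fun g _ => Finset.sum_congr rfl fun x _ => ?_
    rw [Bal_reidx σ f (fun i j => (p i = g ∧ Bal_c p X i = x) ∧ q j = h ∧ Bal_c q Y j = y)]
    congr 2
    refine Finset.filter_congr fun j _ => ?_
    exact and_comm

end FHA
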