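import Pool.Agent.FHA.Fin
import Pool.Agent.Hhelper47.PermExt.Main

/-!
# FHA.Bridge: from permutations to two-dimensional permutation matrices, bounds for `M 2 k`
-/

namespace FHA

open Finset Pool.Agent.Hhelper47.PermExt

theorem exists_perm {k : ℕ} {P : Finset (Fin 2 → Fin k)} (hP : IsPerm P) :
    ∃ σ : Equiv.Perm (Fin k), ∀ p ∈ P, p 1 = σ (p 0) := by
  choose q hq hq' using fun i => (hP 0 i).exists
  have hu : ∀ i p, p ∈ P → p 0 = i → p = q i := by
    intro i p hp hpi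
    obtain ⟨r, _, hr⟩ := hP 0 i
    rw [hr p ⟨hp, hpi⟩, hr (q i) ⟨hq i, hq' i⟩]
  have hinj : Function.Injective fun i => q i 1 := by
    intro i j hij
    obtain ⟨r, _, hr⟩ := hP 1 (q i 1)
    have h1 := hr (q i) ⟨hq i, rfl⟩
    have h2 := hr (q j) ⟨hq j, hij.symm⟩
    have h3 : q i = q j := by rw [h1, h2]
    rw [← hq' i, h3, hq' j]
  refine ⟨Equiv.ofBijective _ (Finite.injective_iff_bijective.1 hinj), ?_⟩
  intro p hp
  rw [Equiv.ofBijective_apply]
  rw [← hu (p 0) p hp rfl]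

theorem f_le_ex {k : ℕ} {P : Finset (Fin 2 → Fin k)} {σ : Equiv.Perm (Fin k)}
    (hσ : ∀ p ∈ P, p 1 = σ (p 0)) (n : ℕ) : f n P ≤ FHT.ex n σ := by
  classical
  unfold f
  refine Finset.sup_le fun A hA => ?_
  rw [mem_filter] at hA
  obtain ⟨F, hF⟩ : ∃ F : (Fin 2 → Fin n) → ℕ × ℕ, ∀ a, F a = ((a 0 : ℕ), (a 1 : ℕ)) :=
    ⟨_, fun _ => rfl⟩
  have hFi : Function.Injective F := by
    intro a a' h
    rw [hF, hF, Prod.mk.injEq] at h
    funext l
    have h0 : a 0 = a' 0 := Fin.ext h.1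
    have h1 : a 1 = a' 1 := Fin.ext h.2
    fin_cases l
    · exact h0
    · exact h1
  have hsub : A.image F ⊆ range n ×ˢ range n := by
    intro z hz
    obtain ⟨a, _, rfl⟩ := mem_image.1 hz
    rw [hF, mem_product, mem_range, mem_range]
    exact ⟨(a 0).2, (a 1).2⟩
  have hnot : ¬ FHT.Cont (A.image F) σ := by
    rintro ⟨a, b, ha, hb, hab⟩
    apply hA.2
    have han : ∀ i, a i < n := fun i => by
      have := hsub (hab i)
      rw [mem_product, mem_range, mem_range] at this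
      exact this.1
    have hbn : ∀ i, b i < n := fun i => by
      have := hsub (hab (σ.symm i))
      rw [mem_product, mem_range, mem_range] at this
      have h2 := this.2
      rwa [Equiv.apply_symm_apply] at h2
    refine ⟨fun l i => if l = 0 then ⟨a i, han i⟩ else ⟨b i, hbn i⟩, ?_, ?_⟩
    · intro l i j hij
      by_cases hl : l = 0
      · simp only [hl, if_true]
        exact ha hij
      · simp only [hl, if_false]
        exact hb hij
    · intro p hp
      have h1 := hab (p 0)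
      rw [← hσ p hp] at h1
      obtain ⟨c, hc, hcF⟩ := mem_image.1 h1
      rw [hF, Prod.mk.injEq] at hcF
      convert hc using 1
      funext l
      fin_cases l
      · exact Fin.ext hcF.1.symm
      · exact Fin.ext hcF.2.symm
  calc A.card = (A.image F).card := (card_image_of_injective _ hFi).symm
    _ ≤ FHT.ex n σ := by
      unfold FHT.ex
      refine Finset.le_sup (f := Finset.card) ?_
      rw [mem_filter, mem_powerset]
      exact ⟨hsub, hnot⟩

/-- The upper bound for all two-dimensional permutation matrices. -/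
theorem f_le {ε : ℝ} (hε : 0 < ε) : ∃ C : ℝ, 0 < C ∧ ∀ k : ℕ, 1 ≤ k → ∀ P : Finset (Fin 2 → Fin k),
    IsPerm P → ∀ n : ℕ, (f n P : ℝ) ≤ (2 : ℝ) ^ (C * (k : ℝ) ^ (1 / 2 + ε)) * n := by
  obtain ⟨C, hC, h⟩ := upper hε
  refine ⟨C, hC, ?_⟩
  intro k hk P hP n
  obtain ⟨σ, hσ⟩ := exists_perm hP
  refine le_trans ?_ (h k hk σ n)
  exact_mod_cast f_le_ex hσ n

/-- The bound for `M 2 k`. -/
theorem M_le {ε : ℝ} (hε : 0 < ε) : ∃ C : ℝ, 0 < C ∧ ∀ k : ℕ, 1 ≤ k →
    M 2 k ≤ ENNReal.ofReal ((2 : ℝ) ^ (C * (k : ℝ) ^ (1 / 2 + ε))) := by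
  obtain ⟨C, hC, h⟩ := f_le hε
  refine ⟨C, hC, ?_⟩
  intro k hk
  unfold M
  refine iSup₂_le fun n hn => iSup₂_le fun P hP => ?_
  have h1 := h k hk P hP n
  have hn0 : (n : ENNReal) ≠ 0 := by
    exact_mod_cast (by omega : n ≠ 0)
  refine ENNReal.div_le_of_le_mul ?_
  have h2 : ((f n P : ℕ) : ENNReal) = ENNReal.ofReal (f n P : ℝ) := (ENNReal.ofReal_natCast _).symm
  have h3 : (n : ENNReal) ^ (2 - 1) = ENNReal.ofReal (n : ℝ) := by
    rw [ENNReal.ofReal_natCast]
    norm_num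
  rw [h2, h3, ← ENNReal.ofReal_mul (by positivity)]
  exact ENNReal.ofReal_le_ofReal h1

end FHA
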