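import Mathlib

/-!
# FHA.Cut: few additional cuts make all sums of square roots small

`X` is a set of cuts: row `i` is in the part with label `lab X i` = number of the cuts `≤ i`; the parts are intervals.
`rr σ f Y R = ∑_c √(∑_{i ∈ R, lab Y (σ i) = c} f i)` for a set `R` of rows and a set `Y` of cuts of the columns.

PROOF of `cut`.  If `lam < 0` then `k = 0` (`0 ≤ √(f i) ≤ lam`), trivial (`X = X0`, `Y = Y0`); let `lam ≥ 0`.
Facts: (1) `rr` is monotone in `R`; (2) `rr (R ∪ R') ≤ rr R + rr R'`; (3) `rr (insert i R) ≤ rr R + √(f i)`;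
(4) `rr` is monotone in `Y`: `rr Y R ≤ rr (insert j Y) R`; inserting `j ∉ Y` splits the part of `j`: the labels `> lab Y j` and
those of the elements `≥ j` of the part of `j` increase by one, so all terms stay except one, for which
`√(a+b) ≤ √a + √b` (general form: if `lab Y` is a function of `lab Y'` on all columns then `rr Y R ≤ rr Y' R`).
Let `Ok (X,Y)` be: `X0 ⊆ X`, `Y0 ⊆ Y`, and the last two properties of the statement.  `Ok (X0,Y0)`.  Take `(X,Y)` with
`Ok (X,Y)` and `|X| + |Y|` maximal (it is `≤ 2k`).  Suppose `ρ := rr σ f Y (part X i) > 9 lam` for some `i`.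
For `t ≤ k` let `R_t` be the set of the elements `i' < t` of `part X i`.  `rr R_0 = 0`, `rr R_k = ρ`, so there is a least `t`
with `rr R_t > ρ/2`; `t = j + 1`, `j ∈ part X i`, `rr R_j ≤ ρ/2`, `rr R_j ≥ rr R_(j+1) - lam > 9/2 lam - lam = 7/2 lam ≥ 0` by (3),
and `rr (part X i \ R_j) ≥ ρ - rr R_j ≥ ρ/2 > 7/2 lam` by (2).  `R_j` is nonempty, so `j` is not the first element of its
part and `j ∉ X`.  Put `X' = insert j X`.  The parts of `X'` are the parts of `X` except that `part X i` is replaced by
`R_j` and `part X i \ R_j`; for the row parts `rr σ f Y` has not changed, for the column parts `rr _ _ X'` has increased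
by (4).  So `Ok (X',Y)`, which contradicts the maximality.  The column side is the same with `σ.symm`, `f ∘ σ.symm`.
(It is convenient to prove one step as a lemma symmetric in the two sides and to apply it twice.)
-/

namespace FHA

open Finset

variable {k : ℕ}

/-- label of the part of `i` -/
def lab (X : Finset (Fin k)) (i : Fin k) : ℕ := (X.filter fun j => j ≤ i).card

/-- the part of `i` -/
def part (X : Finset (Fin k)) (i : Fin k) : Finset (Fin k) :=
  univ.filter fun i' => lab X i' = lab X i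

noncomputable def rr (σ : Equiv.Perm (Fin k)) (f : Fin k → ℝ) (Y R : Finset (Fin k)) : ℝ :=
  ∑ c ∈ range (k + 1), √(∑ i ∈ R.filter (fun i => lab Y (σ i) = c), f i)

private theorem Cut_sqrt_add {a b : ℝ} (ha : 0 ≤ a) (hb : 0 ≤ b) : √(a + b) ≤ √a + √b := by
  rw [Real.sqrt_le_left (by positivity)]
  have h1 := Real.sq_sqrt ha
  have h2 := Real.sq_sqrt hb
  have h3 : 0 ≤ √a * √b := by positivity
  nlinarith

private theorem Cut_sqrt_sum {ι : Type} [DecidableEq ι] (s : Finset ι) (g : ι → ℝ) (hg : ∀ i, 0 ≤ g i) :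
    √(∑ i ∈ s, g i) ≤ ∑ i ∈ s, √(g i) := by
  induction s using Finset.induction_on with
  | empty => simp
  | insert a s ha ih =>
    rw [Finset.sum_insert ha, Finset.sum_insert ha]
    exact (Cut_sqrt_add (hg a) (Finset.sum_nonneg fun i _ => hg i)).trans (by linarith)

private theorem Cut_mono (σ : Equiv.Perm (Fin k)) (f : Fin k → ℝ) (hf : ∀ i, 0 ≤ f i)
    (Y : Finset (Fin k)) {R R' : Finset (Fin k)} (h : R ⊆ R') : rr σ f Y R ≤ rr σ f Y R' := by
  unfold rr
  refine Finset.sum_le_sum fun c _ => Real.sqrt_le_sqrt ?_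
  exact Finset.sum_le_sum_of_subset_of_nonneg (Finset.filter_subset_filter _ h) fun i _ _ => hf i

private theorem Cut_union (σ : Equiv.Perm (Fin k)) (f : Fin k → ℝ) (hf : ∀ i, 0 ≤ f i)
    (Y R R' : Finset (Fin k)) : rr σ f Y (R ∪ R') ≤ rr σ f Y R + rr σ f Y R' := by
  unfold rr
  rw [← Finset.sum_add_distrib]
  refine Finset.sum_le_sum fun c _ => ?_
  refine le_trans (Real.sqrt_le_sqrt ?_)
    (Cut_sqrt_add (Finset.sum_nonneg fun i _ => hf i) (Finset.sum_nonneg fun i _ => hf i))
  rw [Finset.filter_union]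
  have h1 := Finset.sum_union_inter (s₁ := R.filter fun i => lab Y (σ i) = c)
    (s₂ := R'.filter fun i => lab Y (σ i) = c) (f := f)
  have h2 : 0 ≤ ∑ i ∈ (R.filter fun i => lab Y (σ i) = c) ∩
      (R'.filter fun i => lab Y (σ i) = c), f i := Finset.sum_nonneg fun i _ => hf i
  linarith

private theorem Cut_single (σ : Equiv.Perm (Fin k)) (f : Fin k → ℝ)
    (Y : Finset (Fin k)) (j : Fin k) : rr σ f Y {j} ≤ √(f j) := by
  unfold rr
  have h1 : ∀ c ∈ range (k + 1), √(∑ i ∈ ({j} : Finset (Fin k)).filter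
      (fun i => lab Y (σ i) = c), f i) = if lab Y (σ j) = c then √(f j) else 0 := by
    intro c _
    by_cases h : lab Y (σ j) = c
    · rw [if_pos h, Finset.filter_true_of_mem (by simpa using h), Finset.sum_singleton]
    · rw [if_neg h, Finset.filter_false_of_mem (by simpa using h), Finset.sum_empty,
        Real.sqrt_zero]
  rw [Finset.sum_congr rfl h1, Finset.sum_ite_eq]
  split_ifs
  · exact le_rfl
  · exact Real.sqrt_nonneg _

private theorem Cut_empty (σ : Equiv.Perm (Fin k)) (f : Fin k → ℝ) (Y : Finset (Fin k)) :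
    rr σ f Y ∅ = 0 := by
  unfold rr
  simp

private theorem Cut_lab_le (X : Finset (Fin k)) (i : Fin k) : lab X i ≤ k := by
  unfold lab
  exact (Finset.card_le_univ _).trans (by rw [Fintype.card_fin])

private theorem Cut_lab_mono (X : Finset (Fin k)) {i j : Fin k} (h : i ≤ j) :
    lab X i ≤ lab X j := by
  unfold lab
  exact Finset.card_le_card fun x hx => by
    rw [Finset.mem_filter] at hx ⊢
    exact ⟨hx.1, hx.2.trans h⟩

private theorem Cut_lab_insert (X : Finset (Fin k)) {j : Fin k} (hj : j ∉ X) (x : Fin k) :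
    lab (insert j X) x = lab X x + if j ≤ x then 1 else 0 := by
  unfold lab
  rw [Finset.filter_insert]
  split_ifs with h
  · rw [Finset.card_insert_of_notMem]
    rw [Finset.mem_filter]
    exact fun h' => hj h'.1
  · rfl

/-- refinement of the columns -/
private theorem Cut_ref (σ : Equiv.Perm (Fin k)) (f : Fin k → ℝ) (hf : ∀ i, 0 ≤ f i)
    {Y Y' : Finset (Fin k)} (h : ∀ x y, lab Y' x = lab Y' y → lab Y x = lab Y y)
    (R : Finset (Fin k)) : rr σ f Y R ≤ rr σ f Y' R := by
  unfold rr
  have h1 : ∀ c ∈ range (k + 1), √(∑ i ∈ R.filter (fun i => lab Y (σ i) = c), f i) ≤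
      ∑ c' ∈ range (k + 1), √(∑ i ∈ R.filter
        (fun i => lab Y (σ i) = c ∧ lab Y' (σ i) = c'), f i) := by
    intro c _
    have e1 : ∑ i ∈ R.filter (fun i => lab Y (σ i) = c), f i =
        ∑ c' ∈ range (k + 1), ∑ i ∈ R.filter
          (fun i => lab Y (σ i) = c ∧ lab Y' (σ i) = c'), f i := by
      rw [← Finset.sum_fiberwise_of_maps_to (s := R.filter (fun i => lab Y (σ i) = c))
        (t := range (k + 1)) (g := fun i => lab Y' (σ i))
        (fun i _ => Finset.mem_range.2 (Nat.lt_succ_of_le (Cut_lab_le _ _)))]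
      refine Finset.sum_congr rfl fun c' _ => ?_
      rw [Finset.filter_filter]
    rw [e1]
    exact Cut_sqrt_sum _ _ fun c' => Finset.sum_nonneg fun i _ => hf i
  refine (Finset.sum_le_sum h1).trans ?_
  rw [Finset.sum_comm]
  refine Finset.sum_le_sum fun c' _ => ?_
  rcases (R.filter (fun i => lab Y' (σ i) = c')).eq_empty_or_nonempty with h2 | ⟨i0, hi0⟩
  · rw [Finset.sum_eq_zero]
    · exact Real.sqrt_nonneg _
    · intro c _
      have e2 : R.filter (fun i => lab Y (σ i) = c ∧ lab Y' (σ i) = c') = ∅ := by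
        rw [Finset.eq_empty_iff_forall_notMem] at h2 ⊢
        intro i hi
        rw [Finset.mem_filter] at hi
        exact h2 i (Finset.mem_filter.2 ⟨hi.1, hi.2.2⟩)
      rw [e2, Finset.sum_empty, Real.sqrt_zero]
  · rw [Finset.mem_filter] at hi0
    rw [Finset.sum_eq_single (lab Y (σ i0))]
    · refine Real.sqrt_le_sqrt (Finset.sum_le_sum_of_subset_of_nonneg ?_ fun i _ _ => hf i)
      intro i hi
      rw [Finset.mem_filter] at hi ⊢
      exact ⟨hi.1, hi.2.2⟩
    · intro c _ hc
      have e2 : R.filter (fun i => lab Y (σ i) = c ∧ lab Y' (σ i) = c') = ∅ := by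
        rw [Finset.eq_empty_iff_forall_notMem]
        intro i hi
        rw [Finset.mem_filter] at hi
        apply hc
        rw [← hi.2.1]
        exact h _ _ (hi.2.2.trans hi0.2.symm)
      rw [e2, Finset.sum_empty, Real.sqrt_zero]
    · intro h3
      exact absurd (Finset.mem_range.2 (Nat.lt_succ_of_le (Cut_lab_le _ _))) h3

private theorem Cut_ref_insert {Y : Finset (Fin k)} {j : Fin k} (hj : j ∉ Y) :
    ∀ x y, lab (insert j Y) x = lab (insert j Y) y → lab Y x = lab Y y := by
  have key : ∀ x y, x ≤ y → lab (insert j Y) x = lab (insert j Y) y → lab Y x = lab Y y := by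
    intro x y hxy h
    rw [Cut_lab_insert Y hj, Cut_lab_insert Y hj] at h
    have h1 := Cut_lab_mono Y hxy
    split_ifs at h with h2 h3 h3
    · omega
    · exact absurd (h2.trans hxy) h3
    · omega
    · omega
  intro x y h
  rcases le_total x y with hxy | hxy
  · exact key x y hxy h
  · exact (key y x hxy h.symm).symm

private theorem Cut_mem_part {X : Finset (Fin k)} {i x : Fin k} :
    x ∈ part X i ↔ lab X x = lab X i := by
  unfold part
  simp

/-- the state of the construction -/
private def Cut_ok (σ : Equiv.Perm (Fin k)) (f : Fin k → ℝ) (lam : ℝ)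
    (X0 Y0 X Y : Finset (Fin k)) : Prop :=
  X0 ⊆ X ∧ Y0 ⊆ Y ∧
      (∀ i, part X i = part X0 i ∨ 7 / 2 * lam < rr σ f Y (part X i)) ∧
      (∀ j, part Y j = part Y0 j ∨
        7 / 2 * lam < rr σ.symm (fun j => f (σ.symm j)) X (part Y j))

private theorem Cut_symm {σ : Equiv.Perm (Fin k)} {f : Fin k → ℝ} {lam : ℝ}
    {X0 Y0 X Y : Finset (Fin k)} (h : Cut_ok σ f lam X0 Y0 X Y) :
    Cut_ok σ.symm (fun j => f (σ.symm j)) lam Y0 X0 Y X := by
  obtain ⟨h1, h2, h3, h4⟩ := h
  refine ⟨h2, h1, h4, ?_⟩
  intro i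
  have e : (fun j => f (σ.symm (σ.symm.symm j))) = f := by
    funext j
    simp
  have e2 : (fun j => (fun j => f (σ.symm j)) (σ.symm.symm j)) = f := e
  rw [e2, Equiv.symm_symm]
  exact h3 i

private theorem Cut_step {σ : Equiv.Perm (Fin k)} {f : Fin k → ℝ} (hf : ∀ i, 0 ≤ f i) {lam : ℝ}
    (hlam : ∀ i, √(f i) ≤ lam) {X0 Y0 X Y : Finset (Fin k)} (h : Cut_ok σ f lam X0 Y0 X Y)
    (i : Fin k) (hi : 9 * lam < rr σ f Y (part X i)) :
    ∃ j, j ∉ X ∧ Cut_ok σ f lam X0 Y0 (insert j X) Y := by
  have hlam0 : 0 ≤ lam := (Real.sqrt_nonneg _).trans (hlam i)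
  obtain ⟨P, hP⟩ : ∃ P, P = part X i := ⟨_, rfl⟩
  obtain ⟨ρ, hρ⟩ : ∃ ρ, ρ = rr σ f Y P := ⟨_, rfl⟩
  rw [← hP, ← hρ] at hi
  have hex : ∃ t : ℕ, ρ / 2 < rr σ f Y (P.filter fun x : Fin k => (x : ℕ) < t) := by
    refine ⟨k, ?_⟩
    rw [Finset.filter_true_of_mem fun x _ => x.2, ← hρ]
    linarith
  classical
  obtain ⟨t, ht⟩ : ∃ t, t = Nat.find hex := ⟨_, rfl⟩
  have ht1 : ρ / 2 < rr σ f Y (P.filter fun x : Fin k => (x : ℕ) < t) := ht ▸ Nat.find_spec hex
  have ht2 : ∀ t' < t, rr σ f Y (P.filter fun x : Fin k => (x : ℕ) < t') ≤ ρ / 2 := by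
    intro t' h'
    rw [ht] at h'
    exact not_lt.1 (Nat.find_min hex h')
  have ht0 : t ≠ 0 := by
    intro h0
    rw [h0, Finset.filter_false_of_mem fun x _ => Nat.not_lt_zero _, Cut_empty] at ht1
    linarith
  obtain ⟨j0, rfl⟩ := Nat.exists_eq_succ_of_ne_zero ht0
  have hj1 := ht2 j0 (Nat.lt_succ_self _)
  -- the element `j0` is in `P`
  have hjP : ∃ j : Fin k, (j : ℕ) = j0 ∧ j ∈ P := by
    by_contra hcon
    have e : (P.filter fun x : Fin k => (x : ℕ) < j0.succ) = P.filter fun x : Fin k => (x : ℕ) < j0 := by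
      refine Finset.filter_congr fun x hx => ?_
      have h1 : (x : ℕ) ≠ j0 := fun h' => hcon ⟨x, h', hx⟩
      omega
    rw [e] at ht1
    linarith
  obtain ⟨j, rfl, hjP⟩ := hjP
  have hjl : lab X j = lab X i := by
    rw [hP] at hjP
    exact Cut_mem_part.1 hjP
  obtain ⟨R, hR⟩ : ∃ R, R = P.filter fun x => x < j := ⟨_, rfl⟩
  have hR' : (P.filter fun x : Fin k => (x : ℕ) < (j : ℕ)) = R := by
    rw [hR]
    rfl
  rw [hR'] at hj1
  have hRs : (P.filter fun x : Fin k => (x : ℕ) < (j : ℕ).succ) = R ∪ {j} := by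
    rw [← hR']
    ext x
    simp only [Finset.mem_filter, Finset.mem_union, Finset.mem_singleton]
    constructor
    · rintro ⟨h1, h2⟩
      rcases Nat.lt_succ_iff_lt_or_eq.1 h2 with h3 | h3
      · exact Or.inl ⟨h1, h3⟩
      · exact Or.inr (Fin.ext h3)
    · rintro (⟨h1, h2⟩ | rfl)
      · exact ⟨h1, h2.trans (Nat.lt_succ_self _)⟩
      · exact ⟨hjP, Nat.lt_succ_self _⟩
  rw [hRs] at ht1
  have hR1 : 7 / 2 * lam < rr σ f Y R := by
    have h1 := Cut_union σ f hf Y R {j}
    have h2 := Cut_single σ f Y j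
    have h3 := hlam j
    linarith
  have hR2 : 7 / 2 * lam < rr σ f Y (P.filter fun x => j ≤ x) := by
    have h1 := Cut_union σ f hf Y R (P.filter fun x => j ≤ x)
    have e : R ∪ (P.filter fun x => j ≤ x) = P := by
      rw [hR]
      ext x
      simp only [Finset.mem_union, Finset.mem_filter]
      constructor
      · rintro (h | h) <;> exact h.1
      · intro h
        rcases lt_or_ge x j with h' | h'
        · exact Or.inl ⟨h, h'⟩
        · exact Or.inr ⟨h, h'⟩
    rw [e, ← hρ] at h1
    linarith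
  have hne : R.Nonempty := by
    rw [Finset.nonempty_iff_ne_empty]
    rintro h0
    rw [h0, Cut_empty] at hR1
    linarith
  have hjX : j ∉ X := by
    intro hjX
    obtain ⟨x, hx⟩ := hne
    rw [hR, Finset.mem_filter, hP, Cut_mem_part] at hx
    have h1 : lab X x < lab X j := by
      unfold lab
      refine Finset.card_lt_card ?_
      rw [Finset.ssubset_iff_of_subset]
      · refine ⟨j, Finset.mem_filter.2 ⟨hjX, le_rfl⟩, ?_⟩
        rw [Finset.mem_filter]
        exact fun h' => absurd hx.2 (not_lt.2 h'.2)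
      · intro y hy
        rw [Finset.mem_filter] at hy ⊢
        exact ⟨hy.1, hy.2.trans hx.2.le⟩
    omega
  refine ⟨j, hjX, h.1.trans (Finset.subset_insert _ _), h.2.1, ?_, ?_⟩
  · intro i'
    by_cases hi' : lab X i' = lab X j
    · right
      rcases lt_or_ge i' j with h' | h'
      · have e : part (insert j X) i' = R := by
          ext x
          rw [Cut_mem_part, Cut_lab_insert X hjX, Cut_lab_insert X hjX, if_neg (not_le.2 h'), hR,
            Finset.mem_filter, hP, Cut_mem_part]
          have hm : j ≤ x → lab X j ≤ lab X x := fun h => Cut_lab_mono X h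
          split_ifs with hx
          · have := hm hx
            constructor
            · intro h1
              omega
            · rintro ⟨_, h2⟩
              exact absurd h2 (not_lt.2 hx)
          · rw [not_le] at hx
            constructor
            · intro h1
              exact ⟨by omega, hx⟩
            · rintro ⟨h1, _⟩
              omega
        rw [e]
        exact hR1
      · have e : part (insert j X) i' = P.filter fun x => j ≤ x := by
          ext x
          rw [Cut_mem_part, Cut_lab_insert X hjX, Cut_lab_insert X hjX, if_pos h',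
            Finset.mem_filter, hP, Cut_mem_part]
          have hm : x ≤ j → lab X x ≤ lab X j := fun h => Cut_lab_mono X h
          split_ifs with hx
          · constructor
            · intro h1
              exact ⟨by omega, hx⟩
            · rintro ⟨h1, _⟩
              omega
          · have := hm (not_le.1 hx).le
            constructor
            · intro h1
              omega
            · rintro ⟨_, h2⟩
              exact absurd h2 hx
        rw [e]
        exact hR2
    · have e : part (insert j X) i' = part X i' := by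
        ext x
        rw [Cut_mem_part, Cut_lab_insert X hjX, Cut_lab_insert X hjX, Cut_mem_part]
        have m1 : j ≤ x → lab X j ≤ lab X x := fun h => Cut_lab_mono X h
        have m2 : x ≤ j → lab X x ≤ lab X j := fun h => Cut_lab_mono X h
        have m3 : j ≤ i' → lab X j ≤ lab X i' := fun h => Cut_lab_mono X h
        have m4 : i' ≤ j → lab X i' ≤ lab X j := fun h => Cut_lab_mono X h
        split_ifs with hx hi2 hi2
        · omega
        · have a1 := m1 hx
          have a2 := m4 (not_le.1 hi2).le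
          constructor <;> intro h1 <;> omega
        · have a1 := m2 (not_le.1 hx).le
          have a2 := m3 hi2
          constructor <;> intro h1 <;> omega
        · omega
      rw [e]
      exact h.2.2.1 i'
  · intro j'
    rcases h.2.2.2 j' with h1 | h1
    · exact Or.inl h1
    · exact Or.inr (h1.trans_le (Cut_ref σ.symm _ (fun j => hf _) (Cut_ref_insert hjX) _))

theorem cut (σ : Equiv.Perm (Fin k)) (f : Fin k → ℝ) (hf : ∀ i, 0 ≤ f i) {lam : ℝ}
    (hlam : ∀ i, √(f i) ≤ lam) (X0 Y0 : Finset (Fin k)) :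
    ∃ X Y : Finset (Fin k), X0 ⊆ X ∧ Y0 ⊆ Y ∧
      (∀ i, rr σ f Y (part X i) ≤ 9 * lam) ∧
      (∀ j, rr σ.symm (fun j => f (σ.symm j)) X (part Y j) ≤ 9 * lam) ∧
      (∀ i, part X i = part X0 i ∨ 7 / 2 * lam < rr σ f Y (part X i)) ∧
      (∀ j, part Y j = part Y0 j ∨
        7 / 2 * lam < rr σ.symm (fun j => f (σ.symm j)) X (part Y j)) := by
  classical
  obtain ⟨⟨X, Y⟩, hmem, hmax⟩ := Finset.exists_max_image
    ((univ : Finset (Finset (Fin k) × Finset (Fin k))).filter
      fun p => Cut_ok σ f lam X0 Y0 p.1 p.2) (fun p => p.1.card + p.2.card)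
    ⟨(X0, Y0), Finset.mem_filter.2 ⟨Finset.mem_univ _,
      Finset.Subset.refl _, Finset.Subset.refl _, fun i => Or.inl rfl, fun j => Or.inl rfl⟩⟩
  rw [Finset.mem_filter] at hmem
  have hok : Cut_ok σ f lam X0 Y0 X Y := hmem.2
  refine ⟨X, Y, hok.1, hok.2.1, ?_, ?_, hok.2.2.1, hok.2.2.2⟩
  · intro i
    by_contra hcon
    obtain ⟨j, hj, hj2⟩ := Cut_step hf hlam hok i (not_le.1 hcon)
    have h1 := hmax (insert j X, Y) (Finset.mem_filter.2 ⟨Finset.mem_univ _, hj2⟩)
    rw [Finset.card_insert_of_notMem hj] at h1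
    simp only at h1
    omega
  · intro i
    by_contra hcon
    obtain ⟨j, hj, hj2⟩ := Cut_step (fun j => hf (σ.symm j)) (fun j => hlam (σ.symm j))
      (Cut_symm hok) i (not_le.1 hcon)
    have hj3 := Cut_symm hj2
    have e : (fun j => f (σ.symm (σ.symm.symm j))) = f := by
      funext j
      simp
    have e2 : (fun j => (fun j => f (σ.symm j)) (σ.symm.symm j)) = f := e
    rw [e2, Equiv.symm_symm] at hj3
    have h1 := hmax (X, insert j Y) (Finset.mem_filter.2 ⟨Finset.mem_univ _, hj3⟩)
    rw [Finset.card_insert_of_notMem hj] at h1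
    simp only at h1
    omega

end FHA
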