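import Pool.Agent.FHT.Mg

/-!
# FHA: the Fueredi-Hajnal constant of EVERY k-permutation is at most 2^(k^(1/2+o(1))).  Definitions

`Z` is the set of the positions of the zeros of a 0-1 matrix.  A cell of level `(a,b)` with index `(u,v)` is
the product of the rows `x` with `x / n ^ a = u` and the columns `y` with `y / n ^ b = v`.

OVERVIEW of the proof (helper33, refereed by helper6 and helper15).  Theorem `emb` (module Emb): if
`k ≤ b ^ s`, `n = 2 b`, `J ≥ 12 (2 log K + 1) n ^ 3`, `K ≥ k` and a set `Z` has density `η` in the square of
side `n ^ (s J)`, with `max (η √K) (1/K) (608 (t+1)) ^ s < 1`, `4 n ^ s < 2 ^ t`, then the complement of `Z`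
contains every `k`-permutation.  INVARIANT `St`: groups of rows (intervals of rows of `σ`) and groups of
columns, each with an interval (a block of some level) of the matrix, such that for each group of rows the
sum over the groups of columns of `density of Z in the cell * sqrt (number of ones of σ in the cell)` is at
most `lam`, and the same for each group of columns.  ONE STEP (module Step): (A) for each group choose a
random scale and a random subinterval (module Sel: local lemma and exponential moments; module Reg: for a
random scale the zeros in subcells of density more than twice the density of the cell are rare, because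
the entropy telescopes along the diagonals of pairs of scales); (B) refine the groups in a balanced way
(module Bal); (C) put the parts of a group in order into the `n` children of its interval.
-/

namespace FHA

open Finset

/-- number of the points of `Z` in the cell `(u,v)` of level `(a,b)` -/
def cnt (n : ℕ) (Z : Finset (ℕ × ℕ)) (a b u v : ℕ) : ℕ :=
  (Z.filter fun z => z.1 / n ^ a = u ∧ z.2 / n ^ b = v).card

/-- density of `Z` in the cell `(u,v)` of level `(a,b)` -/
noncomputable def dens (n : ℕ) (Z : Finset (ℕ × ℕ)) (a b u v : ℕ) : ℝ :=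
  (cnt n Z a b u v : ℝ) / ((n : ℝ) ^ a * (n : ℝ) ^ b)

open Classical in
/-- density, in the cell `(u,v)` of level `(a+1,b+1)`, of the points of `Z` which lie in children cells of
level `(a,b)` where the density of `Z` is more than twice its density in the cell -/
noncomputable def irr (n : ℕ) (Z : Finset (ℕ × ℕ)) (a b u v : ℕ) : ℝ :=
  (∑ i ∈ range n, ∑ j ∈ range n,
    if 2 * dens n Z (a + 1) (b + 1) u v < dens n Z a b (u * n + i) (v * n + j) then
      dens n Z a b (u * n + i) (v * n + j) else 0) / (n : ℝ) ^ 2

/-- index, among the subintervals of depth `ξ.1`, of the one that contains the point `ξ.2` -/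
def ix (n J : ℕ) (ξ : Fin J × Fin (n ^ J)) : ℕ := (ξ.2 : ℕ) / n ^ (J - (ξ.1 : ℕ))

/-- number of ones of `σ` in the cell of the row group `g` and the column group `h` -/
def wt {k : ℕ} (σ : Equiv.Perm (Fin k)) (p q : Fin k → ℕ) (g h : ℕ) : ℕ :=
  (univ.filter fun i : Fin k => p i = g ∧ q (σ i) = h).card

/-- The invariant: `N` groups of rows and `N` groups of columns of the pattern (given by the monotone maps
`p`, `q`), of at most `m` elements each; row group `g` has the interval of level `A g ≥ D` with index
`U g`, column group `h` the interval of level `B h ≥ D` with index `V h`; these intervals are in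
increasing order and contained in `[0, X)`. -/
def St (n : ℕ) (Z : Finset (ℕ × ℕ)) {k : ℕ} (σ : Equiv.Perm (Fin k)) (X N : ℕ) (lam : ℝ) (m D : ℕ) :
    Prop :=
  ∃ (p q : Fin k → ℕ) (A U B V : ℕ → ℕ),
    Monotone p ∧ Monotone q ∧ (∀ i, p i < N) ∧ (∀ j, q j < N) ∧
    (∀ g g', g < g' → g' < N → (U g + 1) * n ^ A g ≤ U g' * n ^ A g') ∧
    (∀ h h', h < h' → h' < N → (V h + 1) * n ^ B h ≤ V h' * n ^ B h') ∧
    (∀ g < N, (U g + 1) * n ^ A g ≤ X) ∧ (∀ h < N, (V h + 1) * n ^ B h ≤ X) ∧
    (∀ g < N, D ≤ A g) ∧ (∀ h < N, D ≤ B h) ∧
    (∀ g, (univ.filter fun i => p i = g).card ≤ m) ∧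
    (∀ h, (univ.filter fun j => q j = h).card ≤ m) ∧
    (∀ g < N, ∑ h ∈ range N, dens n Z (A g) (B h) (U g) (V h) * √(wt σ p q g h) ≤ lam) ∧
    (∀ h < N, ∑ g ∈ range N, dens n Z (A g) (B h) (U g) (V h) * √(wt σ p q g h) ≤ lam)

end FHA
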