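import Pool.Agent.FHA.Defs

/-!
# FHA.Dens: densities in cells

PROOF.  Everything follows from counting.  `cnt_split`: a point `z` lies in the cell `(u,v)` of level
`(a+1,b+1)` iff it lies in exactly one of the children `(u n + i, v n + j)`, `i = z.1 / n ^ a % n`,
`j = z.2 / n ^ b % n` (`Nat.div_div_eq_div_mul`, `x / n ^ (a+1) = x / n ^ a / n`); use `Finset.card_eq_sum_card_fiberwise` or
`Finset.sum_boole` / `sum_comm`.  `cnt_le`: the cell has `n ^ a * n ^ b` points (the map
`z ↦ (z.1 % n ^ a, z.2 % n ^ b)` is injective on the cell).  `dens_sum`: induction on `j` and `j'` with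
`dens_row`, `dens_col` and `FHT.sum_digits` (`n ^ (j+1) = n ^ j * n`, `(U n ^ j + u) n + i =
U n ^ (j+1) + (u n + i)`).  `exists_notMem`: if every point of the cell is in `Z` then `cnt = n ^ a n ^ b`.
`dens_child_le`: if the child is irregular its density is one of the terms of `n ^ 2 * irr`.
-/

namespace FHA

open Finset

/-- the indicator of `Z` -/
private def Dens_ind (Z : Finset (ℕ × ℕ)) (x y : ℕ) : ℝ := if (x, y) ∈ Z then 1 else 0

private theorem Dens_ind_nonneg (Z : Finset (ℕ × ℕ)) (x y : ℕ) : 0 ≤ Dens_ind Z x y := by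
  unfold Dens_ind
  split_ifs
  · exact zero_le_one
  · exact le_refl _

private theorem Dens_ind_le (Z : Finset (ℕ × ℕ)) (x y : ℕ) : Dens_ind Z x y ≤ 1 := by
  unfold Dens_ind
  split_ifs
  · exact le_refl _
  · exact zero_le_one

private theorem Dens_div {m u x : ℕ} (hx : x < m) : (u * m + x) / m = u := by
  have hm : 0 < m := lt_of_le_of_lt (Nat.zero_le x) hx
  rw [Nat.add_comm, Nat.add_mul_div_right _ _ hm, Nat.div_eq_of_lt hx, Nat.zero_add]

private theorem Dens_mod {m u x : ℕ} (hx : x < m) : (u * m + x) % m = x := by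
  rw [Nat.add_comm, Nat.add_mul_mod_self_right, Nat.mod_eq_of_lt hx]

private theorem Dens_cnt {n : ℕ} (hn : 1 ≤ n) (Z : Finset (ℕ × ℕ)) (a b u v : ℕ) :
    (cnt n Z a b u v : ℝ) = FHT.mg n (Dens_ind Z) a b u v := by
  have ha : 0 < n ^ a := pow_pos hn a
  have hb : 0 < n ^ b := pow_pos hn b
  have h1 : FHT.mg n (Dens_ind Z) a b u v = (((range (n ^ a) ×ˢ range (n ^ b)).filter
      fun z => (u * n ^ a + z.1, v * n ^ b + z.2) ∈ Z).card : ℝ) := by
    unfold FHT.mg Dens_ind
    rw [← Finset.sum_product', ← Finset.sum_boole]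
  rw [h1]
  unfold cnt
  congr 1
  refine Finset.card_bij (fun z _ => (z.1 % n ^ a, z.2 % n ^ b)) ?_ ?_ ?_
  · rintro ⟨x, y⟩ hz
    simp only [mem_filter, mem_product, mem_range] at hz ⊢
    obtain ⟨hz, rfl, rfl⟩ := hz
    refine ⟨⟨Nat.mod_lt _ ha, Nat.mod_lt _ hb⟩, ?_⟩
    rw [mul_comm (x / n ^ a), mul_comm (y / n ^ b), Nat.div_add_mod, Nat.div_add_mod]
    exact hz
  · rintro ⟨x, y⟩ hz ⟨x', y'⟩ hz' h
    simp only [mem_filter] at hz hz'
    simp only [Prod.mk.injEq] at h
    have e1 : x = x' := by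
      rw [← Nat.div_add_mod x (n ^ a), ← Nat.div_add_mod x' (n ^ a), hz.2.1, hz'.2.1, h.1]
    have e2 : y = y' := by
      rw [← Nat.div_add_mod y (n ^ b), ← Nat.div_add_mod y' (n ^ b), hz.2.2, hz'.2.2, h.2]
    rw [e1, e2]
  · rintro ⟨x, y⟩ hz
    simp only [mem_filter, mem_product, mem_range] at hz
    refine ⟨(u * n ^ a + x, v * n ^ b + y), ?_, ?_⟩
    · simp only [mem_filter]
      exact ⟨hz.2, Dens_div hz.1.1, Dens_div hz.1.2⟩
    · simp only [Prod.mk.injEq]
      exact ⟨Dens_mod hz.1.1, Dens_mod hz.1.2⟩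

private theorem Dens_eq {n : ℕ} (hn : 1 ≤ n) (Z : Finset (ℕ × ℕ)) (a b u v : ℕ) :
    dens n Z a b u v = FHT.mg n (Dens_ind Z) a b u v / ((n : ℝ) ^ a * (n : ℝ) ^ b) := by
  unfold dens
  rw [Dens_cnt hn]

theorem dens_nonneg (n : ℕ) (Z : Finset (ℕ × ℕ)) (a b u v : ℕ) : 0 ≤ dens n Z a b u v := by
  unfold dens
  positivity

theorem dens_le_one {n : ℕ} (hn : 1 ≤ n) (Z : Finset (ℕ × ℕ)) (a b u v : ℕ) :
    dens n Z a b u v ≤ 1 := by
  have hn' : (0 : ℝ) < n := by exact_mod_cast hn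
  rw [Dens_eq hn, div_le_one (by positivity)]
  unfold FHT.mg
  calc ∑ x ∈ range (n ^ a), ∑ y ∈ range (n ^ b), Dens_ind Z (u * n ^ a + x) (v * n ^ b + y)
      ≤ ∑ x ∈ range (n ^ a), ∑ y ∈ range (n ^ b), (1 : ℝ) :=
        Finset.sum_le_sum fun _ _ => Finset.sum_le_sum fun _ _ => Dens_ind_le _ _ _
    _ = (n : ℝ) ^ a * (n : ℝ) ^ b := by
        simp

theorem dens_row {n : ℕ} (hn : 1 ≤ n) (Z : Finset (ℕ × ℕ)) (a b u v : ℕ) :
    ∑ i ∈ range n, dens n Z a b (u * n + i) v = n * dens n Z (a + 1) b u v := by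
  have hn' : (n : ℝ) ≠ 0 := by
    have : (0 : ℝ) < n := by exact_mod_cast hn
    exact this.ne'
  simp only [Dens_eq hn]
  rw [← Finset.sum_div, ← FHT.mg_row, pow_succ]
  field_simp

theorem dens_col {n : ℕ} (hn : 1 ≤ n) (Z : Finset (ℕ × ℕ)) (a b u v : ℕ) :
    ∑ j ∈ range n, dens n Z a b u (v * n + j) = n * dens n Z a (b + 1) u v := by
  have hn' : (n : ℝ) ≠ 0 := by
    have : (0 : ℝ) < n := by exact_mod_cast hn
    exact this.ne'
  simp only [Dens_eq hn]
  rw [← Finset.sum_div, ← FHT.mg_col, pow_succ]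
  field_simp

theorem dens_split {n : ℕ} (hn : 1 ≤ n) (Z : Finset (ℕ × ℕ)) (a b u v : ℕ) :
    ∑ i ∈ range n, ∑ j ∈ range n, dens n Z a b (u * n + i) (v * n + j) =
      (n : ℝ) ^ 2 * dens n Z (a + 1) (b + 1) u v := by
  simp only [dens_col hn]
  rw [← Finset.mul_sum, dens_row hn]
  ring

private theorem Dens_rows {n : ℕ} (hn : 1 ≤ n) (Z : Finset (ℕ × ℕ)) (b v j : ℕ) :
    ∀ a U : ℕ, ∑ u ∈ range (n ^ j), dens n Z a b (U * n ^ j + u) v =
      (n : ℝ) ^ j * dens n Z (a + j) b U v := by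
  induction j with
  | zero => intro a U; simp
  | succ j ih =>
    intro a U
    rw [pow_succ n j, FHT.sum_digits]
    have h1 : ∀ u ∈ range (n ^ j), ∑ i ∈ range n, dens n Z a b (U * (n ^ j * n) + (u * n + i)) v =
        n * dens n Z (a + 1) b (U * n ^ j + u) v := by
      intro u _
      rw [← dens_row hn]
      refine Finset.sum_congr rfl fun i _ => ?_
      congr 1
      ring
    rw [Finset.sum_congr rfl h1, ← Finset.mul_sum, ih (a + 1) U, pow_succ,
      show a + 1 + j = a + (j + 1) by ring]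
    ring

private theorem Dens_cols {n : ℕ} (hn : 1 ≤ n) (Z : Finset (ℕ × ℕ)) (a u j : ℕ) :
    ∀ b V : ℕ, ∑ v ∈ range (n ^ j), dens n Z a b u (V * n ^ j + v) =
      (n : ℝ) ^ j * dens n Z a (b + j) u V := by
  induction j with
  | zero => intro b V; simp
  | succ j ih =>
    intro b V
    rw [pow_succ n j, FHT.sum_digits]
    have h1 : ∀ v ∈ range (n ^ j), ∑ i ∈ range n, dens n Z a b u (V * (n ^ j * n) + (v * n + i)) =
        n * dens n Z a (b + 1) u (V * n ^ j + v) := by
      intro v _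
      rw [← dens_col hn]
      refine Finset.sum_congr rfl fun i _ => ?_
      congr 1
      ring
    rw [Finset.sum_congr rfl h1, ← Finset.mul_sum, ih (b + 1) V, pow_succ,
      show b + 1 + j = b + (j + 1) by ring]
    ring

theorem dens_sum {n : ℕ} (hn : 1 ≤ n) (Z : Finset (ℕ × ℕ)) (a b j j' U V : ℕ) :
    ∑ u ∈ range (n ^ j), ∑ v ∈ range (n ^ j'), dens n Z a b (U * n ^ j + u) (V * n ^ j' + v) =
      (n : ℝ) ^ j * (n : ℝ) ^ j' * dens n Z (a + j) (b + j') U V := by
  simp only [Dens_cols hn]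
  rw [← Finset.mul_sum, Dens_rows hn]
  ring

theorem irr_nonneg (n : ℕ) (Z : Finset (ℕ × ℕ)) (a b u v : ℕ) : 0 ≤ irr n Z a b u v := by
  unfold irr
  refine div_nonneg (Finset.sum_nonneg fun i _ => Finset.sum_nonneg fun j _ => ?_) (by positivity)
  split_ifs
  · exact dens_nonneg _ _ _ _ _ _
  · exact le_refl _

theorem dens_child_le {n : ℕ} (hn : 1 ≤ n) (Z : Finset (ℕ × ℕ)) (a b u v : ℕ) {i j : ℕ}
    (hi : i < n) (hj : j < n) :
    dens n Z a b (u * n + i) (v * n + j) ≤
      2 * dens n Z (a + 1) (b + 1) u v + (n : ℝ) ^ 2 * irr n Z a b u v := by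
  have hn' : (0 : ℝ) < n := by exact_mod_cast hn
  by_cases h : 2 * dens n Z (a + 1) (b + 1) u v < dens n Z a b (u * n + i) (v * n + j)
  · have h0 : 0 ≤ dens n Z (a + 1) (b + 1) u v := dens_nonneg _ _ _ _ _ _
    have h1 : (n : ℝ) ^ 2 * irr n Z a b u v = ∑ i ∈ range n, ∑ j ∈ range n,
        if 2 * dens n Z (a + 1) (b + 1) u v < dens n Z a b (u * n + i) (v * n + j) then
          dens n Z a b (u * n + i) (v * n + j) else 0 := by
      unfold irr
      rw [mul_div_cancel₀]
      positivity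
    have hnn : ∀ i' j' : ℕ, 0 ≤ (if 2 * dens n Z (a + 1) (b + 1) u v <
        dens n Z a b (u * n + i') (v * n + j') then
          dens n Z a b (u * n + i') (v * n + j') else 0) := by
      intro i' j'
      split_ifs
      · exact dens_nonneg _ _ _ _ _ _
      · exact le_refl _
    have h2 : dens n Z a b (u * n + i) (v * n + j) ≤ (n : ℝ) ^ 2 * irr n Z a b u v := by
      rw [h1]
      calc dens n Z a b (u * n + i) (v * n + j)
          = (if 2 * dens n Z (a + 1) (b + 1) u v < dens n Z a b (u * n + i) (v * n + j) then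
              dens n Z a b (u * n + i) (v * n + j) else 0) := by rw [if_pos h]
        _ ≤ ∑ j' ∈ range n, (if 2 * dens n Z (a + 1) (b + 1) u v <
              dens n Z a b (u * n + i) (v * n + j') then
              dens n Z a b (u * n + i) (v * n + j') else 0) :=
            Finset.single_le_sum (f := fun j' => (if 2 * dens n Z (a + 1) (b + 1) u v <
              dens n Z a b (u * n + i) (v * n + j') then
              dens n Z a b (u * n + i) (v * n + j') else 0)) (fun j' _ => hnn i j')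
              (Finset.mem_range.2 hj)
        _ ≤ _ :=
            Finset.single_le_sum (f := fun i' => ∑ j' ∈ range n,
              (if 2 * dens n Z (a + 1) (b + 1) u v <
              dens n Z a b (u * n + i') (v * n + j') then
              dens n Z a b (u * n + i') (v * n + j') else 0))
              (fun i' _ => Finset.sum_nonneg fun j' _ => hnn i' j')
              (Finset.mem_range.2 hi)
    linarith
  · have h1 := irr_nonneg n Z a b u v
    have h2 : 0 ≤ (n : ℝ) ^ 2 * irr n Z a b u v := by positivity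
    linarith [not_lt.1 h]

theorem exists_notMem {n : ℕ} (hn : 1 ≤ n) (Z : Finset (ℕ × ℕ)) (a b u v : ℕ)
    (h : dens n Z a b u v < 1) : ∃ x y, x / n ^ a = u ∧ y / n ^ b = v ∧ (x, y) ∉ Z := by
  have hn' : (0 : ℝ) < n := by exact_mod_cast hn
  by_contra hcon
  push Not at hcon
  have h1 : dens n Z a b u v = 1 := by
    rw [Dens_eq hn, div_eq_one_iff_eq (by positivity)]
    unfold FHT.mg
    have h2 : ∀ x ∈ range (n ^ a), ∀ y ∈ range (n ^ b),
        Dens_ind Z (u * n ^ a + x) (v * n ^ b + y) = 1 := by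
      intro x hx y hy
      unfold Dens_ind
      rw [if_pos]
      exact hcon _ _ (Dens_div (Finset.mem_range.1 hx)) (Dens_div (Finset.mem_range.1 hy))
    rw [Finset.sum_congr rfl fun x hx => Finset.sum_congr rfl fun y hy => h2 x hx y hy]
    simp
  linarith

theorem dens_start {n : ℕ} (hn : 1 ≤ n) (Z : Finset (ℕ × ℕ)) (a b : ℕ)
    (hZ : Z ⊆ range (n ^ a) ×ˢ range (n ^ b)) :
    dens n Z a b 0 0 = (Z.card : ℝ) / ((n : ℝ) ^ a * (n : ℝ) ^ b) := by
  have _ := hn
  unfold dens cnt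
  have h1 : (Z.filter fun z => z.1 / n ^ a = 0 ∧ z.2 / n ^ b = 0) = Z := by
    refine Finset.filter_true_of_mem fun z hz => ?_
    have := Finset.mem_product.1 (hZ hz)
    exact ⟨Nat.div_eq_of_lt (Finset.mem_range.1 this.1),
      Nat.div_eq_of_lt (Finset.mem_range.1 this.2)⟩
  rw [h1]

end FHA
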