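import Pool.Agent.FHA.Meas2
import Pool.Agent.FHT.Win
import Pool.Agent.FHT.MT

/-!
# FHA.Det2: from embeddings in the complement of a sparse set to the bound for the number of ones

PROOF.  Adapt `Pool/Agent/FHT/Row.lean` and `Pool/Agent/FHT/Det.lean` (copy the private lemmas with new names; do not import
`FHT.Row`).  In `row2` apply `window` with `τ = 1/(32 N0)` (`16 (1 + log (1/τ)) ≤ log D = L log 2` by `hL`; `L ≥ 1`, `n ≥ 1` follow from
`hL`, `hn`).  Let `P`, `S1`, `S2`, `ρ₁`, `ρ₂`, `bad` be as in `FHT.Row`: `ρ ≤ 8 τ = 1/(4 N0)`, so `4 N0 ρ ≤ 1`, and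
`∑_bad ρ₁ ρ₂ ≤ (log D/(2n)) P^2/(S1 S2) ≤ 64 log D/(2n) ≤ 32 L/n`, so `8 ∑_bad ≤ 256 L/n ≤ η`.  Use `meas2` instead of `meas`.
`det2`: as `FHT.det` with `row2` for `σ` and for `σ.symm` (the recursion `mt`).
-/

namespace FHA

open Finset FHT

open Classical in
private theorem Det2_sum {W V : ℕ} (B : Finset (ℕ × ℕ)) (hB : B ⊆ range W ×ˢ range V) (x : ℕ) (c : ℝ) :
    ∑ y ∈ range V, (if (x, y) ∈ B then c else 0) = ((B.filter fun z => z.1 = x).card : ℝ) * c := by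
  rw [← sum_filter, sum_const, nsmul_eq_mul]
  congr 2
  refine card_bij (fun y _ => (x, y)) ?_ ?_ ?_
  · intro y hy
    rw [mem_filter] at hy ⊢
    exact ⟨hy.2, rfl⟩
  · intro y _ y' _ h
    exact (Prod.mk.inj h).2
  · rintro ⟨x', y⟩ hz
    rw [mem_filter] at hz
    obtain ⟨h1, h2⟩ := hz
    simp only at h2
    subst h2
    have h3 := hB h1
    rw [mem_product] at h3
    exact ⟨y, mem_filter.2 ⟨h3.2, h1⟩, rfl⟩

private theorem Det2_mono {M u x x' y y' : ℕ} (hx : x < x') (hy : y < M) :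
    (u + x) * M + y < (u + x') * M + y' := by
  have h1 : (u + x + 1) * M ≤ (u + x') * M := Nat.mul_le_mul_right M (by omega)
  have h2 : (u + x + 1) * M = (u + x) * M + M := by ring
  omega

/-- normalised restriction to small atoms -/
private theorem Det2_rho {D : ℕ} (r : ℕ → ℝ) (hr : ∀ i, 0 ≤ r i) {P τ : ℝ} (hP : 0 < P) (hτ : 0 < τ)
    (hS : P / 8 ≤ ∑ i ∈ (range D).filter (fun i => r i ≤ τ * P), r i) :
    ∃ ρ : ℕ → ℝ, (∀ i, 0 ≤ ρ i) ∧ ∑ i ∈ range D, ρ i = 1 ∧ (∀ i, ρ i ≤ 8 * τ) ∧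
      ∀ i, ρ i ≤ 8 / P * r i := by
  obtain ⟨S, hSdef⟩ : ∃ S, S = ∑ i ∈ (range D).filter (fun i => r i ≤ τ * P), r i := ⟨_, rfl⟩
  rw [← hSdef] at hS
  have hS0 : 0 < S := by linarith
  have hinv : 1 / S ≤ 8 / P := by
    rw [div_le_div_iff₀ hS0 hP]
    linarith
  refine ⟨fun i => if i < D ∧ r i ≤ τ * P then r i / S else 0, ?_, ?_, ?_, ?_⟩
  · intro i
    simp only
    split_ifs
    · exact div_nonneg (hr i) hS0.le
    · exact le_rfl
  · have e1 : ∑ i ∈ range D, (if i < D ∧ r i ≤ τ * P then r i / S else 0) =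
        ∑ i ∈ (range D).filter (fun i => r i ≤ τ * P), r i / S := by
      rw [sum_filter]
      refine sum_congr rfl fun i hi => ?_
      have hi' := mem_range.1 hi
      by_cases h : r i ≤ τ * P
      · rw [if_pos ⟨hi', h⟩, if_pos h]
      · rw [if_neg (fun h' => h h'.2), if_neg h]
    simp only
    rw [e1, ← sum_div, ← hSdef, div_self hS0.ne']
  · intro i
    simp only
    split_ifs with h
    · rw [div_le_iff₀ hS0]
      calc r i ≤ τ * P := h.2
        _ = 8 * τ * (P / 8) := by ring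
        _ ≤ 8 * τ * S := mul_le_mul_of_nonneg_left hS (by positivity)
    · positivity
  · intro i
    simp only
    split_ifs with h
    · calc r i / S = 1 / S * r i := by ring
        _ ≤ 8 / P * r i := mul_le_mul_of_nonneg_right hinv (hr i)
    · exact mul_nonneg (by positivity) (hr i)

theorem row2 {k N0 L n ℓ : ℕ} (σ : Equiv.Perm (Fin k)) {η : ℝ} (hη : 0 < η) (hη1 : η ≤ 1)
    (hN0 : 1 ≤ N0) (hpl : Pl σ N0 η) (hL : 16 * (1 + Real.log (32 * N0)) ≤ L * Real.log 2)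
    (hn : 256 * (L : ℝ) ≤ η * n) (hℓ : 7 / 16 * (n : ℝ) * (L * Real.log 2) ≤ Real.log ℓ)
    (B : Finset (ℕ × ℕ)) (hB : B ⊆ range ((2 ^ L) ^ (16 * n)) ×ˢ range ((2 ^ L) ^ n))
    (hrow : ∀ x < (2 ^ L) ^ (16 * n), ℓ ≤ (B.filter fun z => z.1 = x).card) : Cont B σ := by
  classical
  have hN0R : (1 : ℝ) ≤ N0 := by exact_mod_cast hN0
  have hlog0 : 0 ≤ Real.log (32 * N0) := Real.log_nonneg (by linarith)
  have hl2 : 0 < Real.log 2 := Real.log_pos (by norm_num)
  have hl21 : Real.log 2 ≤ 1 := by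
    have := Real.log_le_sub_one_of_pos (show (0 : ℝ) < 2 by norm_num)
    linarith
  have hL1 : 1 ≤ L := by
    rcases Nat.eq_zero_or_pos L with h0 | h0
    · subst h0
      simp at hL
      linarith
    · exact h0
  have hLR : (1 : ℝ) ≤ L := by exact_mod_cast hL1
  have hn1 : 1 ≤ n := by
    rcases Nat.eq_zero_or_pos n with h0 | h0
    · subst h0
      simp at hn
      linarith
    · exact h0
  have hnR : (1 : ℝ) ≤ n := by exact_mod_cast hn1
  obtain ⟨D, hD⟩ : ∃ D, D = 2 ^ L := ⟨_, rfl⟩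
  rw [← hD] at hB hrow
  have hD2 : 2 ≤ D := by
    rw [hD]
    calc 2 = 2 ^ 1 := rfl
      _ ≤ 2 ^ L := Nat.pow_le_pow_right (by norm_num) hL1
  have hlogD : Real.log D = L * Real.log 2 := by
    rw [hD]
    push_cast
    rw [Real.log_pow]
  have hD0 : 0 < D := by omega
  have hℓ1 : 1 ≤ ℓ := by
    rcases Nat.eq_zero_or_pos ℓ with h0 | h0
    · subst h0
      have : 0 < 7 / 16 * (n : ℝ) * (L * Real.log 2) := by positivity
      simp at hℓ
      nlinarith
    · exact h0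
  have hℓR : (1 : ℝ) ≤ ℓ := by exact_mod_cast hℓ1
  obtain ⟨W, hW⟩ : ∃ W, W = D ^ (16 * n) := ⟨_, rfl⟩
  have hW0 : 0 < W := by rw [hW]; positivity
  have hWR : (0 : ℝ) < W := by exact_mod_cast hW0
  have hlogW : Real.log W = 16 * n * Real.log D := by
    rw [hW]
    push_cast
    rw [Real.log_pow]
    push_cast
    ring
  rw [← hW] at hB hrow
  obtain ⟨d, hd⟩ : ∃ d : ℕ → ℕ, d = fun x => (B.filter fun z => z.1 = x).card := ⟨_, rfl⟩
  have hdℓ : ∀ x < W, ℓ ≤ d x := by rw [hd]; exact hrow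
  obtain ⟨p, hp⟩ : ∃ p : ℕ → ℕ → ℝ, p = fun x y =>
      if (x, y) ∈ B then 1 / ((W : ℝ) * d x) else 0 := ⟨_, rfl⟩
  have hp0 : ∀ x y, 0 ≤ p x y := by
    intro x y
    rw [hp]
    simp only
    split_ifs
    · positivity
    · exact le_rfl
  have hpB : ∀ x y, p x y ≠ 0 → (x, y) ∈ B := by
    intro x y h
    rw [hp] at h
    simp only at h
    by_contra h'
    exact h (if_neg h')
  have hsum : ∑ x ∈ range W, ∑ y ∈ range (D ^ n), p x y = 1 := by
    have h1 : ∀ x ∈ range W, ∑ y ∈ range (D ^ n), p x y = 1 / W := by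
      intro x hx
      rw [hp]
      simp only
      rw [Det2_sum B hB x]
      have h2 : (0 : ℝ) < d x := by
        have := hdℓ x (mem_range.1 hx)
        have h3 : 0 < d x := by omega
        exact_mod_cast h3
      have h4 : ((B.filter fun z => z.1 = x).card : ℝ) = d x := by rw [hd]
      rw [h4]
      field_simp
    rw [sum_congr rfl h1, sum_const, card_range, nsmul_eq_mul]
    field_simp
  have hent : (16 * (n : ℝ) + 7 / 16 * n) * Real.log D ≤
      ∑ x ∈ range W, ∑ y ∈ range (D ^ n), Real.negMulLog (p x y) := by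
    have h1 : ∀ x ∈ range W, (Real.log W + Real.log ℓ) / W ≤
        ∑ y ∈ range (D ^ n), Real.negMulLog (p x y) := by
      intro x hx
      have h2 : (0 : ℝ) < d x := by
        have := hdℓ x (mem_range.1 hx)
        have h3 : 0 < d x := by omega
        exact_mod_cast h3
      have h4 : ((B.filter fun z => z.1 = x).card : ℝ) = d x := by rw [hd]
      have h5 : ∀ y ∈ range (D ^ n), Real.negMulLog (p x y) =
          if (x, y) ∈ B then Real.negMulLog (1 / ((W : ℝ) * d x)) else 0 := by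
        intro y _
        rw [hp]
        simp only
        split_ifs
        · rfl
        · exact Real.negMulLog_zero
      rw [sum_congr rfl h5, Det2_sum B hB x, h4]
      have h6 : Real.negMulLog (1 / ((W : ℝ) * d x)) =
          (1 / ((W : ℝ) * d x)) * (Real.log W + Real.log (d x)) := by
        unfold Real.negMulLog
        rw [one_div, Real.log_inv, Real.log_mul hWR.ne' h2.ne']
        ring
      rw [h6]
      have h7 : (d x : ℝ) * (1 / ((W : ℝ) * d x) * (Real.log W + Real.log (d x))) =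
          (Real.log W + Real.log (d x)) / W := by
        field_simp
      rw [h7]
      have h8 : Real.log ℓ ≤ Real.log (d x) := by
        apply Real.log_le_log (by linarith)
        exact_mod_cast hdℓ x (mem_range.1 hx)
      exact div_le_div_of_nonneg_right (by linarith) hWR.le
    have h9 := sum_le_sum h1
    rw [sum_const, card_range, nsmul_eq_mul] at h9
    have h10 : (W : ℝ) * ((Real.log W + Real.log ℓ) / W) = Real.log W + Real.log ℓ := by
      field_simp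
    rw [h10, hlogW] at h9
    rw [← hlogD] at hℓ
    linarith
  rw [hW] at hsum hent
  obtain ⟨τ, hτ⟩ : ∃ τ : ℝ, τ = 1 / (32 * N0) := ⟨_, rfl⟩
  have h64 : (0 : ℝ) < 32 * N0 := by linarith
  have hτ0 : 0 < τ := by rw [hτ]; positivity
  have hτ1 : τ ≤ 1 := by
    rw [hτ, div_le_one h64]
    linarith
  have hτ2 : 16 * (1 + Real.log (1 / τ)) ≤ Real.log D := by
    rw [hτ, one_div_one_div, hlogD]
    exact hL
  obtain ⟨a, b, u, v, ha, hb, hu, hv, hP, hS1, hS2, hmiss⟩ :=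
    window hD2 hn1 p hp0 hsum hent hτ0 hτ1 hτ2
  obtain ⟨P, hPdef⟩ : ∃ P, P = mg D p (a + 1) (b + 1) u v := ⟨_, rfl⟩
  rw [← hPdef] at hP hS1 hS2 hmiss
  obtain ⟨ρ₁, h11, h12, h13, h14⟩ := Det2_rho (fun i => mg D p a (b + 1) (u * D + i) v)
    (fun i => mg_nonneg hp0 _ _ _ _) hP hτ0 hS1
  obtain ⟨ρ₂, h21, h22, h23, h24⟩ := Det2_rho (fun j => mg D p (a + 1) b u (v * D + j))
    (fun i => mg_nonneg hp0 _ _ _ _) hP hτ0 hS2
  obtain ⟨bad, hbad⟩ : ∃ bad, bad = (range D ×ˢ range D).filter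
      (fun z => mg D p a b (u * D + z.1) (v * D + z.2) = 0) := ⟨_, rfl⟩
  rw [← hbad] at hmiss
  have hsumbad : ∑ z ∈ bad, ρ₁ z.1 * ρ₂ z.2 ≤ 32 * Real.log D / n := by
    have h1 : ∑ z ∈ bad, ρ₁ z.1 * ρ₂ z.2 ≤ ∑ z ∈ bad, 64 / P ^ 2 *
        (mg D p a (b + 1) (u * D + z.1) v * mg D p (a + 1) b u (v * D + z.2)) := by
      refine sum_le_sum fun z _ => ?_
      have h2 := mul_le_mul (h14 z.1) (h24 z.2) (h21 z.2) ((h11 z.1).trans (h14 z.1))
      refine h2.trans (le_of_eq ?_)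
      field_simp
      ring
    rw [← mul_sum] at h1
    have h3 := mul_le_mul_of_nonneg_left hmiss (show (0 : ℝ) ≤ 64 / P ^ 2 by positivity)
    refine h1.trans (h3.trans (le_of_eq ?_))
    field_simp
    ring
  have hb' : 8 * ∑ z ∈ bad, ρ₁ z.1 * ρ₂ z.2 ≤ η := by
    refine (mul_le_mul_of_nonneg_left hsumbad (by norm_num)).trans ?_
    have h2 : Real.log D ≤ L := by
      rw [hlogD]
      nlinarith
    have h4 : 8 * (32 * Real.log D / n) = 256 * Real.log D / n := by ring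
    rw [h4, div_le_iff₀ (by linarith)]
    linarith
  have hatom : ∀ ρ : ℕ → ℝ, (∀ i, ρ i ≤ 8 * τ) → ∀ i, 4 * (N0 : ℝ) * ρ i ≤ 1 := by
    intro ρ h i
    have h1 := mul_le_mul_of_nonneg_left (h i) (show (0 : ℝ) ≤ 4 * (N0 : ℝ) by positivity)
    refine h1.trans (le_of_eq ?_)
    rw [hτ]
    field_simp
    ring
  obtain ⟨a', b', ham, hbm, haD, hbD, hab⟩ := meas2 σ hη hN0 hpl ρ₁ ρ₂ h11 h21 h12 h22
    (hatom ρ₁ h13) (hatom ρ₂ h23) bad (by rw [hbad]; exact filter_subset _ _) hb'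
  have hex : ∀ i : Fin k, ∃ x y : ℕ, x < D ^ a ∧ y < D ^ b ∧
      ((u * D + a' i) * D ^ a + x, (v * D + b' (σ i)) * D ^ b + y) ∈ B := by
    intro i
    have h1 : mg D p a b (u * D + a' i) (v * D + b' (σ i)) ≠ 0 := by
      intro h0
      apply hab i
      rw [hbad, mem_filter, mem_product, mem_range, mem_range]
      exact ⟨⟨haD i, hbD (σ i)⟩, h0⟩
    obtain ⟨x, hx, y, hy, h2⟩ := exists_of_mg_ne h1
    exact ⟨x, y, hx, hy, hpB _ _ h2⟩
  choose X Y hX hY hXY using hex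
  refine ⟨fun i => (u * D + a' i) * D ^ a + X i,
    fun j => (v * D + b' j) * D ^ b + Y (σ.symm j), ?_, ?_, ?_⟩
  · intro i j hij
    exact Det2_mono (ham hij) (hX i)
  · intro i j hij
    exact Det2_mono (hbm hij) (hY _)
  · intro i
    have := hXY i
    simp only [Equiv.symm_apply_apply]
    exact this


theorem det2 {k N0 L n : ℕ} (σ : Equiv.Perm (Fin k)) {η : ℝ} (hη : 0 < η) (hη1 : η ≤ 1)
    (hN0 : 1 ≤ N0) (hpl : Pl σ N0 η) (hpl' : Pl σ.symm N0 η)
    (hL : 16 * (1 + Real.log (32 * N0)) ≤ L * Real.log 2) (hn : 256 * (L : ℝ) ≤ η * n)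
    (hn1 : 24 ≤ n) (hL1 : 1 ≤ L) (N : ℕ) (A : Finset (ℕ × ℕ)) (hA : A ⊆ range N ×ˢ range N)
    (hA' : ¬ Cont A σ) : A.card ≤ 2 ^ (17 * L * n + 3) * N := by
  obtain ⟨r, hr⟩ : ∃ r, r = L * n := ⟨_, rfl⟩
  have hrn : n ≤ r := by
    rw [hr]
    nlinarith
  obtain ⟨ℓ, hℓ⟩ : ∃ ℓ, ℓ = 2 ^ (r / 2 - 1) := ⟨_, rfl⟩
  have h2 : (2 ^ L) ^ n = 2 ^ r := by rw [hr, pow_mul]
  have hlog : 7 / 16 * (n : ℝ) * (L * Real.log 2) ≤ Real.log ℓ := by
    rw [hℓ]
    push_cast
    rw [Real.log_pow]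
    have h3 : (7 : ℝ) / 16 * n * L ≤ ((r / 2 - 1 : ℕ) : ℝ) := by
      have h4 : 7 * r ≤ 16 * (r / 2 - 1) := by omega
      have h5 : ((7 * r : ℕ) : ℝ) ≤ ((16 * (r / 2 - 1) : ℕ) : ℝ) := by exact_mod_cast h4
      have h6 : (r : ℝ) = L * n := by
        rw [hr]
        push_cast
        ring
      rw [Nat.cast_mul, Nat.cast_mul, h6] at h5
      push_cast at h5 ⊢
      linarith
    have h7 : 0 ≤ Real.log 2 := Real.log_nonneg (by norm_num)
    calc 7 / 16 * (n : ℝ) * (L * Real.log 2) = (7 / 16 * n * L) * Real.log 2 := by ring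
      _ ≤ _ := mul_le_mul_of_nonneg_right h3 h7
  have hs : 4 * ℓ ^ 2 ≤ (2 ^ L) ^ n := by
    rw [h2, hℓ, ← pow_mul, show 4 = 2 ^ 2 from rfl, ← pow_add]
    exact Nat.pow_le_pow_right (by norm_num) (by omega)
  have h := mt (s := (2 ^ L) ^ n) (ℓ := ℓ) (W := (2 ^ L) ^ (16 * n)) σ (by
      rw [h2]
      calc 2 = 2 ^ 1 := rfl
        _ ≤ 2 ^ r := Nat.pow_le_pow_right (by norm_num) (by omega)) hs
    (Nat.one_le_iff_ne_zero.2 (by positivity))
    (fun B hB hrow => row2 σ hη hη1 hN0 hpl hL hn hlog B hB hrow)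
    (fun B hB hrow => row2 σ.symm hη hη1 hN0 hpl' hL hn hlog B hB hrow) N A hA hA'
  refine le_trans h (le_of_eq ?_)
  rw [← pow_mul, ← pow_mul, show 8 = 2 ^ 3 from rfl, ← pow_add, ← pow_add]
  congr 2
  ring

end FHA
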