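import Pool.Agent.FHA.Step

/-!
# FHA.Emb: the complement of a sparse set contains every permutation

PROOF.  `St_start`: `p = q = 0`, `A = B = D`, `U = V = 0`; `wt ≤ k` and `dens_start`.
`St_iter`: induction on `s` (`step` with `m * b ^ s`: `b ^ (s+1) m = b (b ^ s m)`, `(s+1) J + D = (s J + D) + J`; `1/K ≤ lam ≤ 608 (t+1) lam`;
`4 N ≤ 4 N n ^ i < 2 ^ t`).
`St_end`: every group has at most one element.  For each `i` let `g = p i`, `h = q (σ i)`; `wt σ p q g h ≥ 1`, so `dens ≤ dens * √wt ≤ lam < 1`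
(all terms are `≥ 0`), and `exists_notMem` gives `(x i, y i) ∉ Z` with `x i / n ^ A g = U g`, `y i / n ^ B h = V h`.  If `i < j` then
`p i ≤ p j`, and `p i ≠ p j` (otherwise the group would have two elements), so
`x i < (U g + 1) n ^ A g ≤ U g' n ^ A g' ≤ x j`.  Put `a i = x i`, `b' j = y (σ.symm j)`.
`emb`: `lam0 = max (η √k) (1/K) ≤ max (η √K) (1/K)`; `St_start` (with `X = n ^ (s J)`, `D = s J`), `St_iter` (`N = 1`, `m = 1`), `St_end`.
-/

namespace FHA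

open Finset

private theorem emb_eta_nonneg {n D : ℕ} (hn : 1 ≤ n) {Z : Finset (ℕ × ℕ)} {η : ℝ}
    (hη : (Z.card : ℝ) ≤ η * ((n : ℝ) ^ D) ^ 2) : 0 ≤ η := by
  have h1 : (0 : ℝ) < n := by exact_mod_cast hn
  have h2 : (0 : ℝ) < ((n : ℝ) ^ D) ^ 2 := by positivity
  have h3 : (0 : ℝ) ≤ η * ((n : ℝ) ^ D) ^ 2 := le_trans (Nat.cast_nonneg _) hη
  by_contra h
  push Not at h
  have := mul_neg_of_neg_of_pos h h2
  linarith

private theorem emb_card_le {k : ℕ} (P : Fin k → Prop) [DecidablePred P] :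
    (univ.filter P).card ≤ k := by
  refine le_trans (Finset.card_filter_le _ _) ?_
  rw [Finset.card_univ, Fintype.card_fin]

theorem St_start {n k D : ℕ} (hn : 1 ≤ n) (Z : Finset (ℕ × ℕ)) (σ : Equiv.Perm (Fin k)) {lam η : ℝ}
    (hZ : Z ⊆ range (n ^ D) ×ˢ range (n ^ D)) (hη : (Z.card : ℝ) ≤ η * ((n : ℝ) ^ D) ^ 2)
    (hlam : η * √k ≤ lam) {m : ℕ} (hk : k ≤ m) : St n Z σ (n ^ D) 1 lam m D := by
  have hn0 : (0 : ℝ) < n := by exact_mod_cast hn
  have hη0 : 0 ≤ η := emb_eta_nonneg hn hη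
  have hd : dens n Z D D 0 0 ≤ η := by
    rw [dens_start hn Z D D hZ, div_le_iff₀ (by positivity)]
    refine hη.trans (le_of_eq ?_)
    ring
  have key : ∀ g h : ℕ, dens n Z D D 0 0 * √(wt σ (fun _ => 0) (fun _ => 0) g h) ≤ lam := by
    intro g h
    refine le_trans (mul_le_mul hd ?_ (Real.sqrt_nonneg _) hη0) hlam
    refine Real.sqrt_le_sqrt ?_
    unfold wt
    exact_mod_cast emb_card_le _
  refine ⟨fun _ => 0, fun _ => 0, fun _ => D, fun _ => 0, fun _ => D, fun _ => 0,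
    monotone_const, monotone_const, fun _ => Nat.one_pos, fun _ => Nat.one_pos,
    fun g g' h1 h2 => by omega, fun g g' h1 h2 => by omega, fun g _ => ?_, fun g _ => ?_,
    fun _ _ => le_refl D, fun _ _ => le_refl D, fun g => (emb_card_le _).trans hk,
    fun g => (emb_card_le _).trans hk, fun g _ => ?_, fun h _ => ?_⟩
  · rw [zero_add, one_mul]
  · rw [zero_add, one_mul]
  · rw [Finset.sum_range_one]
    exact key g 0
  · rw [Finset.sum_range_one]
    exact key 0 h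

theorem St_iter {n b J k K t X D m : ℕ} (Z : Finset (ℕ × ℕ)) (σ : Equiv.Perm (Fin k))
    (hn : n = 2 * b) (hb : 1 ≤ b) (hm : 1 ≤ m) (hk : k ≤ K) (hK : 2 ≤ K)
    (hJ : 12 * (2 * Real.log K + 1) * (n : ℝ) ^ 3 ≤ J) (s : ℕ) : ∀ (N : ℕ) (lam : ℝ),
    1 / (K : ℝ) ≤ lam → 4 * (N * n ^ s) < 2 ^ t →
    St n Z σ X N lam (b ^ s * m) (s * J + D) →
    St n Z σ X (N * n ^ s) ((608 * (t + 1)) ^ s * lam) m D := by
  induction s with
  | zero =>
    intro N lam _ _ h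
    simpa using h
  | succ s ih =>
    intro N lam h1 h2 h
    have hn1 : 1 ≤ n := by omega
    have hlam0 : 0 ≤ lam := le_trans (by positivity) h1
    have hN : 4 * N < 2 ^ t := by
      refine lt_of_le_of_lt ?_ h2
      exact Nat.mul_le_mul_left 4 (Nat.le_mul_of_pos_right N (Nat.pow_pos hn1))
    have e1 : b ^ (s + 1) * m = b * (b ^ s * m) := by ring
    have e2 : (s + 1) * J + D = (s * J + D) + J := by ring
    rw [e1, e2] at h
    have hm' : 1 ≤ b ^ s * m := Nat.mul_pos (Nat.pow_pos hb) hm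
    have h3 := step Z σ hn hb hm' hk hK h1 hJ hN h
    have h4 : 1 / (K : ℝ) ≤ 608 * ((t : ℝ) + 1) * lam := by
      have ht0 : (0 : ℝ) ≤ t := Nat.cast_nonneg t
      nlinarith
    have h5 : 4 * (N * n * n ^ s) < 2 ^ t := by
      have e3 : N * n * n ^ s = N * n ^ (s + 1) := by ring
      rw [e3]
      exact h2
    have h6 := ih (N * n) (608 * ((t : ℝ) + 1) * lam) h4 h5 h3
    have e3 : N * n * n ^ s = N * n ^ (s + 1) := by ring
    have e4 : (608 * ((t : ℝ) + 1)) ^ s * (608 * ((t : ℝ) + 1) * lam) =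
        (608 * ((t : ℝ) + 1)) ^ (s + 1) * lam := by ring
    rw [e3, e4] at h6
    exact h6

private theorem emb_inj {k : ℕ} {p : Fin k → ℕ}
    (h : ∀ g, (univ.filter fun i => p i = g).card ≤ 1) (hp : Monotone p) : StrictMono p := by
  refine hp.strictMono_of_injective ?_
  intro i j hij
  have h1 := Finset.card_le_one.1 (h (p j))
  exact h1 i (by simp [hij]) j (by simp)

private theorem emb_lt {n a u x : ℕ} (hn : 1 ≤ n) (h : x / n ^ a = u) : x < (u + 1) * n ^ a :=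
  (Nat.div_lt_iff_lt_mul (Nat.pow_pos hn)).1 (by omega)

private theorem emb_le {n a u x : ℕ} (h : x / n ^ a = u) : u * n ^ a ≤ x := by
  rw [← h]
  exact Nat.div_mul_le_self x _

theorem St_end {n k N D X : ℕ} (hn : 1 ≤ n) (Z : Finset (ℕ × ℕ)) (σ : Equiv.Perm (Fin k)) {lam : ℝ}
    (hlam : lam < 1) (h : St n Z σ X N lam 1 D) :
    ∃ a b : Fin k → ℕ, StrictMono a ∧ StrictMono b ∧ (∀ i, a i < X) ∧ (∀ i, b i < X) ∧
      ∀ i, (a i, b (σ i)) ∉ Z := by
  obtain ⟨p, q, A, U, B, V, hp, hq, hpN, hqN, hU, hV, hUX, hVX, _, _, hcp, hcq, hr, _⟩ := h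
  have hps := emb_inj hcp hp
  have hqs := emb_inj hcq hq
  have hd : ∀ i, dens n Z (A (p i)) (B (q (σ i))) (U (p i)) (V (q (σ i))) < 1 := by
    intro i
    refine lt_of_le_of_lt ?_ hlam
    refine le_trans ?_ (hr (p i) (hpN i))
    have h1 : ∀ h ∈ range N, 0 ≤ dens n Z (A (p i)) (B h) (U (p i)) (V h) * √(wt σ p q (p i) h) :=
      fun h _ => mul_nonneg (dens_nonneg _ _ _ _ _ _) (Real.sqrt_nonneg _)
    refine le_trans ?_ (Finset.single_le_sum h1 (Finset.mem_range.2 (hqN (σ i))))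
    have h2 : 1 ≤ wt σ p q (p i) (q (σ i)) := by
      unfold wt
      exact Finset.card_pos.2 ⟨i, by simp⟩
    have h3 : (1 : ℝ) ≤ √(wt σ p q (p i) (q (σ i))) := by
      rw [Real.one_le_sqrt]
      exact_mod_cast h2
    exact le_mul_of_one_le_right (dens_nonneg _ _ _ _ _ _) h3
  choose x y hx hy hxy using fun i => exists_notMem hn Z _ _ _ _ (hd i)
  refine ⟨x, fun j => y (σ.symm j), fun i j hij => ?_, fun i j hij => ?_, fun i => ?_,
    fun j => ?_, fun i => ?_⟩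
  · exact lt_of_lt_of_le (emb_lt hn (hx i))
      ((hU _ _ (hps hij) (hpN j)).trans (emb_le (hx j)))
  · have h1 := hy (σ.symm i)
    have h2 := hy (σ.symm j)
    rw [Equiv.apply_symm_apply] at h1 h2
    exact lt_of_lt_of_le (emb_lt hn h1) ((hV _ _ (hqs hij) (hqN j)).trans (emb_le h2))
  · exact lt_of_lt_of_le (emb_lt hn (hx i)) (hUX _ (hpN i))
  · have h1 := hy (σ.symm j)
    rw [Equiv.apply_symm_apply] at h1
    exact lt_of_lt_of_le (emb_lt hn h1) (hVX _ (hqN j))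
  · show (x i, y (σ.symm (σ i))) ∉ Z
    rw [Equiv.symm_apply_apply]
    exact hxy i

theorem emb {b s J t k K : ℕ} (hb : 1 ≤ b) (hk : k ≤ K) (hK : 2 ≤ K) (hks : k ≤ b ^ s)
    (hJ : 12 * (2 * Real.log K + 1) * ((2 * b : ℕ) : ℝ) ^ 3 ≤ J) (ht : 4 * (2 * b) ^ s < 2 ^ t)
    {η : ℝ} (h1 : (608 * ((t : ℝ) + 1)) ^ s * (η * √K) < 1)
    (h2 : (608 * ((t : ℝ) + 1)) ^ s * (1 / K) < 1) (σ : Equiv.Perm (Fin k)) (Z : Finset (ℕ × ℕ))
    (hZ : Z ⊆ range ((2 * b) ^ (s * J)) ×ˢ range ((2 * b) ^ (s * J)))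
    (hη : (Z.card : ℝ) ≤ η * (((2 * b : ℕ) : ℝ) ^ (s * J)) ^ 2) :
    ∃ a c : Fin k → ℕ, StrictMono a ∧ StrictMono c ∧ (∀ i, a i < (2 * b) ^ (s * J)) ∧
      (∀ i, c i < (2 * b) ^ (s * J)) ∧ ∀ i, (a i, c (σ i)) ∉ Z := by
  have hn : 1 ≤ 2 * b := by omega
  have hη0 : 0 ≤ η := emb_eta_nonneg hn hη
  have hs0 : η * √k ≤ max (η * √K) (1 / (K : ℝ)) := by
    refine le_trans ?_ (le_max_left _ _)
    refine mul_le_mul_of_nonneg_left (Real.sqrt_le_sqrt ?_) hη0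
    exact_mod_cast hk
  have h3 : St (2 * b) Z σ ((2 * b) ^ (s * J)) 1 (max (η * √K) (1 / (K : ℝ))) (b ^ s * 1)
      (s * J + 0) := by
    rw [mul_one, add_zero]
    exact St_start hn Z σ hZ hη hs0 hks
  have h4 := St_iter (n := 2 * b) (b := b) (J := J) (K := K) (t := t) (D := 0) (m := 1) Z σ rfl hb
    le_rfl hk hK hJ s 1 _ (le_max_right _ _) (by rw [one_mul]; exact ht) h3
  refine St_end hn Z σ ?_ h4
  have ht0 : (0 : ℝ) ≤ (608 * ((t : ℝ) + 1)) ^ s := by positivity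
  rw [mul_max_of_nonneg _ _ ht0]
  exact max_lt h1 h2

end FHA
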