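import Mathlib

/-!
# FHA.Par: choice of the parameters

PROOF.  Let `s ≥ 1` with `12/s ≤ ε` (and `s ≥ 1`).  For `K ≥ K0` let `b = ⌈K^(1/s)⌉₊` (`K ≤ b^s`, `b ≤ 2 K^(1/s)`),
`J = ⌈12 (2 log K + 1) (2b)^3⌉₊ ≤ C K^(3/s) log K`, `t` a natural number with `4 (2b)^s < 2^t` and `t ≤ C_s log K`
(`(2b)^s ≤ 4^s K`; e.g. `t = 2 s + ⌈log K / log 2⌉₊ + 3`), `Θ = (608 (t+1))^s ≤ (C_s log K)^s`, `η = 1/(2 Θ √K)`.  Then `Θ η √K = 1/2`, and
`Θ/K < 1` for `K` large (`(log K)^s = o(K)`).  `log (32 (2b)^(s J)) = log 32 + s J log (2b) ≤ C_s K^(3/s) (log K)^2`,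
`L = ⌈16 (1 + log (32 (2b)^(s J)))/log 2⌉₊ ≥ 1`, `n = ⌈256 L/η⌉₊ + 24 ≤ C L/η`.  So `17 L n + 3 ≤ C L^2/η ≤
C_s K^(6/s) (log K)^4 (C_s log K)^s √K ≤ C K^(1/2 + ε)` because `6/s ≤ ε/2` and every power of `log K` is `O(K^(ε/2))`
(`isLittleO_log_rpow_rpow_atTop` or `Real.log_le_rpow_div`: `log K ≤ K^c/c`).
A convenient way: `Real.log_le_rpow_div` with a small `c = c(ε, s) > 0` bounds every occurrence of `log K`, `t`, `J`, `L` by
`C K^(...)` with explicit exponents, no limits needed except for `Θ/K < 1`.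
-/

namespace FHA

theorem par {ε : ℝ} (hε : 0 < ε) : ∃ (C : ℝ) (K0 s : ℕ), 0 < C ∧ 2 ≤ K0 ∧ ∀ K : ℕ, K0 ≤ K →
    ∃ (b J t L n : ℕ) (η : ℝ), 1 ≤ b ∧ K ≤ b ^ s ∧
      12 * (2 * Real.log K + 1) * ((2 * b : ℕ) : ℝ) ^ 3 ≤ J ∧ 4 * (2 * b) ^ s < 2 ^ t ∧
      0 < η ∧ η ≤ 1 ∧ (608 * ((t : ℝ) + 1)) ^ s * (η * √K) < 1 ∧
      (608 * ((t : ℝ) + 1)) ^ s * (1 / K) < 1 ∧
      16 * (1 + Real.log (32 * (((2 * b) ^ (s * J) : ℕ) : ℝ))) ≤ L * Real.log 2 ∧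
      256 * (L : ℝ) ≤ η * n ∧ 24 ≤ n ∧ 1 ≤ L ∧
      17 * (L : ℝ) * n + 3 ≤ C * (K : ℝ) ^ (1 / 2 + ε) := by
  obtain ⟨s, hs⟩ : ∃ s : ℕ, s = ⌈12 / ε⌉₊ + 1 := ⟨_, rfl⟩
  have hs1 : 1 ≤ s := by omega
  have hsR : (1 : ℝ) ≤ s := by exact_mod_cast hs1
  have hs12 : 8 / (s : ℝ) ≤ 2 / 3 * ε := by
    have h1 : 12 / ε ≤ (s : ℝ) := by
      rw [hs]; push_cast
      linarith [Nat.le_ceil (12 / ε)]
    rw [div_le_iff₀ hε] at h1
    rw [div_le_iff₀ (by linarith)]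
    linarith
  obtain ⟨c, hc⟩ : ∃ c : ℝ, c = min ε 1 / (3 * (s + 2)) := ⟨_, rfl⟩
  have hm0 : 0 < min ε 1 := lt_min hε one_pos
  have hc0 : 0 < c := by rw [hc]; positivity
  have hcs : c * (s + 2) = min ε 1 / 3 := by
    rw [hc]; field_simp
  have hcs1 : c * (s + 2) ≤ ε / 3 := by rw [hcs]; linarith [min_le_left ε 1]
  have hcs2 : c * s ≤ 1 / 2 := by
    have : c * (s + 2) ≤ 1 / 3 := by rw [hcs]; linarith [min_le_right ε 1]
    nlinarith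
  -- the constants
  obtain ⟨C1, hC1⟩ : ∃ C1 : ℝ, C1 = 768 * (2 / c + 1) + 1 := ⟨_, rfl⟩
  obtain ⟨C2, hC2⟩ : ∃ C2 : ℝ, C2 = 2 * s + 5 + 2 / c := ⟨_, rfl⟩
  obtain ⟨C3, hC3⟩ : ∃ C3 : ℝ, C3 = (608 * C2) ^ s := ⟨_, rfl⟩
  obtain ⟨C5, hC5⟩ : ∃ C5 : ℝ, C5 = 32 * (6 + 4 * s * C1) + 1 := ⟨_, rfl⟩
  have hcinv : 0 < 2 / c := by positivity
  have hC1p : 0 < C1 := by rw [hC1]; positivity
  have hC2p : 0 < C2 := by rw [hC2]; positivity
  have hC3p : 0 < C3 := by rw [hC3]; positivity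
  have hC5p : 0 < C5 := by rw [hC5]; positivity
  refine ⟨9560 * C5 ^ 2 * C3, ⌈C3 ^ 2⌉₊ + 2, s, by positivity, by omega, ?_⟩
  intro K hK
  obtain ⟨x, hx⟩ : ∃ x : ℝ, x = (K : ℝ) := ⟨_, rfl⟩
  rw [← hx]
  have hxC : C3 ^ 2 < x := by
    rw [hx]
    have h1 : ((⌈C3 ^ 2⌉₊ + 2 : ℕ) : ℝ) ≤ K := by exact_mod_cast hK
    push_cast at h1
    linarith [Nat.le_ceil (C3 ^ 2)]
  have hx1 : 1 ≤ x := by
    rw [hx]
    have : 2 ≤ K := by omega
    exact_mod_cast (by omega : 1 ≤ K)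
  have hx0 : 0 < x := by linarith
  obtain ⟨X, hX⟩ : ∃ X : ℝ, X = x ^ (1 / (s : ℝ)) := ⟨_, rfl⟩
  obtain ⟨y, hy⟩ : ∃ y : ℝ, y = x ^ c := ⟨_, rfl⟩
  have hX1 : 1 ≤ X := by rw [hX]; exact Real.one_le_rpow hx1 (by positivity)
  have hy1 : 1 ≤ y := by rw [hy]; exact Real.one_le_rpow hx1 hc0.le
  have hXs : X ^ s = x := by
    rw [hX, ← Real.rpow_natCast, ← Real.rpow_mul hx0.le, one_div, inv_mul_cancel₀ (by positivity),
      Real.rpow_one]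
  have hlog0 : 0 ≤ Real.log x := Real.log_nonneg hx1
  have hlog : Real.log x ≤ y / c := by rw [hy]; exact Real.log_le_rpow_div hx0.le hc0
  have hlog2 : 0.69 < Real.log 2 := by linarith [Real.log_two_gt_d9]
  have hlog2' : Real.log 2 < 1 := by linarith [Real.log_two_lt_d9]
  -- b
  obtain ⟨b, hb⟩ : ∃ b : ℕ, b = ⌈X⌉₊ := ⟨_, rfl⟩
  have hbX : X ≤ b := by rw [hb]; exact Nat.le_ceil X
  have hb1 : 1 ≤ b := by
    have : (1 : ℝ) ≤ b := hX1.trans hbX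
    exact_mod_cast this
  have hb2 : (b : ℝ) ≤ 2 * X := by
    have : (b : ℝ) < X + 1 := by rw [hb]; exact Nat.ceil_lt_add_one (by linarith)
    linarith
  have hKb : K ≤ b ^ s := by
    have : (K : ℝ) ≤ (b : ℝ) ^ s := by
      rw [← hx, ← hXs]
      exact pow_le_pow_left₀ (by linarith) hbX s
    exact_mod_cast this
  have h2b : ((2 * b : ℕ) : ℝ) ≤ 4 * X := by push_cast; linarith
  have h2b0 : (2 : ℝ) ≤ ((2 * b : ℕ) : ℝ) := by
    exact_mod_cast (by omega : 2 ≤ 2 * b)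
  -- J
  obtain ⟨J, hJ⟩ : ∃ J : ℕ, J = ⌈12 * (2 * Real.log x + 1) * ((2 * b : ℕ) : ℝ) ^ 3⌉₊ := ⟨_, rfl⟩
  have hJ1 : 12 * (2 * Real.log x + 1) * ((2 * b : ℕ) : ℝ) ^ 3 ≤ J := by
    rw [hJ]; exact Nat.le_ceil _
  have hJ2 : (J : ℝ) ≤ C1 * y * X ^ 3 := by
    have h1 : (J : ℝ) < 12 * (2 * Real.log x + 1) * ((2 * b : ℕ) : ℝ) ^ 3 + 1 := by
      rw [hJ]; exact Nat.ceil_lt_add_one (by positivity)
    have h2 : ((2 * b : ℕ) : ℝ) ^ 3 ≤ (4 * X) ^ 3 := pow_le_pow_left₀ (by positivity) h2b 3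
    have h3 : 2 * Real.log x + 1 ≤ (2 / c + 1) * y := by
      have e : 2 * (y / c) = 2 / c * y := by ring
      have e' : (2 / c + 1) * y = 2 / c * y + y := by ring
      rw [e']
      linarith
    have h4 : 12 * (2 * Real.log x + 1) * ((2 * b : ℕ) : ℝ) ^ 3 ≤
        12 * ((2 / c + 1) * y) * (4 * X) ^ 3 := by
      refine mul_le_mul ?_ h2 (by positivity) (by positivity)
      linarith
    have h5 : 1 ≤ y * X ^ 3 := by
      exact one_le_mul_of_one_le_of_one_le hy1 (one_le_pow₀ hX1)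
    rw [hC1]
    have e : (768 * (2 / c + 1) + 1) * y * X ^ 3 = 12 * ((2 / c + 1) * y) * (4 * X) ^ 3 + y * X ^ 3 := by
      ring
    rw [e]
    linarith
  -- t
  obtain ⟨t, ht⟩ : ∃ t : ℕ, t = 2 * s + ⌈Real.log x / Real.log 2⌉₊ + 3 := ⟨_, rfl⟩
  have ht1 : (t : ℝ) + 1 ≤ C2 * y := by
    have h1 : ((⌈Real.log x / Real.log 2⌉₊ : ℕ) : ℝ) < Real.log x / Real.log 2 + 1 :=
      Nat.ceil_lt_add_one (by positivity)
    have h2 : Real.log x / Real.log 2 ≤ 2 / c * y := by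
      rw [div_le_iff₀ (by linarith)]
      have e : y / c = 1 / c * y := by ring
      have h3 : 0 < 1 / c * y := by positivity
      have e2 : 2 / c * y * Real.log 2 = (1 / c * y) * (2 * Real.log 2) := by ring
      rw [e2]
      rw [e] at hlog
      have h4 : (1 / c * y) * 1 ≤ (1 / c * y) * (2 * Real.log 2) :=
        mul_le_mul_of_nonneg_left (by linarith) h3.le
      linarith
    rw [ht, hC2]
    push_cast
    have e3 : (2 * (s : ℝ) + 5 + 2 / c) * y = (2 * s + 5) * y + 2 / c * y := by ring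
    have h4 : (2 * (s : ℝ) + 5) * 1 ≤ (2 * s + 5) * y :=
      mul_le_mul_of_nonneg_left hy1 (by positivity)
    rw [e3]
    linarith
  have ht2 : 4 * (2 * b) ^ s < 2 ^ t := by
    have h1 : (4 : ℝ) * ((2 * b : ℕ) : ℝ) ^ s < 2 ^ t := by
      have h2 : ((2 * b : ℕ) : ℝ) ^ s ≤ 4 ^ s * x := by
        rw [← hXs, ← mul_pow]
        exact pow_le_pow_left₀ (by positivity) h2b s
      have h3 : x ≤ 2 ^ ⌈Real.log x / Real.log 2⌉₊ := by
        rw [← Real.log_le_log_iff hx0 (by positivity), Real.log_pow]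
        rw [← div_le_iff₀ (by linarith)]
        exact Nat.le_ceil _
      have h4 : (2 : ℝ) ^ t = 4 ^ s * 8 * 2 ^ ⌈Real.log x / Real.log 2⌉₊ := by
        rw [ht, pow_add, pow_add, pow_mul]
        norm_num
        ring
      rw [h4]
      have h5 : (0 : ℝ) < 4 ^ s := by positivity
      have h6 := mul_pos h5 hx0
      have h7 := mul_le_mul_of_nonneg_left h3 h5.le
      have e : (4 : ℝ) ^ s * 8 * 2 ^ ⌈Real.log x / Real.log 2⌉₊ =
          8 * (4 ^ s * 2 ^ ⌈Real.log x / Real.log 2⌉₊) := by ring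
      rw [e]
      linarith
    exact_mod_cast h1
  -- Θ
  obtain ⟨Θ, hΘ⟩ : ∃ Θ : ℝ, Θ = (608 * ((t : ℝ) + 1)) ^ s := ⟨_, rfl⟩
  have hΘ1 : 1 ≤ Θ := by
    rw [hΘ]
    refine one_le_pow₀ ?_
    have : (0 : ℝ) ≤ t := Nat.cast_nonneg t
    linarith
  have hΘ2 : Θ ≤ C3 * y ^ s := by
    rw [hΘ, hC3, ← mul_pow]
    refine pow_le_pow_left₀ (by positivity) ?_ s
    have e : 608 * C2 * y = 608 * (C2 * y) := by ring
    rw [e]
    linarith
  have hsq0 : 0 < √x := Real.sqrt_pos.2 hx0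
  have hsq1 : 1 ≤ √x := Real.one_le_sqrt.2 hx1
  obtain ⟨η, hη⟩ : ∃ η : ℝ, η = 1 / (2 * Θ * √x) := ⟨_, rfl⟩
  have hη0 : 0 < η := by rw [hη]; positivity
  have hη1 : η ≤ 1 := by
    rw [hη, div_le_one (by positivity)]
    have h1 : 1 ≤ Θ * √x := one_le_mul_of_one_le_of_one_le hΘ1 hsq1
    have e : 2 * Θ * √x = 2 * (Θ * √x) := by ring
    rw [e]
    linarith
  have hηi : 1 / η = 2 * Θ * √x := by rw [hη, one_div_one_div]
  have hy2 : y ^ s ≤ √x := by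
    rw [hy, ← Real.rpow_natCast, ← Real.rpow_mul hx0.le, Real.sqrt_eq_rpow]
    exact Real.rpow_le_rpow_of_exponent_le hx1 (by linarith)
  -- L
  obtain ⟨L, hL⟩ : ∃ L : ℕ,
      L = ⌈16 * (1 + Real.log (32 * (((2 * b) ^ (s * J) : ℕ) : ℝ))) / Real.log 2⌉₊ := ⟨_, rfl⟩
  have hlb : Real.log (32 * (((2 * b) ^ (s * J) : ℕ) : ℝ)) =
      Real.log 32 + s * J * Real.log ((2 * b : ℕ) : ℝ) := by
    have h0 : (((2 * b) ^ (s * J) : ℕ) : ℝ) = ((2 * b : ℕ) : ℝ) ^ (s * J) := by push_cast; rfl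
    rw [h0, Real.log_mul (by norm_num) (by positivity), Real.log_pow]
    push_cast
    rfl
  have hl2b0 : 0 ≤ Real.log ((2 * b : ℕ) : ℝ) := Real.log_nonneg (by linarith)
  have hl32 : Real.log 32 ≤ 5 := by
    have : (32 : ℝ) = 2 ^ 5 := by norm_num
    rw [this, Real.log_pow]
    push_cast
    linarith
  have hl320 : 0 ≤ Real.log 32 := Real.log_nonneg (by norm_num)
  have hlb0 : 0 ≤ Real.log (32 * (((2 * b) ^ (s * J) : ℕ) : ℝ)) := by rw [hlb]; positivity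
  have hL1 : 16 * (1 + Real.log (32 * (((2 * b) ^ (s * J) : ℕ) : ℝ))) ≤ L * Real.log 2 := by
    rw [← div_le_iff₀ (by linarith), hL]
    exact Nat.le_ceil _
  have hL2 : 1 ≤ L := by
    rw [hL, Nat.one_le_ceil_iff]
    exact div_pos (by linarith) (by linarith)
  have hL3 : (L : ℝ) ≤ C5 * y * X ^ 4 := by
    have h1 : (L : ℝ) < 16 * (1 + Real.log (32 * (((2 * b) ^ (s * J) : ℕ) : ℝ))) / Real.log 2 + 1 := by
      rw [hL]; exact Nat.ceil_lt_add_one (div_nonneg (by linarith) (by linarith))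
    have h2 : 16 * (1 + Real.log (32 * (((2 * b) ^ (s * J) : ℕ) : ℝ))) / Real.log 2 ≤
        32 * (1 + Real.log (32 * (((2 * b) ^ (s * J) : ℕ) : ℝ))) := by
      rw [div_le_iff₀ (by linarith)]
      have e : 32 * (1 + Real.log (32 * (((2 * b) ^ (s * J) : ℕ) : ℝ))) * Real.log 2 =
          16 * (1 + Real.log (32 * (((2 * b) ^ (s * J) : ℕ) : ℝ))) * (2 * Real.log 2) := by ring
      rw [e]
      exact le_mul_of_one_le_right (mul_nonneg (by norm_num) (by linarith)) (by linarith)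
    have h3 : Real.log ((2 * b : ℕ) : ℝ) ≤ 4 * X := by
      have := Real.log_le_sub_one_of_pos (x := ((2 * b : ℕ) : ℝ)) (by linarith)
      linarith
    have h4 : (s : ℝ) * J * Real.log ((2 * b : ℕ) : ℝ) ≤ s * (C1 * y * X ^ 3) * (4 * X) := by
      refine mul_le_mul ?_ h3 hl2b0 (by positivity)
      exact mul_le_mul_of_nonneg_left hJ2 (by positivity)
    have h5 : 1 ≤ y * X ^ 4 := by
      exact one_le_mul_of_one_le_of_one_le hy1 (one_le_pow₀ hX1)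
    rw [hlb] at h2
    rw [hlb] at h1
    rw [hC5]
    have h6 : (s : ℝ) * (C1 * y * X ^ 3) * (4 * X) = 4 * s * C1 * (y * X ^ 4) := by ring
    have h7 : (32 * (6 + 4 * s * C1) + 1) * y * X ^ 4 =
        192 * (y * X ^ 4) + 32 * (4 * s * C1 * (y * X ^ 4)) + (y * X ^ 4) := by ring
    rw [h7]
    rw [h6] at h4
    linarith
  -- n
  obtain ⟨n, hn⟩ : ∃ n : ℕ, n = ⌈256 * (L : ℝ) / η⌉₊ + 24 := ⟨_, rfl⟩
  have hLR : (1 : ℝ) ≤ L := by exact_mod_cast hL2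
  have hn1 : 256 * (L : ℝ) ≤ η * n := by
    rw [mul_comm η, ← div_le_iff₀ hη0, hn]
    push_cast
    linarith [Nat.le_ceil (256 * (L : ℝ) / η)]
  have hLη : (1 : ℝ) ≤ L * (1 / η) := by
    have h1 : 1 ≤ 1 / η := by rw [le_div_iff₀ hη0]; linarith
    exact one_le_mul_of_one_le_of_one_le hLR h1
  have hn2 : (n : ℝ) ≤ 281 * (L * (1 / η)) := by
    have h1 : ((⌈256 * (L : ℝ) / η⌉₊ : ℕ) : ℝ) < 256 * (L : ℝ) / η + 1 :=
      Nat.ceil_lt_add_one (by positivity)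
    have e : 256 * (L : ℝ) / η = 256 * (L * (1 / η)) := by ring
    rw [e] at h1
    rw [hn, e]
    push_cast
    linarith
  have hfin : 17 * (L : ℝ) * n + 3 ≤ 9560 * C5 ^ 2 * C3 * x ^ (1 / 2 + ε) := by
    have h1 : 17 * (L : ℝ) * n + 3 ≤ 4780 * (L * (L * (1 / η))) := by
      have h2 : (L : ℝ) * n ≤ L * (281 * (L * (1 / η))) :=
        mul_le_mul_of_nonneg_left hn2 (by positivity)
      have h3 : (1 : ℝ) ≤ L * (L * (1 / η)) := one_le_mul_of_one_le_of_one_le hLR hLη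
      have e1 : 17 * (L : ℝ) * n = 17 * (L * n) := by ring
      have e2 : (L : ℝ) * (281 * (L * (1 / η))) = 281 * (L * (L * (1 / η))) := by ring
      rw [e1]
      rw [e2] at h2
      linarith
    rw [hηi] at h1
    have h2 : (L : ℝ) * (L * (2 * Θ * √x)) = 2 * (L : ℝ) ^ 2 * Θ * √x := by ring
    have h3 : (L : ℝ) ^ 2 ≤ (C5 * y * X ^ 4) ^ 2 := pow_le_pow_left₀ (by positivity) hL3 2
    have h4 : 2 * (L : ℝ) ^ 2 * Θ * √x ≤ 2 * (C5 * y * X ^ 4) ^ 2 * (C3 * y ^ s) * √x := by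
      refine mul_le_mul_of_nonneg_right ?_ hsq0.le
      refine mul_le_mul ?_ hΘ2 (by linarith) (by positivity)
      linarith
    have h5 : y ^ 2 * (X ^ 8 * (y ^ s * √x)) ≤ x ^ (1 / 2 + ε) := by
      have e1 : y ^ 2 = x ^ (2 * c) := by
        rw [hy, ← Real.rpow_natCast, ← Real.rpow_mul hx0.le]
        congr 1
        push_cast
        ring
      have e2 : X ^ 8 = x ^ (8 / (s : ℝ)) := by
        rw [hX, ← Real.rpow_natCast, ← Real.rpow_mul hx0.le]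
        congr 1
        push_cast
        ring
      have e3 : y ^ s = x ^ (c * s) := by
        rw [hy, ← Real.rpow_natCast, ← Real.rpow_mul hx0.le]
      rw [e1, e2, e3, Real.sqrt_eq_rpow, ← Real.rpow_add hx0, ← Real.rpow_add hx0,
        ← Real.rpow_add hx0]
      refine Real.rpow_le_rpow_of_exponent_le hx1 ?_
      have e4 : 2 * c + (8 / (s : ℝ) + (c * s + 1 / 2)) = c * (s + 2) + 8 / s + 1 / 2 := by ring
      rw [e4]
      linarith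
    have h6 : 4780 * (2 * (C5 * y * X ^ 4) ^ 2 * (C3 * y ^ s) * √x) =
        9560 * C5 ^ 2 * C3 * (y ^ 2 * (X ^ 8 * (y ^ s * √x))) := by ring
    have h7 : 9560 * C5 ^ 2 * C3 * (y ^ 2 * (X ^ 8 * (y ^ s * √x))) ≤
        9560 * C5 ^ 2 * C3 * x ^ (1 / 2 + ε) := mul_le_mul_of_nonneg_left h5 (by positivity)
    rw [h2] at h1
    linarith
  refine ⟨b, J, t, L, n, η, hb1, hKb, hJ1, ht2, hη0, hη1, ?_, ?_, hL1, hn1, by omega, hL2, hfin⟩
  · rw [← hΘ, hη]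
    have : Θ * (1 / (2 * Θ * √x) * √x) = 1 / 2 := by
      have h1 : Θ ≠ 0 := by linarith
      have h2 : √x ≠ 0 := hsq0.ne'
      field_simp
    rw [this]
    norm_num
  · rw [← hΘ, mul_one_div, div_lt_one hx0]
    have h1 : C3 < √x := by
      rw [Real.lt_sqrt hC3p.le]
      exact hxC
    calc Θ ≤ C3 * y ^ s := hΘ2
      _ ≤ C3 * √x := mul_le_mul_of_nonneg_left hy2 hC3p.le
      _ < √x * √x := mul_lt_mul_of_pos_right h1 hsq0
      _ = x := Real.mul_self_sqrt hx0.le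

end FHA
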