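import Pool.Agent.FHA.Emb
import Pool.Agent.FHA.Det2
import Pool.Agent.FHA.Par
import Pool.Agent.FHT.Fin

/-!
# FHA.Fin: the upper bound for all permutations

PROOF.  `K = max k K0`; `par`, `emb` for `σ` and `σ.symm`, `det2`, `FHT.ex_le`; `K^(1/2+ε) ≤ (K0 k)^(1/2+ε)`.
-/

namespace FHA

open Finset

theorem Fin_pl {b s J t k K : ℕ} (hb : 1 ≤ b) (hk : k ≤ K) (hK : 2 ≤ K) (hks : k ≤ b ^ s)
    (hJ : 12 * (2 * Real.log K + 1) * ((2 * b : ℕ) : ℝ) ^ 3 ≤ J) (ht : 4 * (2 * b) ^ s < 2 ^ t)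
    {η : ℝ} (h1 : (608 * ((t : ℝ) + 1)) ^ s * (η * √K) < 1)
    (h2 : (608 * ((t : ℝ) + 1)) ^ s * (1 / K) < 1) (σ : Equiv.Perm (Fin k)) :
    Pl σ ((2 * b) ^ (s * J)) η := by
  intro Z hZ hη
  refine emb hb hk hK hks hJ ht h1 h2 σ Z hZ ?_
  push_cast at hη ⊢
  exact hη

theorem upper {ε : ℝ} (hε : 0 < ε) : ∃ C : ℝ, 0 < C ∧ ∀ (k : ℕ), 1 ≤ k → ∀ (σ : Equiv.Perm (Fin k)) (n : ℕ),
    (FHT.ex n σ : ℝ) ≤ (2 : ℝ) ^ (C * (k : ℝ) ^ (1 / 2 + ε)) * n := by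
  obtain ⟨C, K0, s, hC, hK0, hpar⟩ := par hε
  have hK0R : (2 : ℝ) ≤ K0 := by exact_mod_cast hK0
  refine ⟨C * (K0 : ℝ) ^ (1 / 2 + ε), by positivity, ?_⟩
  intro k hk σ n
  obtain ⟨K, hK⟩ : ∃ K : ℕ, K = max k K0 := ⟨_, rfl⟩
  have hkK : k ≤ K := by rw [hK]; exact le_max_left _ _
  have hK0K : K0 ≤ K := by rw [hK]; exact le_max_right _ _
  have hKk : K ≤ K0 * k := by
    rw [hK]
    refine max_le ?_ ?_
    · nlinarith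
    · nlinarith
  obtain ⟨b, J, t, L, m, η, hb, hKb, hJ, ht, hη, hη1, h1, h2, hL, hm, hm24, hL1, hfin⟩ := hpar K hK0K
  have hpl : Pl σ ((2 * b) ^ (s * J)) η :=
    Fin_pl hb hkK (hK0.trans hK0K) (hkK.trans hKb) hJ ht h1 h2 σ
  have hpl' : Pl σ.symm ((2 * b) ^ (s * J)) η :=
    Fin_pl hb hkK (hK0.trans hK0K) (hkK.trans hKb) hJ ht h1 h2 σ.symm
  have hN0 : 1 ≤ (2 * b) ^ (s * J) := Nat.one_le_pow _ _ (by omega)
  have hex : FHT.ex n σ ≤ 2 ^ (17 * L * m + 3) * n :=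
    FHT.ex_le fun A hA hA' => det2 σ hη hη1 hN0 hpl hpl' hL hm hm24 hL1 n A hA hA'
  have hexR : (FHT.ex n σ : ℝ) ≤ (2 : ℝ) ^ (17 * L * m + 3) * n := by exact_mod_cast hex
  refine hexR.trans (mul_le_mul_of_nonneg_right ?_ (Nat.cast_nonneg n))
  rw [← Real.rpow_natCast]
  refine Real.rpow_le_rpow_of_exponent_le (by norm_num) ?_
  push_cast
  refine hfin.trans ?_
  rw [mul_assoc]
  refine mul_le_mul_of_nonneg_left ?_ hC.le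
  rw [← Real.mul_rpow (Nat.cast_nonneg _) (Nat.cast_nonneg _)]
  refine Real.rpow_le_rpow (Nat.cast_nonneg _) ?_ (by linarith)
  exact_mod_cast hKk

end FHA
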