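import Mathlib

/-!
# FHA.Lll: a local lemma by counting (Rosenfeld), with the distribution of few variables

Variables `x v ∈ L v`, `v ∈ V`; bad events `e ∈ I` with supports `sup e ⊆ V`, `Bad e x` depends only on the
coordinates of `x` in `sup e`.

PROOF.  Let `P = Fintype.piFinset L`, `G(S)` the number of `x ∈ P` such that `¬ Bad e x` for all `e` with
`sup e ⊆ S`.
(1) INDEPENDENCE.  If `f ≥ 0` depends only on the coordinates in `T` and the property `A` only on the coordinates
outside `T` then `(∑_{x ∈ P, A x} f x) * |P| = #{x ∈ P | A x} * ∑_{x ∈ P} f x`.  (Bijection of `P × P` with itself which exchanges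
the coordinates in `T` of the two components: `(x, y) ↦ (x on T and y off T, y on T and x off T)`; both sides are
the sum over `(x,y) ∈ P × P` of `f(x) [A x]`, resp. `f(y) [A x]`.)
(2) CLAIM `2 G(S ∪ {v}) ≥ G(S)` for `v ∉ S`, by induction on `|S|`: an `x` counted by `G(S)` but not by `G(S ∪ {v})` has
`Bad e x` for some `e` with `v ∈ sup e ⊆ S ∪ {v}`, and is good for all `e'` with `sup e' ⊆ S \ sup e`; by (1) the number
of these `x` for one `e` is at most `G(S \ sup e) * p(e)`, `p(e) = #{x ∈ P | Bad e x} / |P|`, and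
`G(S \ sup e) ≤ 2 ^ (|sup e| - 1) G(S)` by induction (`S` has at most `|sup e| - 1` elements of `sup e`; remove them one
by one).  So `G(S) - G(S ∪ {v}) ≤ ∑_{e, v ∈ sup e} 2 ^ (|sup e| - 1) p(e) G(S) ≤ G(S) / 2`.
(3) `G(∅) = |P| > 0` (supports are nonempty), so all `G(S) > 0`.
(4) `lll`: the left side is at most `∑_{x ∈ P, good for all e with sup e ⊆ V \ T} f x * |P| = G(V \ T) ∑_{x ∈ P} f x
≤ 2 ^ |T| G(V) ∑_{x ∈ P} f x` by (1) and (2).
-/

namespace FHA

open Finset

section

variable {V Ω I : Type} [Fintype V] [DecidableEq V] [Fintype Ω] [DecidableEq Ω] [Fintype I]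

open Classical in
/-- the good choices -/
noncomputable def goodS (L : V → Finset Ω) (Bad : I → (V → Ω) → Prop) : Finset (V → Ω) :=
  (Fintype.piFinset L).filter fun x => ∀ e, ¬ Bad e x

open Classical in
private noncomputable def Lll_mix (T : Finset V) (x y : V → Ω) : V → Ω :=
  fun v => if v ∈ T then x v else y v

open Classical in
private theorem Lll_mem (L : V → Finset Ω) (T : Finset V) {x y : V → Ω}
    (hx : x ∈ Fintype.piFinset L) (hy : y ∈ Fintype.piFinset L) :
    Lll_mix T x y ∈ Fintype.piFinset L := by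
  rw [Fintype.mem_piFinset] at hx hy ⊢
  intro v
  unfold Lll_mix
  split_ifs
  · exact hx v
  · exact hy v

open Classical in
private theorem Lll_inv (T : Finset V) (x y : V → Ω) :
    Lll_mix T (Lll_mix T x y) (Lll_mix T y x) = x := by
  funext v
  unfold Lll_mix
  by_cases h : v ∈ T <;> simp [h]

open Classical in
private theorem Lll_indep (L : V → Finset Ω) (T : Finset V) (f : (V → Ω) → ℝ)
    (hfT : ∀ x y, (∀ v ∈ T, x v = y v) → f x = f y) (A : (V → Ω) → Prop)
    (hA : ∀ x y, (∀ v, v ∉ T → x v = y v) → A x → A y) :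
    (∑ x ∈ (Fintype.piFinset L).filter (fun x => A x), f x) * ((Fintype.piFinset L).card : ℝ) =
      (((Fintype.piFinset L).filter (fun x => A x)).card : ℝ) *
        ∑ x ∈ Fintype.piFinset L, f x := by
  set P := Fintype.piFinset L with hP
  have e1 : (∑ x ∈ P.filter (fun x => A x), f x) * (P.card : ℝ) =
      ∑ z ∈ P ×ˢ P, (if A z.1 then f z.1 else 0) := by
    rw [Finset.sum_product, Finset.sum_filter, Finset.sum_mul]
    refine Finset.sum_congr rfl fun x _ => ?_
    show _ = ∑ y ∈ P, if A x then f x else 0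
    rw [Finset.sum_const, nsmul_eq_mul, mul_comm]
  have e2 : ((P.filter (fun x => A x)).card : ℝ) * ∑ x ∈ P, f x =
      ∑ z ∈ P ×ˢ P, (if A z.2 then f z.1 else 0) := by
    rw [Finset.sum_product, Finset.mul_sum]
    refine Finset.sum_congr rfl fun x _ => ?_
    show _ = ∑ y ∈ P, if A y then f x else 0
    rw [← Finset.sum_filter, Finset.sum_const, nsmul_eq_mul]
  rw [e1, e2]
  refine Finset.sum_nbij' (fun z => (Lll_mix T z.1 z.2, Lll_mix T z.2 z.1))
    (fun z => (Lll_mix T z.1 z.2, Lll_mix T z.2 z.1)) ?_ ?_ ?_ ?_ ?_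
  · rintro ⟨x, y⟩ hz
    rw [Finset.mem_product] at hz ⊢
    exact ⟨Lll_mem L T hz.1 hz.2, Lll_mem L T hz.2 hz.1⟩
  · rintro ⟨x, y⟩ hz
    rw [Finset.mem_product] at hz ⊢
    exact ⟨Lll_mem L T hz.1 hz.2, Lll_mem L T hz.2 hz.1⟩
  · rintro ⟨x, y⟩ _
    exact Prod.ext (Lll_inv T x y) (Lll_inv T y x)
  · rintro ⟨x, y⟩ _
    exact Prod.ext (Lll_inv T x y) (Lll_inv T y x)
  · rintro ⟨x, y⟩ _
    have hf' : f (Lll_mix T x y) = f x := hfT _ _ fun v hv => by simp [Lll_mix, hv]
    have h1 : A x ↔ A (Lll_mix T y x) :=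
      ⟨hA _ _ fun v hv => by simp [Lll_mix, hv], hA _ _ fun v hv => by simp [Lll_mix, hv]⟩
    show (if A x then f x else 0) = if A (Lll_mix T y x) then f (Lll_mix T x y) else 0
    rw [hf']
    by_cases h : A x
    · rw [if_pos h, if_pos (h1.1 h)]
    · rw [if_neg h, if_neg (fun h2 => h (h1.2 h2))]

open Classical in
/-- good for the events with support in `S` -/
private noncomputable def Lll_G (L : V → Finset Ω) (sup : I → Finset V)
    (Bad : I → (V → Ω) → Prop) (S : Finset V) : Finset (V → Ω) :=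
  (Fintype.piFinset L).filter fun x => ∀ e, sup e ⊆ S → ¬ Bad e x

private theorem Lll_G_dep (sup : I → Finset V) (Bad : I → (V → Ω) → Prop)
    (hdep : ∀ e x y, (∀ v ∈ sup e, x v = y v) → Bad e x → Bad e y) (S T : Finset V)
    (hST : ∀ v ∈ S, v ∉ T) (x y : V → Ω) (h : ∀ v, v ∉ T → x v = y v)
    (hx : ∀ e, sup e ⊆ S → ¬ Bad e x) : ∀ e, sup e ⊆ S → ¬ Bad e y := fun e he hb =>
  hx e he (hdep e y x (fun v hv => (h v (hST v (he hv))).symm) hb)

open Classical in
private theorem Lll_down (L : V → Finset Ω) (sup : I → Finset V) (Bad : I → (V → Ω) → Prop)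
    (m : ℕ) (ih : ∀ S : Finset V, S.card < m → ∀ v, v ∉ S →
      ((Lll_G L sup Bad S).card : ℝ) ≤ 2 * ((Lll_G L sup Bad (insert v S)).card : ℝ)) :
    ∀ R S : Finset V, R ⊆ S → S.card ≤ m →
      ((Lll_G L sup Bad (S \ R)).card : ℝ) ≤ 2 ^ R.card * ((Lll_G L sup Bad S).card : ℝ) := by
  intro R
  induction R using Finset.induction_on with
  | empty =>
    intro S _ _
    simp
  | insert r R hr hR =>
    intro S hRS hS
    have hrS : r ∈ S := hRS (Finset.mem_insert_self r R)
    have e1 : insert r (S \ insert r R) = S \ R := by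
      ext v
      simp only [Finset.mem_insert, Finset.mem_sdiff]
      constructor
      · rintro (rfl | ⟨h1, h2⟩)
        · exact ⟨hrS, hr⟩
        · exact ⟨h1, fun h => h2 (Or.inr h)⟩
      · rintro ⟨h1, h2⟩
        by_cases h : v = r
        · exact Or.inl h
        · exact Or.inr ⟨h1, fun h3 => h3.elim h h2⟩
    have hn : r ∉ S \ insert r R := by simp
    have hc : (S \ insert r R).card < m := by
      refine lt_of_lt_of_le (Finset.card_lt_card ?_) hS
      refine Finset.ssubset_iff_subset_ne.2 ⟨Finset.sdiff_subset, fun h => ?_⟩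
      rw [h] at hn
      exact hn hrS
    have h1 := ih _ hc r hn
    rw [e1] at h1
    have h2 := hR S (fun v hv => hRS (Finset.mem_insert_of_mem hv)) hS
    rw [Finset.card_insert_of_notMem hr, pow_succ']
    calc ((Lll_G L sup Bad (S \ insert r R)).card : ℝ)
        ≤ 2 * ((Lll_G L sup Bad (S \ R)).card : ℝ) := h1
      _ ≤ 2 * (2 ^ R.card * ((Lll_G L sup Bad S).card : ℝ)) := by linarith
      _ = 2 * 2 ^ R.card * ((Lll_G L sup Bad S).card : ℝ) := by ring

open Classical in
private theorem Lll_step (L : V → Finset Ω) (hL : ∀ v, (L v).Nonempty) (sup : I → Finset V)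
    (Bad : I → (V → Ω) → Prop)
    (hdep : ∀ e x y, (∀ v ∈ sup e, x v = y v) → Bad e x → Bad e y)
    (hE : ∀ v, ∑ e ∈ univ.filter (fun e => v ∈ sup e), (2 : ℝ) ^ ((sup e).card - 1) *
      (((Fintype.piFinset L).filter (fun x => Bad e x)).card : ℝ) ≤
        ((Fintype.piFinset L).card : ℝ) / 2) :
    ∀ m : ℕ, ∀ S : Finset V, S.card < m → ∀ v, v ∉ S →
      ((Lll_G L sup Bad S).card : ℝ) ≤ 2 * ((Lll_G L sup Bad (insert v S)).card : ℝ) := by
  intro m
  induction m with
  | zero =>
    intro S hS
    exact absurd hS (Nat.not_lt_zero _)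
  | succ m ih =>
    intro S hS v hv
    have hSm : S.card ≤ m := Nat.lt_succ_iff.1 hS
    set P := Fintype.piFinset L with hP
    have hPpos : (0 : ℝ) < P.card := by
      have : P.Nonempty := by
        rw [hP]
        exact Fintype.piFinset_nonempty.2 hL
      exact_mod_cast Finset.card_pos.2 this
    have hsub : Lll_G L sup Bad S ⊆ Lll_G L sup Bad (insert v S) ∪
        (univ.filter (fun e => v ∈ sup e)).biUnion (fun e =>
          (Lll_G L sup Bad (S \ sup e)).filter fun x => Bad e x) := by
      intro x hx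
      unfold Lll_G at hx
      rw [Finset.mem_filter] at hx
      by_cases h : ∀ e, sup e ⊆ insert v S → ¬ Bad e x
      · refine Finset.mem_union_left _ ?_
        unfold Lll_G
        exact Finset.mem_filter.2 ⟨hx.1, h⟩
      · push Not at h
        obtain ⟨e, he, hb⟩ := h
        have hve : v ∈ sup e := by
          by_contra hve
          refine hx.2 e (fun w hw => ?_) hb
          rcases Finset.mem_insert.1 (he hw) with h1 | h1
          · exact absurd (h1 ▸ hw) hve
          · exact h1
        refine Finset.mem_union_right _ (Finset.mem_biUnion.2 ⟨e, ?_, ?_⟩)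
        · exact Finset.mem_filter.2 ⟨Finset.mem_univ e, hve⟩
        · refine Finset.mem_filter.2 ⟨?_, hb⟩
          unfold Lll_G
          exact Finset.mem_filter.2 ⟨hx.1, fun e' he' =>
            hx.2 e' (he'.trans Finset.sdiff_subset)⟩
    have hcard : ((Lll_G L sup Bad S).card : ℝ) ≤ (Lll_G L sup Bad (insert v S)).card +
        ∑ e ∈ univ.filter (fun e => v ∈ sup e),
          (((Lll_G L sup Bad (S \ sup e)).filter fun x => Bad e x).card : ℝ) := by
      have h1 : (Lll_G L sup Bad S).card ≤ (Lll_G L sup Bad (insert v S)).card +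
          ∑ e ∈ univ.filter (fun e => v ∈ sup e),
            ((Lll_G L sup Bad (S \ sup e)).filter fun x => Bad e x).card :=
        (Finset.card_le_card hsub).trans ((Finset.card_union_le _ _).trans
          (Nat.add_le_add_left Finset.card_biUnion_le _))
      exact_mod_cast h1
    have hterm : ∀ e ∈ univ.filter (fun e => v ∈ sup e),
        (((Lll_G L sup Bad (S \ sup e)).filter fun x => Bad e x).card : ℝ) * P.card ≤
          ((Lll_G L sup Bad S).card : ℝ) * ((2 : ℝ) ^ ((sup e).card - 1) *
            ((P.filter (fun x => Bad e x)).card : ℝ)) := by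
      intro e he
      have hve : v ∈ sup e := (Finset.mem_filter.1 he).2
      obtain ⟨A, hAd⟩ : ∃ A : (V → Ω) → Prop,
          ∀ x, A x ↔ ∀ e', sup e' ⊆ S \ sup e → ¬ Bad e' x := ⟨_, fun x => Iff.rfl⟩
      obtain ⟨g, hg⟩ : ∃ g : (V → Ω) → ℝ, ∀ x, g x = if Bad e x then (1 : ℝ) else 0 :=
        ⟨_, fun x => rfl⟩
      have hi := Lll_indep L (sup e) g
        (fun x y hxy => by
          have h1 : Bad e x ↔ Bad e y :=
            ⟨hdep e x y hxy, hdep e y x fun v hv => (hxy v hv).symm⟩
          rw [hg, hg]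
          by_cases h : Bad e x
          · rw [if_pos h, if_pos (h1.1 h)]
          · rw [if_neg h, if_neg (fun h2 => h (h1.2 h2))]) A
        (fun x y hxy hx => (hAd y).2 (Lll_G_dep sup Bad hdep (S \ sup e) (sup e)
          (fun v hv => (Finset.mem_sdiff.1 hv).2) x y hxy ((hAd x).1 hx)))
      rw [← hP] at hi
      have c3 : P.filter (fun x => A x) = Lll_G L sup Bad (S \ sup e) := by
        unfold Lll_G
        rw [← hP]
        ext x
        rw [Finset.mem_filter, Finset.mem_filter, hAd x]
      rw [c3] at hi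
      have c1 : ∑ x ∈ Lll_G L sup Bad (S \ sup e), g x =
          (((Lll_G L sup Bad (S \ sup e)).filter fun x => Bad e x).card : ℝ) := by
        rw [← Finset.sum_boole]
        exact Finset.sum_congr rfl fun x _ => hg x
      have c2 : ∑ x ∈ P, g x = ((P.filter (fun x => Bad e x)).card : ℝ) := by
        rw [← Finset.sum_boole]
        exact Finset.sum_congr rfl fun x _ => hg x
      rw [c1, c2] at hi
      rw [hi]
      have hd := Lll_down L sup Bad m ih (S ∩ sup e) S Finset.inter_subset_left hSm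
      have e2 : S \ (S ∩ sup e) = S \ sup e := by
        ext w
        simp only [Finset.mem_sdiff, Finset.mem_inter]
        tauto
      rw [e2] at hd
      have hc : (S ∩ sup e).card ≤ (sup e).card - 1 := by
        have : (S ∩ sup e) ⊆ (sup e).erase v := by
          intro w hw
          rw [Finset.mem_inter] at hw
          exact Finset.mem_erase.2 ⟨fun h => hv (h ▸ hw.1), hw.2⟩
        refine (Finset.card_le_card this).trans ?_
        rw [Finset.card_erase_of_mem hve]
      have hpow : (2 : ℝ) ^ (S ∩ sup e).card ≤ 2 ^ ((sup e).card - 1) :=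
        pow_le_pow_right₀ (by norm_num) hc
      have hG : (0 : ℝ) ≤ (Lll_G L sup Bad S).card := Nat.cast_nonneg _
      have hB : (0 : ℝ) ≤ (P.filter (fun x => Bad e x)).card := Nat.cast_nonneg _
      calc ((Lll_G L sup Bad (S \ sup e)).card : ℝ) * ((P.filter (fun x => Bad e x)).card : ℝ)
          ≤ (2 ^ (S ∩ sup e).card * ((Lll_G L sup Bad S).card : ℝ)) *
            ((P.filter (fun x => Bad e x)).card : ℝ) := mul_le_mul_of_nonneg_right hd hB
        _ ≤ (2 ^ ((sup e).card - 1) * ((Lll_G L sup Bad S).card : ℝ)) *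
            ((P.filter (fun x => Bad e x)).card : ℝ) :=
          mul_le_mul_of_nonneg_right (mul_le_mul_of_nonneg_right hpow hG) hB
        _ = _ := by ring
    have hsum : (∑ e ∈ univ.filter (fun e => v ∈ sup e),
        (((Lll_G L sup Bad (S \ sup e)).filter fun x => Bad e x).card : ℝ)) * P.card ≤
          ((Lll_G L sup Bad S).card : ℝ) * (P.card / 2) := by
      rw [Finset.sum_mul]
      refine (Finset.sum_le_sum hterm).trans ?_
      rw [← Finset.mul_sum]
      exact mul_le_mul_of_nonneg_left (hE v) (Nat.cast_nonneg _)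
    have hfin : (∑ e ∈ univ.filter (fun e => v ∈ sup e),
        (((Lll_G L sup Bad (S \ sup e)).filter fun x => Bad e x).card : ℝ)) ≤
          ((Lll_G L sup Bad S).card : ℝ) / 2 := by
      have h1 : ((Lll_G L sup Bad S).card : ℝ) * (P.card / 2) =
          ((Lll_G L sup Bad S).card : ℝ) / 2 * P.card := by ring
      rw [h1] at hsum
      exact le_of_mul_le_mul_right hsum hPpos
    linarith

open Classical in
private theorem Lll_empty (L : V → Finset Ω) (sup : I → Finset V)
    (hsup : ∀ e, (sup e).Nonempty) (Bad : I → (V → Ω) → Prop) :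
    Lll_G L sup Bad ∅ = Fintype.piFinset L := by
  unfold Lll_G
  refine Finset.filter_true_of_mem fun x _ e he => ?_
  exact absurd (Finset.subset_empty.1 he) (hsup e).ne_empty

open Classical in
private theorem Lll_univ (L : V → Finset Ω) (sup : I → Finset V)
    (Bad : I → (V → Ω) → Prop) : Lll_G L sup Bad univ = goodS L Bad := by
  unfold Lll_G goodS
  refine Finset.filter_congr fun x _ => ?_
  exact ⟨fun h e => h e (Finset.subset_univ _), fun h e _ => h e⟩

open Classical in
theorem lll_pos (L : V → Finset Ω) (hL : ∀ v, (L v).Nonempty) (sup : I → Finset V)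
    (hsup : ∀ e, (sup e).Nonempty) (Bad : I → (V → Ω) → Prop)
    (hdep : ∀ e x y, (∀ v ∈ sup e, x v = y v) → Bad e x → Bad e y)
    (hE : ∀ v, ∑ e ∈ univ.filter (fun e => v ∈ sup e), (2 : ℝ) ^ ((sup e).card - 1) *
      (((Fintype.piFinset L).filter (fun x => Bad e x)).card : ℝ) ≤
        ((Fintype.piFinset L).card : ℝ) / 2) :
    (goodS L Bad).Nonempty := by
  have h := Lll_down L sup Bad (univ : Finset V).card
    (fun S hS v hv => Lll_step L hL sup Bad hdep hE _ S hS v hv) univ univ (Finset.Subset.refl _)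
    le_rfl
  rw [Finset.sdiff_self, Lll_empty L sup hsup Bad, Lll_univ] at h
  have hPpos : (0 : ℝ) < (Fintype.piFinset L).card := by
    exact_mod_cast Finset.card_pos.2 (Fintype.piFinset_nonempty.2 hL)
  rw [← Finset.card_pos]
  by_contra hcon
  have h0 : (goodS L Bad).card = 0 := by omega
  rw [h0] at h
  simp only [Nat.cast_zero, mul_zero] at h
  linarith

open Classical in
theorem lll (L : V → Finset Ω) (hL : ∀ v, (L v).Nonempty) (sup : I → Finset V)
    (hsup : ∀ e, (sup e).Nonempty) (Bad : I → (V → Ω) → Prop)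
    (hdep : ∀ e x y, (∀ v ∈ sup e, x v = y v) → Bad e x → Bad e y)
    (hE : ∀ v, ∑ e ∈ univ.filter (fun e => v ∈ sup e), (2 : ℝ) ^ ((sup e).card - 1) *
      (((Fintype.piFinset L).filter (fun x => Bad e x)).card : ℝ) ≤
        ((Fintype.piFinset L).card : ℝ) / 2)
    (T : Finset V) (f : (V → Ω) → ℝ) (hf : ∀ x, 0 ≤ f x)
    (hfT : ∀ x y, (∀ v ∈ T, x v = y v) → f x = f y) :
    (∑ x ∈ goodS L Bad, f x) * ((Fintype.piFinset L).card : ℝ) ≤
      2 ^ T.card * ((goodS L Bad).card : ℝ) * ∑ x ∈ Fintype.piFinset L, f x := by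
  have hd := Lll_down L sup Bad (univ : Finset V).card
    (fun S hS v hv => Lll_step L hL sup Bad hdep hE _ S hS v hv) T univ (Finset.subset_univ _)
    le_rfl
  rw [Lll_univ] at hd
  obtain ⟨A, hAd⟩ : ∃ A : (V → Ω) → Prop,
      ∀ x, A x ↔ ∀ e, sup e ⊆ univ \ T → ¬ Bad e x := ⟨_, fun x => Iff.rfl⟩
  have hi := Lll_indep L T f hfT A
    (fun x y hxy hx => (hAd y).2 (Lll_G_dep sup Bad hdep (univ \ T) T
      (fun v hv => (Finset.mem_sdiff.1 hv).2) x y hxy ((hAd x).1 hx)))
  have c3 : (Fintype.piFinset L).filter (fun x => A x) = Lll_G L sup Bad (univ \ T) := by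
    unfold Lll_G
    ext x
    rw [Finset.mem_filter, Finset.mem_filter, hAd x]
  rw [c3] at hi
  have hs : (0 : ℝ) ≤ ∑ x ∈ Fintype.piFinset L, f x := Finset.sum_nonneg fun x _ => hf x
  have hPpos : (0 : ℝ) ≤ (Fintype.piFinset L).card := Nat.cast_nonneg _
  have hsub : goodS L Bad ⊆ Lll_G L sup Bad (univ \ T) := by
    intro x hx
    unfold goodS at hx
    unfold Lll_G
    rw [Finset.mem_filter] at hx ⊢
    exact ⟨hx.1, fun e _ => hx.2 e⟩
  calc (∑ x ∈ goodS L Bad, f x) * ((Fintype.piFinset L).card : ℝ)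
      ≤ (∑ x ∈ Lll_G L sup Bad (univ \ T), f x) * ((Fintype.piFinset L).card : ℝ) :=
        mul_le_mul_of_nonneg_right
          (Finset.sum_le_sum_of_subset_of_nonneg hsub fun x _ _ => hf x) hPpos
    _ = ((Lll_G L sup Bad (univ \ T)).card : ℝ) * ∑ x ∈ Fintype.piFinset L, f x := hi
    _ ≤ (2 ^ T.card * ((goodS L Bad).card : ℝ)) * ∑ x ∈ Fintype.piFinset L, f x :=
        mul_le_mul_of_nonneg_right hd hs
    _ = _ := by ring

end

end FHA
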