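import Pool.Agent.FHT.Mg

/-!
# FHA.Meas2: from the uniform square to two probability measures without large atoms

PROOF (adapt `Pool/Agent/FHT/Meas.lean`, copy its private lemmas with new names).  Let `N = 2 N0 M` with `M` large.  For a
probability `ρ` on `range D` with cumulative sums `c(i) = ∑_{i' < i} ρ i'` let `F(j)`, `j < N`, be the least `i` with
`j < N c(i+1)`.  `F` is monotone with values `< D`; `F(j) = i` implies `N c(i) ≤ j < N c(i+1)`, so each fibre has at most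
`N ρ i + 1` elements.  Let `Z` be the set of the `(j, j')` (`j, j' < N`) with `(F₁ j, F₂ j') ∈ bad`;
`|Z| ≤ ∑_bad (N ρ₁ + 1)(N ρ₂ + 1) ≤ N^2 ∑_bad ρ₁ ρ₂ + 2 N D + D^2 ≤ (η/8) N^2 + 2 N D + D^2 ≤ (η/4) N^2` for `M` large.  Let `Z0` be
the set of the `(A, B)`, `A, B < N0`, such that all `(2 M A + x, 2 M B + y)`, `x, y < M`, are in `Z`.
`M^2 |Z0| ≤ |Z| ≤ (η/4) (2 N0 M)^2`, so `|Z0| ≤ η N0^2`.  `hpl` gives strictly increasing `A i`, `B j` with `(A i, B (σ i)) ∉ Z0`, so there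
are `x i, y i < M` with `(2 M A i + x i, 2 M B (σ i) + y i) ∉ Z`.  Put `a' i = 2 M A i + x i`, `b' j = 2 M B j + y (σ⁻¹ j)`,
`a = F₁ ∘ a'`, `b = F₂ ∘ b'`.  For `i < j` we have `a' i + M ≤ a' j`, similarly for `b'`.  `a`, `b` are monotone, and injective: if
`F(j) = F(j') = i` with `j + M ≤ j'` then `N c(i) ≤ j`, `j + M ≤ j' < N c(i+1)`, so `M < N ρ i = 2 N0 M ρ i ≤ M/2`, a contradiction.
(`k = 0` is trivial.)
-/

set_option linter.all false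

namespace FHA

open Finset

/-- every set of density at most `η` in the square of side `N0` misses a copy of `σ` -/
def Pl {k : ℕ} (σ : Equiv.Perm (Fin k)) (N0 : ℕ) (η : ℝ) : Prop :=
  ∀ Z : Finset (ℕ × ℕ), Z ⊆ range N0 ×ˢ range N0 → (Z.card : ℝ) ≤ η * (N0 : ℝ) ^ 2 →
    ∃ a c : Fin k → ℕ, StrictMono a ∧ StrictMono c ∧ (∀ i, a i < N0) ∧ (∀ i, c i < N0) ∧
      ∀ i, (a i, c (σ i)) ∉ Z

open Classical in
private theorem Meas2_quant {D N : ℕ} (ρ : ℕ → ℝ) (h : ∀ i, 0 ≤ ρ i)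
    (hs : ∑ i ∈ range D, ρ i = 1) : ∃ F : ℕ → ℕ, (∀ j < N, F j < D) ∧
      (∀ j < N, (N : ℝ) * ∑ i ∈ range (F j), ρ i ≤ j) ∧
      (∀ j < N, (j : ℝ) < (N : ℝ) * ∑ i ∈ range (F j + 1), ρ i) ∧
      ∀ j j', j ≤ j' → j' < N → F j ≤ F j' := by
  have hD : 1 ≤ D := by
    rcases Nat.eq_zero_or_pos D with h0 | h0
    · subst h0; simp at hs
    · exact h0
  have hex : ∀ j < N, ∃ i, (j : ℝ) < (N : ℝ) * ∑ i' ∈ range (i + 1), ρ i' := by
    intro j hj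
    refine ⟨D - 1, ?_⟩
    rw [Nat.sub_add_cancel hD, hs, mul_one]
    exact_mod_cast hj
  refine ⟨fun j => if h : ∃ i, (j : ℝ) < (N : ℝ) * ∑ i' ∈ range (i + 1), ρ i' then
    Nat.find h else 0, ?_, ?_, ?_, ?_⟩
  · intro j hj
    simp only [dif_pos (hex j hj)]
    have : Nat.find (hex j hj) ≤ D - 1 := by
      apply Nat.find_min'
      rw [Nat.sub_add_cancel hD, hs, mul_one]
      exact_mod_cast hj
    omega
  · intro j hj
    simp only [dif_pos (hex j hj)]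
    rcases Nat.eq_zero_or_pos (Nat.find (hex j hj)) with h0 | h0
    · rw [h0]; simp
    · have h1 := Nat.find_min (hex j hj) (m := Nat.find (hex j hj) - 1) (by omega)
      rw [Nat.sub_add_cancel h0] at h1
      exact not_lt.1 h1
  · intro j hj
    simp only [dif_pos (hex j hj)]
    exact Nat.find_spec (hex j hj)
  · intro j j' hjj hj'
    have hj : j < N := lt_of_le_of_lt hjj hj'
    simp only [dif_pos (hex j hj), dif_pos (hex j' hj')]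
    apply Nat.find_min'
    refine lt_of_le_of_lt ?_ (Nat.find_spec (hex j' hj'))
    exact_mod_cast hjj

private theorem Meas2_fib {N : ℕ} (ρ : ℕ → ℝ) (h : ∀ i, 0 ≤ ρ i) (F : ℕ → ℕ)
    (h1 : ∀ j < N, (N : ℝ) * ∑ i ∈ range (F j), ρ i ≤ j)
    (h2 : ∀ j < N, (j : ℝ) < (N : ℝ) * ∑ i ∈ range (F j + 1), ρ i) (i : ℕ) :
    (((range N).filter fun j => F j = i).card : ℝ) ≤ N * ρ i + 1 := by
  set x : ℝ := (N : ℝ) * ∑ i' ∈ range i, ρ i' with hx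
  have hx0 : 0 ≤ x := mul_nonneg (Nat.cast_nonneg _) (sum_nonneg fun i _ => h i)
  have hN0 : 0 ≤ (N : ℝ) * ρ i := mul_nonneg (Nat.cast_nonneg _) (h i)
  have hxy : (N : ℝ) * ∑ i' ∈ range (i + 1), ρ i' = x + N * ρ i := by
    rw [sum_range_succ, mul_add]
  have hsub : ((range N).filter fun j => F j = i) ⊆ Finset.Ico ⌈x⌉₊ ⌈x + N * ρ i⌉₊ := by
    intro j hj
    rw [mem_filter, mem_range] at hj
    have h3 := h1 j hj.1
    have h4 := h2 j hj.1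
    rw [hj.2] at h3 h4
    rw [hxy] at h4
    rw [Finset.mem_Ico]
    exact ⟨Nat.ceil_le.2 h3, Nat.lt_ceil.2 h4⟩
  have h5 := card_le_card hsub
  rw [Nat.card_Ico] at h5
  have h6 : (⌈x + N * ρ i⌉₊ : ℝ) < x + N * ρ i + 1 := Nat.ceil_lt_add_one (by linarith)
  have h7 : x ≤ (⌈x⌉₊ : ℝ) := Nat.le_ceil x
  have h8 : ⌈x⌉₊ ≤ ⌈x + N * ρ i⌉₊ := Nat.ceil_le_ceil (by linarith)
  have h9 : (((range N).filter fun j => F j = i).card : ℝ) ≤
      ((⌈x + N * ρ i⌉₊ - ⌈x⌉₊ : ℕ) : ℝ) := by exact_mod_cast h5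
  rw [Nat.cast_sub h8] at h9
  linarith

private theorem Meas2_card {N D : ℕ} (ρ₁ ρ₂ : ℕ → ℝ) (h1 : ∀ i, 0 ≤ ρ₁ i) (h2 : ∀ i, 0 ≤ ρ₂ i)
    (hs1 : ∑ i ∈ range D, ρ₁ i = 1) (hs2 : ∑ i ∈ range D, ρ₂ i = 1)
    (F G : ℕ → ℕ)
    (hF : ∀ i, (((range N).filter fun j => F j = i).card : ℝ) ≤ N * ρ₁ i + 1)
    (hG : ∀ i, (((range N).filter fun j => G j = i).card : ℝ) ≤ N * ρ₂ i + 1)
    (bad : Finset (ℕ × ℕ)) (hbad : bad ⊆ range D ×ˢ range D) :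
    ((((range N) ×ˢ (range N)).filter fun z => (F z.1, G z.2) ∈ bad).card : ℝ) ≤
      (N : ℝ) ^ 2 * ∑ z ∈ bad, ρ₁ z.1 * ρ₂ z.2 + 2 * N * D + (D : ℝ) ^ 2 := by
  classical
  have e1 : ((range N) ×ˢ (range N)).filter (fun z => (F z.1, G z.2) ∈ bad) =
      bad.biUnion fun y => ((range N).filter fun j => F j = y.1) ×ˢ
        ((range N).filter fun j => G j = y.2) := by
    ext ⟨u, v⟩
    simp only [mem_filter, mem_product, mem_range, mem_biUnion]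
    constructor
    · rintro ⟨⟨hu, hv⟩, hb⟩
      exact ⟨_, hb, ⟨hu, rfl⟩, ⟨hv, rfl⟩⟩
    · rintro ⟨⟨y1, y2⟩, hy, ⟨hu, hu'⟩, ⟨hv, hv'⟩⟩
      refine ⟨⟨hu, hv⟩, ?_⟩
      simp only at hu' hv'
      rw [hu', hv']
      exact hy
  have e2 : ((((range N) ×ˢ (range N)).filter fun z => (F z.1, G z.2) ∈ bad).card : ℝ) ≤
      ∑ y ∈ bad, ((N : ℝ) * ρ₁ y.1 + 1) * (N * ρ₂ y.2 + 1) := by
    rw [e1]
    have h3 : ((bad.biUnion fun y => ((range N).filter fun j => F j = y.1) ×ˢ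
        ((range N).filter fun j => G j = y.2)).card : ℝ) ≤
        ∑ y ∈ bad, (((((range N).filter fun j => F j = y.1) ×ˢ
        ((range N).filter fun j => G j = y.2)).card : ℕ) : ℝ) := by
      exact_mod_cast card_biUnion_le
    refine h3.trans (sum_le_sum fun y _ => ?_)
    rw [card_product]
    push_cast
    have h4 : (0 : ℝ) ≤ N * ρ₁ y.1 + 1 := by
      have := mul_nonneg (Nat.cast_nonneg (α := ℝ) N) (h1 y.1)
      linarith
    exact mul_le_mul (hF _) (hG _) (Nat.cast_nonneg _) h4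
  refine e2.trans ?_
  have h5 : ∑ y ∈ bad, ρ₁ y.1 ≤ (D : ℝ) := by
    calc ∑ y ∈ bad, ρ₁ y.1 ≤ ∑ y ∈ range D ×ˢ range D, ρ₁ y.1 :=
          sum_le_sum_of_subset_of_nonneg hbad fun _ _ _ => h1 _
      _ = (D : ℝ) := by
          rw [sum_product_right]
          simp [hs1]
  have h6 : ∑ y ∈ bad, ρ₂ y.2 ≤ (D : ℝ) := by
    calc ∑ y ∈ bad, ρ₂ y.2 ≤ ∑ y ∈ range D ×ˢ range D, ρ₂ y.2 :=
          sum_le_sum_of_subset_of_nonneg hbad fun _ _ _ => h2 _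
      _ = (D : ℝ) := by
          rw [sum_product]
          simp [hs2]
  have h7 : (bad.card : ℝ) ≤ (D : ℝ) ^ 2 := by
    have := card_le_card hbad
    rw [card_product, card_range] at this
    have h8 : (bad.card : ℝ) ≤ ((D * D : ℕ) : ℝ) := by exact_mod_cast this
    push_cast at h8
    nlinarith
  have h9 : ∑ y ∈ bad, ((N : ℝ) * ρ₁ y.1 + 1) * (N * ρ₂ y.2 + 1) =
      (N : ℝ) ^ 2 * ∑ z ∈ bad, ρ₁ z.1 * ρ₂ z.2 + N * ∑ y ∈ bad, ρ₁ y.1 +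
        N * ∑ y ∈ bad, ρ₂ y.2 + bad.card := by
    have h10 : ∀ y : ℕ × ℕ, ((N : ℝ) * ρ₁ y.1 + 1) * (N * ρ₂ y.2 + 1) =
        (N : ℝ) ^ 2 * (ρ₁ y.1 * ρ₂ y.2) + N * ρ₁ y.1 + N * ρ₂ y.2 + 1 := by
      intro y
      ring
    simp_rw [h10, sum_add_distrib, mul_sum]
    simp
  rw [h9]
  have hN : (0 : ℝ) ≤ N := Nat.cast_nonneg _
  nlinarith [mul_le_mul_of_nonneg_left h5 hN, mul_le_mul_of_nonneg_left h6 hN]

private theorem Meas2_inj {N M K : ℕ} (hN : N = K * M) (hM : 1 ≤ M) (ρ : ℕ → ℝ)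
    (ha : ∀ i, 2 * (K : ℝ) * ρ i ≤ 1) (F : ℕ → ℕ)
    (h1 : ∀ j < N, (N : ℝ) * ∑ i ∈ range (F j), ρ i ≤ j)
    (h2 : ∀ j < N, (j : ℝ) < (N : ℝ) * ∑ i ∈ range (F j + 1), ρ i)
    (hmono : ∀ j j', j ≤ j' → j' < N → F j ≤ F j') {u v : ℕ} (huv : u + M ≤ v) (hv : v < N) :
    F u < F v := by
  refine lt_of_le_of_ne (hmono u v (by omega) hv) fun heq => ?_
  have h3 := h1 u (by omega)
  have h4 := h2 v hv
  rw [← heq, sum_range_succ, mul_add] at h4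
  have h5 : (u : ℝ) + M ≤ v := by exact_mod_cast huv
  have h6 : (M : ℝ) < N * ρ (F u) := by linarith
  have h7 := ha (F u)
  have hM0 : (1 : ℝ) ≤ M := by exact_mod_cast hM
  rw [hN] at h6
  push_cast at h6
  nlinarith


theorem meas2 {k N0 D : ℕ} (σ : Equiv.Perm (Fin k)) {η : ℝ} (hη : 0 < η) (hN0 : 1 ≤ N0)
    (hpl : Pl σ N0 η) (ρ₁ ρ₂ : ℕ → ℝ) (h1 : ∀ i, 0 ≤ ρ₁ i) (h2 : ∀ i, 0 ≤ ρ₂ i)
    (hs1 : ∑ i ∈ range D, ρ₁ i = 1) (hs2 : ∑ i ∈ range D, ρ₂ i = 1)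
    (ha1 : ∀ i, 4 * (N0 : ℝ) * ρ₁ i ≤ 1) (ha2 : ∀ i, 4 * (N0 : ℝ) * ρ₂ i ≤ 1)
    (bad : Finset (ℕ × ℕ)) (hbad : bad ⊆ range D ×ˢ range D)
    (hb : 8 * ∑ z ∈ bad, ρ₁ z.1 * ρ₂ z.2 ≤ η) :
    ∃ a b : Fin k → ℕ, StrictMono a ∧ StrictMono b ∧ (∀ i, a i < D) ∧ (∀ i, b i < D) ∧
      ∀ i, (a i, b (σ i)) ∉ bad := by
  classical
  obtain ⟨M, hM⟩ : ∃ M : ℕ, M = ⌈8 / η * (2 * (D : ℝ) + (D : ℝ) ^ 2)⌉₊ + 1 := ⟨_, rfl⟩
  have hM1 : 1 ≤ M := by omega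
  have hMr : 8 / η * (2 * (D : ℝ) + (D : ℝ) ^ 2) ≤ M := by
    have := Nat.le_ceil (8 / η * (2 * (D : ℝ) + (D : ℝ) ^ 2))
    rw [hM]
    push_cast
    linarith
  have hMη : 8 * (2 * (D : ℝ) + (D : ℝ) ^ 2) ≤ η * M := by
    have h3 := mul_le_mul_of_nonneg_left hMr hη.le
    have h4 : η * (8 / η * (2 * (D : ℝ) + (D : ℝ) ^ 2)) = 8 * (2 * (D : ℝ) + (D : ℝ) ^ 2) := by
      field_simp
    linarith
  obtain ⟨N, hN⟩ : ∃ N, N = 2 * N0 * M := ⟨_, rfl⟩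
  have hNM : M ≤ N := by
    rw [hN]
    exact Nat.le_mul_of_pos_left M (by omega)
  obtain ⟨F, hF1, hF2, hF3, hF4⟩ := Meas2_quant (N := N) ρ₁ h1 hs1
  obtain ⟨G, hG1, hG2, hG3, hG4⟩ := Meas2_quant (N := N) ρ₂ h2 hs2
  have hcard := Meas2_card (N := N) ρ₁ ρ₂ h1 h2 hs1 hs2 F G (Meas2_fib ρ₁ h1 F hF2 hF3)
    (Meas2_fib ρ₂ h2 G hG2 hG3) bad hbad
  obtain ⟨Z, hZ⟩ : ∃ Z, Z = ((range N) ×ˢ (range N)).filter fun z => (F z.1, G z.2) ∈ bad :=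
    ⟨_, rfl⟩
  rw [← hZ] at hcard
  have hZ2 : 4 * (Z.card : ℝ) ≤ η * (N : ℝ) ^ 2 := by
    have hN1 : (1 : ℝ) ≤ N := by
      have : 1 ≤ N := hM1.trans hNM
      exact_mod_cast this
    have hNM' : (M : ℝ) ≤ N := by exact_mod_cast hNM
    have h3 : 8 * (2 * (D : ℝ) + (D : ℝ) ^ 2) ≤ η * N :=
      hMη.trans (mul_le_mul_of_nonneg_left hNM' hη.le)
    have h4 : 8 * ((N : ℝ) ^ 2 * ∑ z ∈ bad, ρ₁ z.1 * ρ₂ z.2) ≤ (N : ℝ) ^ 2 * η := by
      calc 8 * ((N : ℝ) ^ 2 * ∑ z ∈ bad, ρ₁ z.1 * ρ₂ z.2) =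
          (N : ℝ) ^ 2 * (8 * ∑ z ∈ bad, ρ₁ z.1 * ρ₂ z.2) := by ring
        _ ≤ (N : ℝ) ^ 2 * η := mul_le_mul_of_nonneg_left hb (by positivity)
    have h6 : 2 * (N : ℝ) * D + (D : ℝ) ^ 2 ≤ N * (2 * D + (D : ℝ) ^ 2) := by
      have : (D : ℝ) ^ 2 ≤ N * (D : ℝ) ^ 2 := le_mul_of_one_le_left (by positivity) hN1
      linarith
    have h5 : 8 * (2 * (N : ℝ) * D + (D : ℝ) ^ 2) ≤ η * (N : ℝ) ^ 2 := by
      calc 8 * (2 * (N : ℝ) * D + (D : ℝ) ^ 2) ≤ 8 * (N * (2 * D + (D : ℝ) ^ 2)) := by linarith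
        _ = N * (8 * (2 * (D : ℝ) + (D : ℝ) ^ 2)) := by ring
        _ ≤ N * (η * N) := mul_le_mul_of_nonneg_left h3 (by positivity)
        _ = η * (N : ℝ) ^ 2 := by ring
    linarith
  obtain ⟨Z0, hZ0⟩ : ∃ Z0, Z0 = ((range N0) ×ˢ (range N0)).filter fun z =>
    ∀ x < M, ∀ y < M, (2 * M * z.1 + x, 2 * M * z.2 + y) ∈ Z := ⟨_, rfl⟩
  have hZ0s : Z0 ⊆ range N0 ×ˢ range N0 := by
    rw [hZ0]
    exact filter_subset _ _
  have hcard0 : Z0.card * (M * M) ≤ Z.card := by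
    have h3 : (Z0 ×ˢ (range M ×ˢ range M)).card = Z0.card * (M * M) := by
      rw [card_product, card_product, card_range]
    rw [← h3]
    refine card_le_card_of_injOn
      (fun p => (2 * M * p.1.1 + p.2.1, 2 * M * p.1.2 + p.2.2)) ?_ ?_
    · intro p hp
      have hp' := Finset.mem_coe.1 hp
      rw [mem_product, mem_product, mem_range, mem_range, hZ0, mem_filter] at hp'
      exact Finset.mem_coe.2 (hp'.1.2 _ hp'.2.1 _ hp'.2.2)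
    · rintro ⟨⟨u, v⟩, x, y⟩ hp ⟨⟨u', v'⟩, x', y'⟩ hq he
      have hp' := Finset.mem_coe.1 hp
      have hq' := Finset.mem_coe.1 hq
      rw [mem_product, mem_product, mem_range, mem_range] at hp' hq'
      simp only [Prod.mk.injEq] at he
      obtain ⟨e1, e2⟩ := he
      obtain ⟨-, hx, hy⟩ := hp'
      obtain ⟨-, hx', hy'⟩ := hq'
      simp only at hx hy hx' hy'
      have key : ∀ s s' t t' : ℕ, t < M → t' < M → 2 * M * s + t = 2 * M * s' + t' →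
          s = s' ∧ t = t' := by
        intro s s' t t' ht ht' he
        have h2M : 0 < 2 * M := by omega
        have e3 : (2 * M * s + t) / (2 * M) = s := by
          rw [Nat.mul_add_div h2M, Nat.div_eq_of_lt (by omega), add_zero]
        have e4 : (2 * M * s' + t') / (2 * M) = s' := by
          rw [Nat.mul_add_div h2M, Nat.div_eq_of_lt (by omega), add_zero]
        have e5 : s = s' := by rw [← e3, ← e4, he]
        subst e5
        exact ⟨rfl, by omega⟩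
      obtain ⟨k1, k2⟩ := key _ _ _ _ hx hx' e1
      obtain ⟨k3, k4⟩ := key _ _ _ _ hy hy' e2
      subst k1 k2 k3 k4
      rfl
  have hZ0c : (Z0.card : ℝ) ≤ η * (N0 : ℝ) ^ 2 := by
    have h3 : (Z0.card : ℝ) * (M * M) ≤ Z.card := by exact_mod_cast hcard0
    have hM0 : (0 : ℝ) < (M : ℝ) * M := by
      have : (0 : ℝ) < M := by exact_mod_cast hM1
      positivity
    have h4 : 4 * (Z.card : ℝ) ≤ η * (2 * (N0 : ℝ) * M) ^ 2 := by
      have h5 : (N : ℝ) = 2 * N0 * M := by rw [hN]; push_cast; ring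
      rw [← h5]
      exact hZ2
    have h6 : (Z0.card : ℝ) * (M * M) ≤ η * (N0 : ℝ) ^ 2 * (M * M) := by nlinarith
    exact le_of_mul_le_mul_right h6 hM0
  obtain ⟨A, C, hA, hC, hAN, hCN, hAC⟩ := hpl Z0 hZ0s hZ0c
  have hxy : ∀ i, ∃ x y : ℕ, x < M ∧ y < M ∧ (2 * M * A i + x, 2 * M * C (σ i) + y) ∉ Z := by
    intro i
    by_contra hcon
    push Not at hcon
    apply hAC i
    rw [hZ0, mem_filter, mem_product, mem_range, mem_range]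
    exact ⟨⟨hAN i, hCN (σ i)⟩, fun x hx y hy => hcon x y hx hy⟩
  choose x y hx hy hxyZ using hxy
  have step : ∀ s s' t t' : ℕ, t < M → s < s' → 2 * M * s + t + M ≤ 2 * M * s' + t' := by
    intro s s' t t' ht hs
    have : 2 * M * (s + 1) ≤ 2 * M * s' := Nat.mul_le_mul_left _ hs
    have e : 2 * M * (s + 1) = 2 * M * s + 2 * M := by ring
    omega
  have bnd : ∀ s t : ℕ, t < M → s < N0 → 2 * M * s + t < N := by
    intro s t ht hs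
    have : 2 * M * (s + 1) ≤ 2 * M * N0 := Nat.mul_le_mul_left _ hs
    have e : 2 * M * (s + 1) = 2 * M * s + 2 * M := by ring
    have e' : N = 2 * M * N0 := by rw [hN]; ring
    omega
  have hA1 : ∀ i, 2 * ((2 * N0 : ℕ) : ℝ) * ρ₁ i ≤ 1 := by
    intro i
    refine le_trans (le_of_eq ?_) (ha1 i)
    push_cast
    ring
  have hA2 : ∀ i, 2 * ((2 * N0 : ℕ) : ℝ) * ρ₂ i ≤ 1 := by
    intro i
    refine le_trans (le_of_eq ?_) (ha2 i)
    push_cast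
    ring
  refine ⟨fun i => F (2 * M * A i + x i), fun i => G (2 * M * C i + y (σ.symm i)), ?_, ?_,
    fun i => hF1 _ (bnd _ _ (hx i) (hAN i)), fun i => hG1 _ (bnd _ _ (hy _) (hCN i)), ?_⟩
  · intro i j hij
    exact Meas2_inj (K := 2 * N0) hN hM1 ρ₁ hA1 F hF2 hF3 hF4 (step _ _ _ _ (hx i) (hA hij))
      (bnd _ _ (hx j) (hAN j))
  · intro i j hij
    exact Meas2_inj (K := 2 * N0) hN hM1 ρ₂ hA2 G hG2 hG3 hG4 (step _ _ _ _ (hy _) (hC hij))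
      (bnd _ _ (hy _) (hCN j))
  · intro i hi
    refine hxyZ i ?_
    rw [hZ, mem_filter, mem_product, mem_range, mem_range]
    refine ⟨⟨bnd _ _ (hx i) (hAN i), bnd _ _ (hy i) (hCN (σ i))⟩, ?_⟩
    have e : σ.symm (σ i) = i := σ.symm_apply_apply i
    simp only [e] at hi
    exact hi

end FHA
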