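import Pool.Agent.FHA.Dens

/-!
# FHA.Reg: for most pairs of scales the irregular points are rare

PROOF.  Write `φ = Real.negMulLog`, `z(u,v)` for densities.
`reg_local`: let `z = dens (a+1) (b+1) u v` and `z_ij` its `n ^ 2` children, with mean `z` (`dens_split`).
Then `n ^ 2 φ(z) - ∑ φ(z_ij) = ∑ z_ij log (z_ij / z) = ∑ (z_ij log (z_ij / z) - z_ij + z)` (terms with `z_ij = 0`
are `z ≥ 0`; if `z = 0` all `z_ij` are `0` and both sides are `0`).  Each term is `≥ 0`
(`Real.add_one_le_exp` or `1 - 1/x ≤ log x`, i.e. `Real.one_sub_inv_le_log_of_pos`), and if `z_ij > 2 z` it is at least `z_ij / 6`: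
with `x = z_ij / z ≥ 2` the claim is `log x - 1 + 1/x ≥ 1/6`, true for `x = 2` (`log 2 > 0.69`), and
`log x + 1/x` is increasing for `x ≥ 1` (or: `log x = log 2 + log (x/2) ≥ log 2 + 1 - 2/x`, so
`log x - 1 + 1/x ≥ log 2 - 1/x ≥ log 2 - 1/2 ≥ 1/6`).
`reg`: let `F j j' = (∑_{u < n^j} ∑_{v < n^j'} φ (dens (A-j) (B-j') (U n^j + u) (V n^j' + v))) / (n^j n^j')`.
`F ≥ 0` as `0 ≤ dens ≤ 1`; `F j j' ≤ φ (dens A B U V)` by concavity of `φ` (`Real.concaveOn_negMulLog`, Jensen
`ConcaveOn.le_map_sum`) and `dens_sum`.  By `reg_local` (summed over `u`, `v`, with `FHT.sum_digits`) the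
summand of the statement is at most `6 (F j j' - F (j+1) (j'+1))` for `j, j' < J`.  Sum over `j, j' < J`: by telescoping
`∑_{j,j'<J} F j j' - ∑_{j,j'<J} F (j+1) (j'+1) ≤ ∑_{j'<J} F 0 j' + ∑_{j<J} F j 0 ≤ 2 J φ` (the other terms
cancel or are `≤ 0`).
-/

namespace FHA

open Finset

/-- the pointwise inequality behind `reg_local` -/
private theorem Reg_point {x z : ℝ} (hx : 0 ≤ x) (hz : 0 ≤ z) (h0 : z = 0 → x = 0) :
    (if 2 * z < x then x else 0) ≤
      6 * (-Real.negMulLog x - x * Real.log z - x + z) := by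
  rcases hz.eq_or_lt with hz' | hz'
  · have h := h0 hz'.symm
    subst h
    rw [← hz']
    simp
  rcases hx.eq_or_lt with hx' | hx'
  · rw [← hx', if_neg (by linarith)]
    simp
    linarith
  have ht : 0 < x / z := div_pos hx' hz'
  have e1 : -Real.negMulLog x - x * Real.log z = x * Real.log (x / z) := by
    rw [Real.negMulLog, Real.log_div hx'.ne' hz'.ne']
    ring
  have e2 : z = x * (x / z)⁻¹ := by
    field_simp
  have e3 : -Real.negMulLog x - x * Real.log z - x + z =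
      x * (Real.log (x / z) - 1 + (x / z)⁻¹) := by
    rw [e1]
    nth_rewrite 2 [e2]
    ring
  rw [e3]
  split_ifs with h
  · have h2 : 0 < x / z / 2 := by positivity
    have h3 := Real.one_sub_inv_le_log_of_pos h2
    have h4 : Real.log (x / z / 2) = Real.log (x / z) - Real.log 2 :=
      Real.log_div ht.ne' (by norm_num)
    have h5 := Real.log_two_gt_d9
    have h6 : (x / z / 2)⁻¹ = 2 * (x / z)⁻¹ := by
      rw [inv_div]
      ring
    have h7 : 2 < x / z := by
      rw [lt_div_iff₀ hz']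
      linarith
    have h8 : (x / z)⁻¹ ≤ 1 / 2 := by
      rw [← one_div]
      exact one_div_le_one_div_of_le (by norm_num) h7.le
    have h9 : 1 / 6 ≤ Real.log (x / z) - 1 + (x / z)⁻¹ := by
      rw [h4, h6] at h3
      linarith
    nlinarith
  · have h3 := Real.one_sub_inv_le_log_of_pos ht
    have h4 : 0 ≤ Real.log (x / z) - 1 + (x / z)⁻¹ := by linarith
    positivity

theorem reg_local {n : ℕ} (hn : 1 ≤ n) (Z : Finset (ℕ × ℕ)) (a b u v : ℕ) :
    irr n Z a b u v ≤ 6 * (Real.negMulLog (dens n Z (a + 1) (b + 1) u v) -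
      (∑ i ∈ range n, ∑ j ∈ range n, Real.negMulLog (dens n Z a b (u * n + i) (v * n + j))) /
        (n : ℝ) ^ 2) := by
  have hn' : (0 : ℝ) < n := by exact_mod_cast hn
  have hn2 : (0 : ℝ) < (n : ℝ) ^ 2 := by positivity
  set z := dens n Z (a + 1) (b + 1) u v with hz
  have hz0 : 0 ≤ z := dens_nonneg _ _ _ _ _ _
  have hs := dens_split hn Z a b u v
  rw [← hz] at hs
  have hzero : z = 0 → ∀ i ∈ range n, ∀ j ∈ range n,
      dens n Z a b (u * n + i) (v * n + j) = 0 := by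
    intro h i hi j hj
    rw [h, mul_zero] at hs
    have h1 := (Finset.sum_eq_zero_iff_of_nonneg (fun i _ =>
      Finset.sum_nonneg fun j _ => dens_nonneg n Z a b (u * n + i) (v * n + j))).1 hs i hi
    exact (Finset.sum_eq_zero_iff_of_nonneg (fun j _ =>
      dens_nonneg n Z a b (u * n + i) (v * n + j))).1 h1 j hj
  have key : (∑ i ∈ range n, ∑ j ∈ range n,
      if 2 * z < dens n Z a b (u * n + i) (v * n + j) then
        dens n Z a b (u * n + i) (v * n + j) else 0) ≤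
      6 * ((n : ℝ) ^ 2 * Real.negMulLog z -
        ∑ i ∈ range n, ∑ j ∈ range n, Real.negMulLog (dens n Z a b (u * n + i) (v * n + j))) := by
    calc (∑ i ∈ range n, ∑ j ∈ range n,
        if 2 * z < dens n Z a b (u * n + i) (v * n + j) then
          dens n Z a b (u * n + i) (v * n + j) else 0)
        ≤ ∑ i ∈ range n, ∑ j ∈ range n,
          6 * (-Real.negMulLog (dens n Z a b (u * n + i) (v * n + j)) -
            dens n Z a b (u * n + i) (v * n + j) * Real.log z -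
            dens n Z a b (u * n + i) (v * n + j) + z) :=
          Finset.sum_le_sum fun i hi => Finset.sum_le_sum fun j hj =>
            Reg_point (dens_nonneg _ _ _ _ _ _) hz0 fun h => hzero h i hi j hj
      _ = _ := by
          simp only [← Finset.mul_sum, Finset.sum_add_distrib, Finset.sum_sub_distrib,
            ← Finset.sum_mul, Finset.sum_neg_distrib]
          rw [hs]
          simp only [Finset.sum_const, Finset.card_range, nsmul_eq_mul]
          rw [Real.negMulLog]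
          ring
  have h2 : irr n Z a b u v = (∑ i ∈ range n, ∑ j ∈ range n,
      if 2 * z < dens n Z a b (u * n + i) (v * n + j) then
        dens n Z a b (u * n + i) (v * n + j) else 0) / (n : ℝ) ^ 2 := rfl
  rw [h2, div_le_iff₀ hn2]
  refine key.trans (le_of_eq ?_)
  field_simp

/-- the entropy at depth `(j, j')` -/
private noncomputable def Reg_F (n : ℕ) (Z : Finset (ℕ × ℕ)) (A B U V j j' : ℕ) : ℝ :=
  (∑ u ∈ range (n ^ j), ∑ v ∈ range (n ^ j'),
    Real.negMulLog (dens n Z (A - j) (B - j') (U * n ^ j + u) (V * n ^ j' + v))) /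
      ((n : ℝ) ^ j * (n : ℝ) ^ j')

private theorem Reg_F_nonneg {n : ℕ} (hn : 1 ≤ n) (Z : Finset (ℕ × ℕ)) (A B U V j j' : ℕ) :
    0 ≤ Reg_F n Z A B U V j j' := by
  unfold Reg_F
  refine div_nonneg (Finset.sum_nonneg fun u _ => Finset.sum_nonneg fun v _ => ?_) (by positivity)
  exact Real.negMulLog_nonneg (dens_nonneg _ _ _ _ _ _) (dens_le_one hn _ _ _ _ _)

private theorem Reg_F_le {n : ℕ} (hn : 1 ≤ n) (Z : Finset (ℕ × ℕ)) (A B U V j j' : ℕ)
    (hj : j ≤ A) (hj' : j' ≤ B) :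
    Reg_F n Z A B U V j j' ≤ Real.negMulLog (dens n Z A B U V) := by
  have hn' : (0 : ℝ) < n := by exact_mod_cast hn
  have hc : (0 : ℝ) < (n : ℝ) ^ j * (n : ℝ) ^ j' := by positivity
  set c : ℝ := (n : ℝ) ^ j * (n : ℝ) ^ j' with hcdef
  have hJ := Real.concaveOn_negMulLog.le_map_sum (t := range (n ^ j) ×ˢ range (n ^ j'))
    (w := fun _ => c⁻¹)
    (p := fun q => dens n Z (A - j) (B - j') (U * n ^ j + q.1) (V * n ^ j' + q.2))
    (fun _ _ => by positivity)
    (by
      rw [Finset.sum_const, Finset.card_product, Finset.card_range, Finset.card_range,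
        nsmul_eq_mul]
      push_cast
      exact mul_inv_cancel₀ hc.ne')
    (fun q _ => dens_nonneg _ _ _ _ _ _)
  simp only [smul_eq_mul] at hJ
  rw [← Finset.mul_sum, ← Finset.mul_sum, Finset.sum_product, Finset.sum_product] at hJ
  simp only at hJ
  rw [dens_sum hn, Nat.sub_add_cancel hj, Nat.sub_add_cancel hj', ← hcdef, ← mul_assoc,
    inv_mul_cancel₀ hc.ne', one_mul] at hJ
  unfold Reg_F
  rw [← hcdef, div_eq_inv_mul]
  exact hJ

private theorem Reg_F_step {n : ℕ} (hn : 1 ≤ n) (Z : Finset (ℕ × ℕ)) (A B U V j j' : ℕ)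
    (hj : j + 1 ≤ A) (hj' : j' + 1 ≤ B) :
    (∑ u ∈ range (n ^ j), ∑ v ∈ range (n ^ j'),
        irr n Z (A - (j + 1)) (B - (j' + 1)) (U * n ^ j + u) (V * n ^ j' + v)) /
          ((n : ℝ) ^ j * (n : ℝ) ^ j') ≤
      6 * (Reg_F n Z A B U V j j' - Reg_F n Z A B U V (j + 1) (j' + 1)) := by
  have hn' : (0 : ℝ) < n := by exact_mod_cast hn
  have hc : (0 : ℝ) < (n : ℝ) ^ j * (n : ℝ) ^ j' := by positivity
  have hA : A - (j + 1) + 1 = A - j := by omega
  have hB : B - (j' + 1) + 1 = B - j' := by omega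
  have h1 : ∑ u ∈ range (n ^ j), ∑ v ∈ range (n ^ j'),
        irr n Z (A - (j + 1)) (B - (j' + 1)) (U * n ^ j + u) (V * n ^ j' + v) ≤
      ∑ u ∈ range (n ^ j), ∑ v ∈ range (n ^ j'),
        6 * (Real.negMulLog (dens n Z (A - j) (B - j') (U * n ^ j + u) (V * n ^ j' + v)) -
          (∑ i ∈ range n, ∑ k ∈ range n, Real.negMulLog (dens n Z (A - (j + 1)) (B - (j' + 1))
            ((U * n ^ j + u) * n + i) ((V * n ^ j' + v) * n + k))) / (n : ℝ) ^ 2) := by
    refine Finset.sum_le_sum fun u _ => Finset.sum_le_sum fun v _ => ?_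
    have := reg_local hn Z (A - (j + 1)) (B - (j' + 1)) (U * n ^ j + u) (V * n ^ j' + v)
    rw [hA, hB] at this
    exact this
  have h2 : ∑ u ∈ range (n ^ (j + 1)), ∑ v ∈ range (n ^ (j' + 1)),
      Real.negMulLog (dens n Z (A - (j + 1)) (B - (j' + 1)) (U * n ^ (j + 1) + u)
        (V * n ^ (j' + 1) + v)) =
      ∑ u ∈ range (n ^ j), ∑ v ∈ range (n ^ j'), ∑ i ∈ range n, ∑ k ∈ range n,
        Real.negMulLog (dens n Z (A - (j + 1)) (B - (j' + 1))
            ((U * n ^ j + u) * n + i) ((V * n ^ j' + v) * n + k)) := by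
    rw [pow_succ n j, pow_succ n j', FHT.sum_digits]
    refine Finset.sum_congr rfl fun u _ => ?_
    rw [Finset.sum_comm]
    rw [FHT.sum_digits]
    refine Finset.sum_congr rfl fun v _ => ?_
    rw [Finset.sum_comm]
    refine Finset.sum_congr rfl fun i _ => Finset.sum_congr rfl fun k _ => ?_
    congr 2
    · ring
    · ring
  have h3 : Reg_F n Z A B U V (j + 1) (j' + 1) =
      ((∑ u ∈ range (n ^ j), ∑ v ∈ range (n ^ j'), ∑ i ∈ range n, ∑ k ∈ range n,
        Real.negMulLog (dens n Z (A - (j + 1)) (B - (j' + 1))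
            ((U * n ^ j + u) * n + i) ((V * n ^ j' + v) * n + k))) / (n : ℝ) ^ 2) /
        ((n : ℝ) ^ j * (n : ℝ) ^ j') := by
    unfold Reg_F
    rw [h2, div_div]
    congr 1
    ring
  rw [div_le_iff₀ hc]
  refine h1.trans (le_of_eq ?_)
  rw [h3]
  unfold Reg_F
  simp only [← Finset.mul_sum, Finset.sum_sub_distrib, ← Finset.sum_div]
  field_simp

private theorem Reg_shift (J : ℕ) (g : ℕ → ℝ) (hg : 0 ≤ g J) :
    ∑ j ∈ range J, g j ≤ g 0 + ∑ j ∈ range J, g (j + 1) := by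
  have h1 : ∑ j ∈ range (J + 1), g j = ∑ j ∈ range J, g j + g J := Finset.sum_range_succ _ _
  have h2 : ∑ j ∈ range (J + 1), g j = ∑ j ∈ range J, g (j + 1) + g 0 :=
    Finset.sum_range_succ' _ _
  linarith

theorem reg {n : ℕ} (hn : 1 ≤ n) (Z : Finset (ℕ × ℕ)) (J A B U V : ℕ) (hA : J ≤ A) (hB : J ≤ B) :
    ∑ j ∈ range J, ∑ j' ∈ range J,
      (∑ u ∈ range (n ^ j), ∑ v ∈ range (n ^ j'),
        irr n Z (A - (j + 1)) (B - (j' + 1)) (U * n ^ j + u) (V * n ^ j' + v)) /
          ((n : ℝ) ^ j * (n : ℝ) ^ j') ≤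
      12 * J * Real.negMulLog (dens n Z A B U V) := by
  set φ := Real.negMulLog (dens n Z A B U V) with hφ
  set F := Reg_F n Z A B U V with hF
  have hF0 : ∀ j j', 0 ≤ F j j' := fun j j' => Reg_F_nonneg hn Z A B U V j j'
  have hF1 : ∀ j j', j ≤ J → j' ≤ J → F j j' ≤ φ := fun j j' h h' =>
    Reg_F_le hn Z A B U V j j' (h.trans hA) (h'.trans hB)
  have h1 : ∑ j ∈ range J, ∑ j' ∈ range J,
      (∑ u ∈ range (n ^ j), ∑ v ∈ range (n ^ j'),
        irr n Z (A - (j + 1)) (B - (j' + 1)) (U * n ^ j + u) (V * n ^ j' + v)) /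
          ((n : ℝ) ^ j * (n : ℝ) ^ j') ≤
      ∑ j ∈ range J, ∑ j' ∈ range J, 6 * (F j j' - F (j + 1) (j' + 1)) := by
    refine Finset.sum_le_sum fun j hj => Finset.sum_le_sum fun j' hj' => ?_
    rw [Finset.mem_range] at hj hj'
    exact Reg_F_step hn Z A B U V j j' (by omega) (by omega)
  refine h1.trans ?_
  have h2 : ∑ j ∈ range J, ∑ j' ∈ range J, 6 * (F j j' - F (j + 1) (j' + 1)) =
      6 * (∑ j ∈ range J, ∑ j' ∈ range J, F j j' -
        ∑ j ∈ range J, ∑ j' ∈ range J, F (j + 1) (j' + 1)) := by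
    simp only [← Finset.mul_sum, Finset.sum_sub_distrib]
  rw [h2]
  have h3 : ∑ j ∈ range J, ∑ j' ∈ range J, F j j' ≤
      ∑ j' ∈ range J, F 0 j' + ∑ j ∈ range J, ∑ j' ∈ range J, F (j + 1) j' :=
    Reg_shift J (fun j => ∑ j' ∈ range J, F j j') (Finset.sum_nonneg fun j' _ => hF0 _ _)
  have h4 : ∑ j ∈ range J, ∑ j' ∈ range J, F (j + 1) j' ≤
      ∑ j ∈ range J, (F (j + 1) 0 + ∑ j' ∈ range J, F (j + 1) (j' + 1)) :=
    Finset.sum_le_sum fun j _ => Reg_shift J (fun j' => F (j + 1) j') (hF0 _ _)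
  rw [Finset.sum_add_distrib] at h4
  have h5 : ∑ j' ∈ range J, F 0 j' ≤ J * φ := by
    calc ∑ j' ∈ range J, F 0 j' ≤ ∑ j' ∈ range J, φ :=
          Finset.sum_le_sum fun j' hj' => hF1 0 j' (Nat.zero_le _) (Finset.mem_range.1 hj').le
      _ = J * φ := by simp
  have h6 : ∑ j ∈ range J, F (j + 1) 0 ≤ J * φ := by
    calc ∑ j ∈ range J, F (j + 1) 0 ≤ ∑ j ∈ range J, φ :=
          Finset.sum_le_sum fun j hj => hF1 (j + 1) 0 (Finset.mem_range.1 hj) (Nat.zero_le _)
      _ = J * φ := by simp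
  linarith

end FHA
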