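import Pool.Agent.FHA.Lll

/-!
# FHA.Sel: the selection lemma

Row variables `s g`, column variables `r h` (`g, h < N`) in a finite set `Ω`; nonnegative functions `Φ g h` of
`(s g, r h)` whose mean values have all row sums and column sums at most `1`.  Then one can choose all variables
such that the row sums and column sums of the `Φ g h (s g) (r h)` are at most `16 (t+1)`, `4 N < 2 ^ t`.

PROOF.  (`N = 0` is trivial.)  `V = Fin N ⊕ Fin N`.  For `g` let `L g` be the set of the `x ∈ Ω` with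
`∑_h ∑_y Φ g h x y ≤ 2 |Ω|`; by `hrow` more than half of the `x` are in `L g` (or: at least half), similarly for columns.
Let `E` denote the mean over the product of the lists.  For `x ∈ L g`:
`∑_h E_{y ∈ L h} Φ g h x y ≤ ∑_h (2/|Ω|) ∑_y Φ g h x y ≤ 4`  (*), and the same for columns.
Bad events: `e = (g,h)`, `sup e = {inl g, inr h}`, `Bad e x` iff `Φ g h (x g) (x h) > 16`.  By Markov and (*)
`∑_h P(Bad (g,h)) ≤ 4/16`, so the hypothesis of `lll` (`2 ^ (2-1) * P`, sum `≤ 1/2`) holds for row variables, and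
in the same way for column variables.
Exponential moments: fix `g` and let `ψ_h(x,y) = exp(Φ g h x y / 16) - 1` if `Φ g h x y ≤ 16` and `0` otherwise;
`0 ≤ ψ_h ≤ (e - 1) Φ g h / 16` (convexity of `exp` on `[0,1]`), so `∑_h E_y ψ_h(x,y) ≤ (e-1)/4` for `x ∈ L g`.  On the
good choices `exp(S_g / 16) = ∏_h (1 + ψ_h(x_g, x_h)) = ∑_{U ⊆ [N]} ∏_{h ∈ U} ψ_h(x_g, x_h)` (`Finset.prod_one_add` or
`Finset.prod_add`), where `S_g = ∑_h Φ g h (x_g) (x_h)`.  By `lll` with `T = {g} ∪ U` the mean over the good choices of the term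
of `U` is at most `2 ^ (|U|+1) E_{x_g} ∏_{h∈U} E_{x_h} ψ_h(x_g,x_h)`; summing over `U`:
`≤ 2 E_{x_g} ∏_h (1 + 2 E ψ_h) ≤ 2 exp(2 (e-1)/4) < 5`.  Hence the fraction of the good choices with
`S_g > 16 (t+1)` is at most `5 exp(-(t+1)) < 2 * 2 ^ (-t)`, and the same for columns.  The union bound over the `2 N` sums gives
a fraction `< 4 N 2 ^ (-t) < 1`.  As there are good choices (`lll_pos`), one of them satisfies everything.
-/

namespace FHA

open Finset

section Sel

variable {V Ω : Type} [Fintype V] [DecidableEq V] [Fintype Ω] [DecidableEq Ω]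

private theorem Sel_split (L : V → Finset Ω) (v : V) (G : (V → Ω) → ℝ) :
    ∑ x ∈ Fintype.piFinset L, G x =
      ∑ a ∈ L v, ∑ x ∈ Fintype.piFinset (Function.update L v {a}), G x := by
  rw [← Finset.sum_fiberwise_of_maps_to (s := Fintype.piFinset L) (t := L v) (g := fun x => x v)
    (fun x hx => Fintype.mem_piFinset.1 hx v)]
  refine Finset.sum_congr rfl fun a ha => ?_
  refine Finset.sum_congr ?_ fun _ _ => rfl
  ext x
  simp only [mem_filter, Fintype.mem_piFinset]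
  constructor
  · rintro ⟨h1, h2⟩ u
    by_cases hu : u = v
    · subst hu
      rw [Function.update_self, mem_singleton]
      exact h2
    · rw [Function.update_of_ne hu]
      exact h1 u
  · intro h
    have h2 : x v = a := by
      have := h v
      rwa [Function.update_self, mem_singleton] at this
    refine ⟨fun u => ?_, h2⟩
    by_cases hu : u = v
    · subst hu
      rw [h2]
      exact ha
    · have := h u
      rwa [Function.update_of_ne hu] at this

private theorem Sel_card (L : V → Finset Ω) (v : V) :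
    ∑ a ∈ L v, ((Fintype.piFinset (Function.update L v {a})).card : ℝ) =
      ((Fintype.piFinset L).card : ℝ) := by
  have h := Sel_split L v (fun _ => (1 : ℝ))
  simp only [sum_const, nsmul_eq_mul, mul_one] at h
  exact h.symm

private theorem Sel_sub (L : V → Finset Ω) (v : V) {a : Ω} (ha : a ∈ L v) :
    Fintype.piFinset (Function.update L v {a}) ⊆ Fintype.piFinset L := by
  refine Fintype.piFinset_subset _ _ fun u => ?_
  by_cases hu : u = v
  · subst hu
    rw [Function.update_self]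
    exact Finset.singleton_subset_iff.2 ha
  · rw [Function.update_of_ne hu]

/-- the mean over the list -/
private noncomputable def Sel_av (S : Finset Ω) (f : Ω → ℝ) : ℝ := (∑ b ∈ S, f b) / S.card

private theorem Sel_one (L : V → Finset Ω) (hL : ∀ v, (L v).Nonempty) (w : V) (f : Ω → ℝ) :
    ∑ x ∈ Fintype.piFinset L, f (x w) = ((Fintype.piFinset L).card : ℝ) * Sel_av (L w) f := by
  have hc : ∀ a ∈ L w, ((Fintype.piFinset (Function.update L w {a})).card : ℝ) * (L w).card =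
      ((Fintype.piFinset L).card : ℝ) := by
    intro a _
    rw [Fintype.card_piFinset, Fintype.card_piFinset]
    have h1 : ∀ u, (Function.update L w {a} u).card = Function.update (fun u => (L u).card) w 1 u := by
      intro u
      by_cases hu : u = w
      · subst hu
        rw [Function.update_self, Function.update_self, card_singleton]
      · rw [Function.update_of_ne hu, Function.update_of_ne hu]
    rw [Finset.prod_congr rfl fun u _ => h1 u, Finset.prod_update_of_mem (mem_univ w), one_mul]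
    rw [← Finset.prod_sdiff (Finset.subset_univ {w}), Finset.prod_singleton]
    push_cast
    rfl
  have h0 : (0 : ℝ) < (L w).card := by exact_mod_cast (hL w).card_pos
  rw [Sel_split L w]
  unfold Sel_av
  rw [mul_div_assoc', eq_div_iff h0.ne', Finset.sum_mul, Finset.mul_sum]
  refine Finset.sum_congr rfl fun a ha => ?_
  rw [← hc a ha]
  have h2 : ∀ x ∈ Fintype.piFinset (Function.update L w {a}), f (x w) = f a := by
    intro x hx
    have := Fintype.mem_piFinset.1 hx w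
    rw [Function.update_self, mem_singleton] at this
    rw [this]
  rw [Finset.sum_congr rfl h2, sum_const, nsmul_eq_mul]
  ring

/-- product functions -/
private theorem Sel_prod (L : V → Finset Ω) (hL : ∀ v, (L v).Nonempty) (k : V → Ω → ℝ)
    (hk : ∀ w b, 0 ≤ k w b) :
    ∑ x ∈ Fintype.piFinset L, ∏ w, (1 + k w (x w)) ≤
      ((Fintype.piFinset L).card : ℝ) * Real.exp (∑ w, Sel_av (L w) (k w)) := by
  have h := Finset.prod_univ_sum L (fun w b => 1 + k w b)
  rw [← h, Real.exp_sum, Fintype.card_piFinset]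
  push_cast
  rw [← Finset.prod_mul_distrib]
  refine Finset.prod_le_prod (fun w _ => ?_) (fun w _ => ?_)
  · exact Finset.sum_nonneg fun b _ => by linarith [hk w b]
  · have h0 : (0 : ℝ) < (L w).card := by exact_mod_cast (hL w).card_pos
    have h1 : ∑ b ∈ L w, (1 + k w b) = (L w).card * (1 + Sel_av (L w) (k w)) := by
      unfold Sel_av
      rw [Finset.sum_add_distrib, sum_const, nsmul_eq_mul, mul_one, mul_add, mul_one,
        mul_div_cancel₀ _ h0.ne']
    rw [h1]
    refine mul_le_mul_of_nonneg_left ?_ h0.le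
    have := Real.add_one_le_exp (Sel_av (L w) (k w))
    linarith

/-- the truncated exponential -/
private noncomputable def Sel_psi (z : ℝ) : ℝ := if z ≤ 16 then Real.exp (z / 16) - 1 else 0

private theorem Sel_psi_nonneg {z : ℝ} (hz : 0 ≤ z) : 0 ≤ Sel_psi z := by
  unfold Sel_psi
  split_ifs
  · have := Real.one_le_exp (by positivity : 0 ≤ z / 16)
    linarith
  · exact le_rfl

private theorem Sel_psi_le {z : ℝ} (hz : 0 ≤ z) : Sel_psi z ≤ (Real.exp 1 - 1) * z / 16 := by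
  have he : (1 : ℝ) ≤ Real.exp 1 := Real.one_le_exp (by norm_num)
  unfold Sel_psi
  split_ifs with h
  · have hc := convexOn_exp.2 (Set.mem_univ (0 : ℝ)) (Set.mem_univ (1 : ℝ))
      (by linarith : 0 ≤ 1 - z / 16) (by positivity : 0 ≤ z / 16) (by ring)
    simp only [smul_eq_mul, mul_zero, mul_one, zero_add, Real.exp_zero] at hc
    have : (Real.exp 1 - 1) * z / 16 = z / 16 * (Real.exp 1 - 1) := by ring
    rw [this]
    linarith
  · have : 0 ≤ Real.exp 1 - 1 := by linarith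
    positivity

private theorem Sel_psi_exp {z : ℝ} (hz : z ≤ 16) : 1 + Sel_psi z = Real.exp (z / 16) := by
  unfold Sel_psi
  rw [if_pos hz]
  ring

private theorem Sel_psi_zero : Sel_psi 0 = 0 := by
  unfold Sel_psi
  rw [if_pos (by norm_num), zero_div, Real.exp_zero, sub_self]

variable [Nonempty Ω]

/-- the lists -/
private noncomputable def Sel_L (Ψ : V → V → Ω → Ω → ℝ) (v : V) : Finset Ω :=
  univ.filter fun a => ∑ w, ∑ b, Ψ v w a b ≤ 2 * (Fintype.card Ω : ℝ)

private theorem Sel_L_half (Ψ : V → V → Ω → Ω → ℝ) (h0 : ∀ v w a b, 0 ≤ Ψ v w a b)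
    (hrow : ∀ v, ∑ w, ∑ a, ∑ b, Ψ v w a b ≤ (Fintype.card Ω : ℝ) ^ 2) (v : V) :
    (Fintype.card Ω : ℝ) ≤ 2 * (Sel_L Ψ v).card := by
  classical
  have hc : (0 : ℝ) < Fintype.card Ω := by exact_mod_cast Fintype.card_pos
  have h1 : (Fintype.card Ω : ℝ) = (Sel_L Ψ v).card +
      ((univ.filter fun a => ¬ (∑ w, ∑ b, Ψ v w a b ≤ 2 * (Fintype.card Ω : ℝ))).card : ℝ) := by
    unfold Sel_L
    rw [← Nat.cast_add, Finset.card_filter_add_card_filter_not, card_univ]
  have h2 : 2 * (Fintype.card Ω : ℝ) *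
      ((univ.filter fun a => ¬ (∑ w, ∑ b, Ψ v w a b ≤ 2 * (Fintype.card Ω : ℝ))).card : ℝ) ≤
      (Fintype.card Ω : ℝ) ^ 2 := by
    refine le_trans ?_ (hrow v)
    have h3 : ∑ w, ∑ a, ∑ b, Ψ v w a b = ∑ a, ∑ w, ∑ b, Ψ v w a b := Finset.sum_comm
    rw [h3]
    calc 2 * (Fintype.card Ω : ℝ) *
        ((univ.filter fun a => ¬ (∑ w, ∑ b, Ψ v w a b ≤ 2 * (Fintype.card Ω : ℝ))).card : ℝ)
        = ∑ a ∈ univ.filter (fun a => ¬ (∑ w, ∑ b, Ψ v w a b ≤ 2 * (Fintype.card Ω : ℝ))),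
            2 * (Fintype.card Ω : ℝ) := by
          rw [sum_const, nsmul_eq_mul]
          ring
      _ ≤ ∑ a ∈ univ.filter (fun a => ¬ (∑ w, ∑ b, Ψ v w a b ≤ 2 * (Fintype.card Ω : ℝ))),
            ∑ w, ∑ b, Ψ v w a b := by
          refine Finset.sum_le_sum fun a ha => ?_
          rw [mem_filter, not_le] at ha
          exact ha.2.le
      _ ≤ ∑ a, ∑ w, ∑ b, Ψ v w a b := by
          refine Finset.sum_le_sum_of_subset_of_nonneg (filter_subset _ _) fun a _ _ => ?_
          exact Finset.sum_nonneg fun w _ => Finset.sum_nonneg fun b _ => h0 v w a b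
  have h4 : 2 * ((univ.filter fun a => ¬ (∑ w, ∑ b, Ψ v w a b ≤ 2 * (Fintype.card Ω : ℝ))).card : ℝ)
      ≤ Fintype.card Ω := by
    have h5 : (Fintype.card Ω : ℝ) * (2 *
        ((univ.filter fun a => ¬ (∑ w, ∑ b, Ψ v w a b ≤ 2 * (Fintype.card Ω : ℝ))).card : ℝ)) ≤
        (Fintype.card Ω : ℝ) * Fintype.card Ω := by
      calc _ = 2 * (Fintype.card Ω : ℝ) *
        ((univ.filter fun a => ¬ (∑ w, ∑ b, Ψ v w a b ≤ 2 * (Fintype.card Ω : ℝ))).card : ℝ) := by ring
        _ ≤ (Fintype.card Ω : ℝ) ^ 2 := h2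
        _ = _ := by ring
    exact le_of_mul_le_mul_left h5 hc
  linarith

private theorem Sel_L_ne (Ψ : V → V → Ω → Ω → ℝ) (h0 : ∀ v w a b, 0 ≤ Ψ v w a b)
    (hrow : ∀ v, ∑ w, ∑ a, ∑ b, Ψ v w a b ≤ (Fintype.card Ω : ℝ) ^ 2) (v : V) :
    (Sel_L Ψ v).Nonempty := by
  rw [← Finset.card_pos]
  have hc : (0 : ℝ) < Fintype.card Ω := by exact_mod_cast Fintype.card_pos
  have h1 := Sel_L_half Ψ h0 hrow v
  have h2 : (0 : ℝ) < (Sel_L Ψ v).card := by linarith
  exact_mod_cast h2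

/-- (*) -/
private theorem Sel_star (Ψ : V → V → Ω → Ω → ℝ) (h0 : ∀ v w a b, 0 ≤ Ψ v w a b)
    (hrow : ∀ v, ∑ w, ∑ a, ∑ b, Ψ v w a b ≤ (Fintype.card Ω : ℝ) ^ 2) (v : V) {a : Ω}
    (ha : a ∈ Sel_L Ψ v) : ∑ w, Sel_av (Sel_L Ψ w) (Ψ v w a) ≤ 4 := by
  have hc : (0 : ℝ) < Fintype.card Ω := by exact_mod_cast Fintype.card_pos
  have h1 : ∀ w, Sel_av (Sel_L Ψ w) (Ψ v w a) ≤ 2 / (Fintype.card Ω : ℝ) * ∑ b, Ψ v w a b := by
    intro w
    have h2 := Sel_L_half Ψ h0 hrow w
    have h3 : ∑ b ∈ Sel_L Ψ w, Ψ v w a b ≤ ∑ b, Ψ v w a b :=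
      Finset.sum_le_sum_of_subset_of_nonneg (Finset.subset_univ _) fun b _ _ => h0 v w a b
    have h4 : 0 ≤ ∑ b, Ψ v w a b := Finset.sum_nonneg fun b _ => h0 v w a b
    have h5 : (0 : ℝ) < (Sel_L Ψ w).card := by linarith
    unfold Sel_av
    rw [div_le_iff₀ h5]
    calc ∑ b ∈ Sel_L Ψ w, Ψ v w a b ≤ ∑ b, Ψ v w a b := h3
      _ = (∑ b, Ψ v w a b) * ((Fintype.card Ω : ℝ) / Fintype.card Ω) := by
          rw [div_self hc.ne', mul_one]
      _ ≤ (∑ b, Ψ v w a b) * (2 * (Sel_L Ψ w).card / Fintype.card Ω) := by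
          refine mul_le_mul_of_nonneg_left ?_ h4
          gcongr
      _ = 2 / (Fintype.card Ω : ℝ) * (∑ b, Ψ v w a b) * (Sel_L Ψ w).card := by ring
  calc ∑ w, Sel_av (Sel_L Ψ w) (Ψ v w a) ≤ ∑ w, 2 / (Fintype.card Ω : ℝ) * ∑ b, Ψ v w a b :=
        Finset.sum_le_sum fun w _ => h1 w
    _ = 2 / (Fintype.card Ω : ℝ) * ∑ w, ∑ b, Ψ v w a b := by rw [← Finset.mul_sum]
    _ ≤ 2 / (Fintype.card Ω : ℝ) * (2 * (Fintype.card Ω : ℝ)) := by
        refine mul_le_mul_of_nonneg_left ?_ (by positivity)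
        exact (mem_filter.1 ha).2
    _ = 4 := by
        field_simp
        norm_num

private theorem Sel_star_update (Ψ : V → V → Ω → Ω → ℝ) (hd : ∀ v a b, Ψ v v a b = 0) (v : V) (a : Ω)
    (L : V → Finset Ω) (F : ℝ → ℝ) (hF : F 0 = 0) (w : V) :
    Sel_av (Function.update L v {a} w) (fun b => F (Ψ v w a b)) =
      Sel_av (L w) (fun b => F (Ψ v w a b)) := by
  by_cases hw : w = v
  · subst hw
    unfold Sel_av
    simp only [hd, hF, sum_const_zero, zero_div]
  · rw [Function.update_of_ne hw]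

private theorem Sel_upd_ne (L : V → Finset Ω) (hL : ∀ v, (L v).Nonempty) (v : V) (a : Ω) (w : V) :
    (Function.update L v {a} w).Nonempty := by
  by_cases hw : w = v
  · subst hw
    rw [Function.update_self]
    exact Finset.singleton_nonempty a
  · rw [Function.update_of_ne hw]
    exact hL w

private theorem Sel_at {L : V → Finset Ω} {v : V} {a : Ω} {x : V → Ω}
    (hx : x ∈ Fintype.piFinset (Function.update L v {a})) : x v = a := by
  have := Fintype.mem_piFinset.1 hx v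
  rwa [Function.update_self, mem_singleton] at this

/-- first moments -/
private theorem Sel_first (Ψ : V → V → Ω → Ω → ℝ) (h0 : ∀ v w a b, 0 ≤ Ψ v w a b)
    (hd : ∀ v a b, Ψ v v a b = 0)
    (hrow : ∀ v, ∑ w, ∑ a, ∑ b, Ψ v w a b ≤ (Fintype.card Ω : ℝ) ^ 2) (v : V) :
    ∑ w, ∑ x ∈ Fintype.piFinset (Sel_L Ψ), Ψ v w (x v) (x w) ≤
      4 * ((Fintype.piFinset (Sel_L Ψ)).card : ℝ) := by
  have hL := Sel_L_ne Ψ h0 hrow
  rw [Finset.sum_comm, Sel_split (Sel_L Ψ) v, ← Sel_card (Sel_L Ψ) v, Finset.mul_sum]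
  refine Finset.sum_le_sum fun a ha => ?_
  calc ∑ x ∈ Fintype.piFinset (Function.update (Sel_L Ψ) v {a}), ∑ w, Ψ v w (x v) (x w)
      = ∑ x ∈ Fintype.piFinset (Function.update (Sel_L Ψ) v {a}), ∑ w, Ψ v w a (x w) := by
        refine Finset.sum_congr rfl fun x hx => ?_
        rw [Sel_at hx]
    _ = ∑ w, ∑ x ∈ Fintype.piFinset (Function.update (Sel_L Ψ) v {a}), Ψ v w a (x w) :=
        Finset.sum_comm
    _ = ∑ w, ((Fintype.piFinset (Function.update (Sel_L Ψ) v {a})).card : ℝ) *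
          Sel_av (Sel_L Ψ w) (Ψ v w a) := by
        refine Finset.sum_congr rfl fun w _ => ?_
        rw [Sel_one (Function.update (Sel_L Ψ) v {a}) (Sel_upd_ne _ hL v a) w (Ψ v w a)]
        congr 1
        exact Sel_star_update Ψ hd v a (Sel_L Ψ) (fun z => z) rfl w
    _ = ((Fintype.piFinset (Function.update (Sel_L Ψ) v {a})).card : ℝ) *
          ∑ w, Sel_av (Sel_L Ψ w) (Ψ v w a) := by rw [Finset.mul_sum]
    _ ≤ ((Fintype.piFinset (Function.update (Sel_L Ψ) v {a})).card : ℝ) * 4 :=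
        mul_le_mul_of_nonneg_left (Sel_star Ψ h0 hrow v ha) (Nat.cast_nonneg _)
    _ = _ := by ring

/-- exponential moments over the product of the lists -/
private theorem Sel_expo (Ψ : V → V → Ω → Ω → ℝ) (h0 : ∀ v w a b, 0 ≤ Ψ v w a b)
    (hd : ∀ v a b, Ψ v v a b = 0)
    (hrow : ∀ v, ∑ w, ∑ a, ∑ b, Ψ v w a b ≤ (Fintype.card Ω : ℝ) ^ 2) (v : V) :
    ∑ x ∈ Fintype.piFinset (Sel_L Ψ), ∏ w, (1 + 2 * Sel_psi (Ψ v w (x v) (x w))) ≤
      ((Fintype.piFinset (Sel_L Ψ)).card : ℝ) * Real.exp ((Real.exp 1 - 1) / 2) := by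
  have hL := Sel_L_ne Ψ h0 hrow
  have he : (1 : ℝ) ≤ Real.exp 1 := Real.one_le_exp (by norm_num)
  rw [Sel_split (Sel_L Ψ) v, ← Sel_card (Sel_L Ψ) v, Finset.sum_mul]
  refine Finset.sum_le_sum fun a ha => ?_
  calc ∑ x ∈ Fintype.piFinset (Function.update (Sel_L Ψ) v {a}),
        ∏ w, (1 + 2 * Sel_psi (Ψ v w (x v) (x w)))
      = ∑ x ∈ Fintype.piFinset (Function.update (Sel_L Ψ) v {a}),
        ∏ w, (1 + (fun w b => 2 * Sel_psi (Ψ v w a b)) w (x w)) := by
        refine Finset.sum_congr rfl fun x hx => ?_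
        rw [Sel_at hx]
    _ ≤ ((Fintype.piFinset (Function.update (Sel_L Ψ) v {a})).card : ℝ) *
          Real.exp (∑ w, Sel_av (Function.update (Sel_L Ψ) v {a} w)
            ((fun w b => 2 * Sel_psi (Ψ v w a b)) w)) := by
        refine Sel_prod _ (Sel_upd_ne _ hL v a) (fun w b => 2 * Sel_psi (Ψ v w a b)) fun w b => ?_
        have := Sel_psi_nonneg (h0 v w a b)
        linarith
    _ ≤ ((Fintype.piFinset (Function.update (Sel_L Ψ) v {a})).card : ℝ) *
          Real.exp ((Real.exp 1 - 1) / 2) := by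
        refine mul_le_mul_of_nonneg_left ?_ (Nat.cast_nonneg _)
        rw [Real.exp_le_exp]
        calc ∑ w, Sel_av (Function.update (Sel_L Ψ) v {a} w) (fun b => 2 * Sel_psi (Ψ v w a b))
            = ∑ w, Sel_av (Sel_L Ψ w) (fun b => 2 * Sel_psi (Ψ v w a b)) := by
              refine Finset.sum_congr rfl fun w _ => ?_
              exact Sel_star_update Ψ hd v a (Sel_L Ψ) (fun z => 2 * Sel_psi z)
                (by simp only [Sel_psi_zero, mul_zero]) w
          _ ≤ ∑ w, (Real.exp 1 - 1) / 8 * Sel_av (Sel_L Ψ w) (Ψ v w a) := by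
              refine Finset.sum_le_sum fun w _ => ?_
              unfold Sel_av
              rw [mul_div_assoc', Finset.mul_sum]
              refine div_le_div_of_nonneg_right ?_ (Nat.cast_nonneg _)
              refine Finset.sum_le_sum fun b _ => ?_
              have := Sel_psi_le (h0 v w a b)
              linarith
          _ = (Real.exp 1 - 1) / 8 * ∑ w, Sel_av (Sel_L Ψ w) (Ψ v w a) := by rw [Finset.mul_sum]
          _ ≤ (Real.exp 1 - 1) / 8 * 4 :=
              mul_le_mul_of_nonneg_left (Sel_star Ψ h0 hrow v ha) (by linarith)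
          _ = (Real.exp 1 - 1) / 2 := by ring

/-- the bad events -/
private def Sel_Bad (Ψ : V → V → Ω → Ω → ℝ) (o : V → V → Prop) (e : V × V) (x : V → Ω) : Prop :=
  o e.1 e.2 ∧ 16 < Ψ e.1 e.2 (x e.1) (x e.2)

open Classical in
private theorem Sel_bad_card (Ψ : V → V → Ω → Ω → ℝ) (h0 : ∀ v w a b, 0 ≤ Ψ v w a b)
    (L : V → Finset Ω) (v w : V) :
    (((Fintype.piFinset L).filter fun x => 16 < Ψ v w (x v) (x w)).card : ℝ) ≤
      (∑ x ∈ Fintype.piFinset L, Ψ v w (x v) (x w)) / 16 := by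
  rw [le_div_iff₀ (by norm_num)]
  calc (((Fintype.piFinset L).filter fun x => 16 < Ψ v w (x v) (x w)).card : ℝ) * 16
      = ∑ x ∈ (Fintype.piFinset L).filter (fun x => 16 < Ψ v w (x v) (x w)), (16 : ℝ) := by
        rw [sum_const, nsmul_eq_mul]
    _ ≤ ∑ x ∈ (Fintype.piFinset L).filter (fun x => 16 < Ψ v w (x v) (x w)), Ψ v w (x v) (x w) := by
        refine Finset.sum_le_sum fun x hx => ?_
        exact (mem_filter.1 hx).2.le
    _ ≤ _ := Finset.sum_le_sum_of_subset_of_nonneg (filter_subset _ _) fun x _ _ => h0 _ _ _ _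

open Classical in
private theorem Sel_hE (Ψ : V → V → Ω → Ω → ℝ) (h0 : ∀ v w a b, 0 ≤ Ψ v w a b)
    (hs : ∀ v w a b, Ψ v w a b = Ψ w v b a)
    (hd : ∀ v a b, Ψ v v a b = 0)
    (hrow : ∀ v, ∑ w, ∑ a, ∑ b, Ψ v w a b ≤ (Fintype.card Ω : ℝ) ^ 2) (o : V → V → Prop)
    (ho : ∀ v w, o v w → ¬ o w v) (v : V) :
    ∑ e ∈ univ.filter (fun e : V × V => v ∈ ({e.1, e.2} : Finset V)),
      (2 : ℝ) ^ (({e.1, e.2} : Finset V).card - 1) *
      (((Fintype.piFinset (Sel_L Ψ)).filter (fun x => Sel_Bad Ψ o e x)).card : ℝ) ≤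
        ((Fintype.piFinset (Sel_L Ψ)).card : ℝ) / 2 := by
  have h1 : ∀ e : V × V, (2 : ℝ) ^ (({e.1, e.2} : Finset V).card - 1) ≤ 2 := by
    intro e
    have h2 : ({e.1, e.2} : Finset V).card ≤ 2 := Finset.card_le_two
    calc (2 : ℝ) ^ (({e.1, e.2} : Finset V).card - 1) ≤ 2 ^ 1 :=
          pow_le_pow_right₀ (by norm_num) (by omega)
      _ = 2 := pow_one 2
  -- the contribution of one other variable
  have h3 : ∀ w, (((Fintype.piFinset (Sel_L Ψ)).filter (fun x => Sel_Bad Ψ o (v, w) x)).card : ℝ) +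
      (((Fintype.piFinset (Sel_L Ψ)).filter (fun x => Sel_Bad Ψ o (w, v) x)).card : ℝ) ≤
      (((Fintype.piFinset (Sel_L Ψ)).filter fun x => 16 < Ψ v w (x v) (x w)).card : ℝ) := by
    intro w
    by_cases hvw : o v w
    · have h4 : (Fintype.piFinset (Sel_L Ψ)).filter (fun x => Sel_Bad Ψ o (w, v) x) = ∅ := by
        rw [Finset.filter_eq_empty_iff]
        intro x _ hx
        exact ho v w hvw hx.1
      rw [h4, card_empty, Nat.cast_zero, add_zero]
      have h5 : (Fintype.piFinset (Sel_L Ψ)).filter (fun x => Sel_Bad Ψ o (v, w) x) ⊆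
          (Fintype.piFinset (Sel_L Ψ)).filter fun x => 16 < Ψ v w (x v) (x w) := by
        intro x hx
        rw [mem_filter] at hx ⊢
        exact ⟨hx.1, hx.2.2⟩
      exact_mod_cast Finset.card_le_card h5
    · have h4 : (Fintype.piFinset (Sel_L Ψ)).filter (fun x => Sel_Bad Ψ o (v, w) x) = ∅ := by
        rw [Finset.filter_eq_empty_iff]
        intro x _ hx
        exact hvw hx.1
      rw [h4, card_empty, Nat.cast_zero, zero_add]
      have h5 : (Fintype.piFinset (Sel_L Ψ)).filter (fun x => Sel_Bad Ψ o (w, v) x) ⊆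
          (Fintype.piFinset (Sel_L Ψ)).filter fun x => 16 < Ψ v w (x v) (x w) := by
        intro x hx
        rw [mem_filter] at hx ⊢
        refine ⟨hx.1, ?_⟩
        rw [hs]
        exact hx.2.2
      exact_mod_cast Finset.card_le_card h5
  have h6 : ∀ e : V × V, v ∈ ({e.1, e.2} : Finset V) →
      (2 : ℝ) ^ (({e.1, e.2} : Finset V).card - 1) *
      (((Fintype.piFinset (Sel_L Ψ)).filter (fun x => Sel_Bad Ψ o e x)).card : ℝ) ≤
      (if e.1 = v then
        2 * (((Fintype.piFinset (Sel_L Ψ)).filter (fun x => Sel_Bad Ψ o e x)).card : ℝ) else 0) +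
      (if e.2 = v then
        2 * (((Fintype.piFinset (Sel_L Ψ)).filter (fun x => Sel_Bad Ψ o e x)).card : ℝ) else 0) := by
    intro e he
    have h7 := mul_le_mul_of_nonneg_right (h1 e)
      (Nat.cast_nonneg (α := ℝ) ((Fintype.piFinset (Sel_L Ψ)).filter (fun x => Sel_Bad Ψ o e x)).card)
    have h8 : (0 : ℝ) ≤
        2 * (((Fintype.piFinset (Sel_L Ψ)).filter (fun x => Sel_Bad Ψ o e x)).card : ℝ) := by positivity
    rw [mem_insert, mem_singleton] at he
    rcases he with he | he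
    · rw [if_pos he.symm]
      split_ifs <;> linarith
    · rw [if_pos he.symm]
      split_ifs <;> linarith
  calc ∑ e ∈ univ.filter (fun e : V × V => v ∈ ({e.1, e.2} : Finset V)),
      (2 : ℝ) ^ (({e.1, e.2} : Finset V).card - 1) *
      (((Fintype.piFinset (Sel_L Ψ)).filter (fun x => Sel_Bad Ψ o e x)).card : ℝ)
      ≤ ∑ e ∈ univ.filter (fun e : V × V => v ∈ ({e.1, e.2} : Finset V)),
      ((if e.1 = v then
        2 * (((Fintype.piFinset (Sel_L Ψ)).filter (fun x => Sel_Bad Ψ o e x)).card : ℝ) else 0) +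
      (if e.2 = v then
        2 * (((Fintype.piFinset (Sel_L Ψ)).filter (fun x => Sel_Bad Ψ o e x)).card : ℝ) else 0)) :=
        Finset.sum_le_sum fun e he => h6 e (mem_filter.1 he).2
    _ ≤ ∑ e : V × V,
      ((if e.1 = v then
        2 * (((Fintype.piFinset (Sel_L Ψ)).filter (fun x => Sel_Bad Ψ o e x)).card : ℝ) else 0) +
      (if e.2 = v then
        2 * (((Fintype.piFinset (Sel_L Ψ)).filter (fun x => Sel_Bad Ψ o e x)).card : ℝ) else 0)) := by
        refine Finset.sum_le_sum_of_subset_of_nonneg (filter_subset _ _) fun e _ _ => ?_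
        have h8 : (0 : ℝ) ≤
          2 * (((Fintype.piFinset (Sel_L Ψ)).filter (fun x => Sel_Bad Ψ o e x)).card : ℝ) := by
          positivity
        split_ifs <;> linarith
    _ = ∑ w, 2 * ((((Fintype.piFinset (Sel_L Ψ)).filter (fun x => Sel_Bad Ψ o (v, w) x)).card : ℝ) +
      (((Fintype.piFinset (Sel_L Ψ)).filter (fun x => Sel_Bad Ψ o (w, v) x)).card : ℝ)) := by
        rw [Finset.sum_add_distrib]
        have h9 : ∑ e : V × V, (if e.1 = v then
          2 * (((Fintype.piFinset (Sel_L Ψ)).filter (fun x => Sel_Bad Ψ o e x)).card : ℝ) else 0) =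
          ∑ w, 2 * (((Fintype.piFinset (Sel_L Ψ)).filter
            (fun x => Sel_Bad Ψ o (v, w) x)).card : ℝ) := by
          rw [Fintype.sum_prod_type, Finset.sum_comm]
          refine Finset.sum_congr rfl fun w _ => ?_
          simp only [Finset.sum_ite_eq', mem_univ, if_true]
        have h10 : ∑ e : V × V, (if e.2 = v then
          2 * (((Fintype.piFinset (Sel_L Ψ)).filter (fun x => Sel_Bad Ψ o e x)).card : ℝ) else 0) =
          ∑ w, 2 * (((Fintype.piFinset (Sel_L Ψ)).filter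
            (fun x => Sel_Bad Ψ o (w, v) x)).card : ℝ) := by
          rw [Fintype.sum_prod_type]
          refine Finset.sum_congr rfl fun w _ => ?_
          simp only [Finset.sum_ite_eq', mem_univ, if_true]
        rw [h9, h10, ← Finset.sum_add_distrib]
        refine Finset.sum_congr rfl fun w _ => ?_
        ring
    _ ≤ ∑ w, (∑ x ∈ Fintype.piFinset (Sel_L Ψ), Ψ v w (x v) (x w)) / 8 := by
        refine Finset.sum_le_sum fun w _ => ?_
        have h11 := h3 w
        have h12 := Sel_bad_card Ψ h0 (Sel_L Ψ) v w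
        linarith
    _ ≤ ((Fintype.piFinset (Sel_L Ψ)).card : ℝ) / 2 := by
        rw [← Finset.sum_div]
        have h13 := Sel_first Ψ h0 hd hrow v
        linarith

/-- exponential moments over the good choices -/
private theorem Sel_good_expo (Ψ : V → V → Ω → Ω → ℝ) (h0 : ∀ v w a b, 0 ≤ Ψ v w a b)
    (hs : ∀ v w a b, Ψ v w a b = Ψ w v b a)
    (hd : ∀ v a b, Ψ v v a b = 0)
    (hrow : ∀ v, ∑ w, ∑ a, ∑ b, Ψ v w a b ≤ (Fintype.card Ω : ℝ) ^ 2) (o : V → V → Prop)
    (ho : ∀ v w, o v w → ¬ o w v) (v : V) :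
    ∑ x ∈ goodS (Sel_L Ψ) (Sel_Bad Ψ o), ∏ w, (1 + Sel_psi (Ψ v w (x v) (x w))) ≤
      2 * Real.exp ((Real.exp 1 - 1) / 2) * ((goodS (Sel_L Ψ) (Sel_Bad Ψ o)).card : ℝ) := by
  classical
  have hL := Sel_L_ne Ψ h0 hrow
  have hP : (0 : ℝ) < ((Fintype.piFinset (Sel_L Ψ)).card : ℝ) := by
    rw [Fintype.card_piFinset]
    push_cast
    refine Finset.prod_pos fun w _ => ?_
    exact_mod_cast (hL w).card_pos
  have key : ∀ U : Finset V,
      (∑ x ∈ goodS (Sel_L Ψ) (Sel_Bad Ψ o), ∏ w ∈ U, Sel_psi (Ψ v w (x v) (x w))) *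
        ((Fintype.piFinset (Sel_L Ψ)).card : ℝ) ≤
      2 * ((goodS (Sel_L Ψ) (Sel_Bad Ψ o)).card : ℝ) *
        ∑ x ∈ Fintype.piFinset (Sel_L Ψ), ∏ w ∈ U, (2 * Sel_psi (Ψ v w (x v) (x w))) := by
    intro U
    have h1 := lll (Sel_L Ψ) hL (fun e : V × V => ({e.1, e.2} : Finset V))
      (fun e => Finset.insert_nonempty _ _) (Sel_Bad Ψ o)
      (by
        intro e x y hxy hx
        have h2 := hxy e.1 (by simp)
        have h3 := hxy e.2 (by simp)
        refine ⟨hx.1, ?_⟩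
        rw [← h2, ← h3]
        exact hx.2)
      (fun u => by
        convert Sel_hE Ψ h0 hs hd hrow o ho u)
      (insert v U) (fun x => ∏ w ∈ U, Sel_psi (Ψ v w (x v) (x w)))
      (fun x => Finset.prod_nonneg fun w _ => Sel_psi_nonneg (h0 _ _ _ _))
      (by
        intro x y hxy
        refine Finset.prod_congr rfl fun w hw => ?_
        rw [hxy v (mem_insert_self _ _), hxy w (mem_insert_of_mem hw)])
    refine le_trans h1 ?_
    have h4 : (2 : ℝ) ^ (insert v U).card ≤ 2 ^ (U.card + 1) :=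
      pow_le_pow_right₀ (by norm_num) (Finset.card_insert_le _ _)
    have h5 : 0 ≤ ∑ x ∈ Fintype.piFinset (Sel_L Ψ), ∏ w ∈ U, Sel_psi (Ψ v w (x v) (x w)) :=
      Finset.sum_nonneg fun x _ => Finset.prod_nonneg fun w _ => Sel_psi_nonneg (h0 _ _ _ _)
    calc (2 : ℝ) ^ (insert v U).card * ((goodS (Sel_L Ψ) (Sel_Bad Ψ o)).card : ℝ) *
        ∑ x ∈ Fintype.piFinset (Sel_L Ψ), ∏ w ∈ U, Sel_psi (Ψ v w (x v) (x w))
        ≤ 2 ^ (U.card + 1) * ((goodS (Sel_L Ψ) (Sel_Bad Ψ o)).card : ℝ) *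
        ∑ x ∈ Fintype.piFinset (Sel_L Ψ), ∏ w ∈ U, Sel_psi (Ψ v w (x v) (x w)) :=
          mul_le_mul_of_nonneg_right (mul_le_mul_of_nonneg_right h4 (Nat.cast_nonneg _)) h5
      _ = 2 * ((goodS (Sel_L Ψ) (Sel_Bad Ψ o)).card : ℝ) *
        ∑ x ∈ Fintype.piFinset (Sel_L Ψ), ∏ w ∈ U, (2 * Sel_psi (Ψ v w (x v) (x w))) := by
          simp only [Finset.prod_mul_distrib, Finset.prod_const]
          rw [← Finset.mul_sum]
          ring
  have h6 : (∑ x ∈ goodS (Sel_L Ψ) (Sel_Bad Ψ o), ∏ w, (1 + Sel_psi (Ψ v w (x v) (x w)))) *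
        ((Fintype.piFinset (Sel_L Ψ)).card : ℝ) ≤
      2 * ((goodS (Sel_L Ψ) (Sel_Bad Ψ o)).card : ℝ) *
        ∑ x ∈ Fintype.piFinset (Sel_L Ψ), ∏ w, (1 + 2 * Sel_psi (Ψ v w (x v) (x w))) := by
    simp only [Finset.prod_one_add]
    rw [Finset.sum_comm, Finset.sum_mul, Finset.sum_comm (s := Fintype.piFinset (Sel_L Ψ)),
      Finset.mul_sum]
    exact Finset.sum_le_sum fun U _ => key U
  have h7 := Sel_expo Ψ h0 hd hrow v
  have h8 : (∑ x ∈ goodS (Sel_L Ψ) (Sel_Bad Ψ o), ∏ w, (1 + Sel_psi (Ψ v w (x v) (x w)))) *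
        ((Fintype.piFinset (Sel_L Ψ)).card : ℝ) ≤
      (2 * Real.exp ((Real.exp 1 - 1) / 2) * ((goodS (Sel_L Ψ) (Sel_Bad Ψ o)).card : ℝ)) *
        ((Fintype.piFinset (Sel_L Ψ)).card : ℝ) := by
    refine le_trans h6 ?_
    calc 2 * ((goodS (Sel_L Ψ) (Sel_Bad Ψ o)).card : ℝ) *
        ∑ x ∈ Fintype.piFinset (Sel_L Ψ), ∏ w, (1 + 2 * Sel_psi (Ψ v w (x v) (x w)))
        ≤ 2 * ((goodS (Sel_L Ψ) (Sel_Bad Ψ o)).card : ℝ) *
          (((Fintype.piFinset (Sel_L Ψ)).card : ℝ) * Real.exp ((Real.exp 1 - 1) / 2)) :=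
          mul_le_mul_of_nonneg_left h7 (by positivity)
      _ = _ := by ring
  exact le_of_mul_le_mul_right h8 hP

private theorem Sel_exp_num : 2 * Real.exp ((Real.exp 1 - 1) / 2) < 5 := by
  have h1 : Real.exp 1 < 2.7182818286 := Real.exp_one_lt_d9
  have h2 : (Real.exp 1 - 1) / 2 < 0.9 := by linarith
  have h3 : Real.exp ((Real.exp 1 - 1) / 2) < Real.exp 0.9 := Real.exp_lt_exp.2 h2
  have h4 : Real.exp 0.9 ≤ 2.5 := by
    have h5 : Real.exp 0.9 ^ 10 = Real.exp 1 ^ 9 := by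
      rw [← Real.exp_nat_mul, ← Real.exp_nat_mul]
      norm_num
    by_contra h6
    rw [not_le] at h6
    have h7 : (2.5 : ℝ) ^ 10 < Real.exp 0.9 ^ 10 := pow_lt_pow_left₀ h6 (by norm_num) (by norm_num)
    have h8 : Real.exp 1 ^ 9 < 2.7182818286 ^ 9 := pow_lt_pow_left₀ h1 (Real.exp_pos 1).le (by norm_num)
    rw [h5] at h7
    norm_num at h7 h8
    linarith
  linarith

private theorem Sel_gen (Ψ : V → V → Ω → Ω → ℝ) (h0 : ∀ v w a b, 0 ≤ Ψ v w a b)
    (hs : ∀ v w a b, Ψ v w a b = Ψ w v b a)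
    (hd : ∀ v a b, Ψ v v a b = 0)
    (hrow : ∀ v, ∑ w, ∑ a, ∑ b, Ψ v w a b ≤ (Fintype.card Ω : ℝ) ^ 2) (o : V → V → Prop)
    (ho : ∀ v w, o v w → ¬ o w v) (ho2 : ∀ v w, o v w ∨ o w v ∨ ∀ a b, Ψ v w a b = 0) (t : ℕ)
    (ht : 2 * Fintype.card V < 2 ^ t) :
    ∃ x : V → Ω, ∀ v, ∑ w, Ψ v w (x v) (x w) ≤ 16 * (t + 1) := by
  classical
  have hL := Sel_L_ne Ψ h0 hrow
  have hpos : (goodS (Sel_L Ψ) (Sel_Bad Ψ o)).Nonempty :=
    lll_pos (Sel_L Ψ) hL (fun e : V × V => ({e.1, e.2} : Finset V))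
      (fun e => Finset.insert_nonempty _ _) (Sel_Bad Ψ o)
      (by
        intro e x y hxy hx
        have h2 := hxy e.1 (by simp)
        have h3 := hxy e.2 (by simp)
        refine ⟨hx.1, ?_⟩
        rw [← h2, ← h3]
        exact hx.2)
      (fun u => by
        convert Sel_hE Ψ h0 hs hd hrow o ho u)
  by_contra hcon
  push Not at hcon
  -- every good choice is exceptional for some `v`
  have hg16 : ∀ x ∈ goodS (Sel_L Ψ) (Sel_Bad Ψ o), ∀ v w, Ψ v w (x v) (x w) ≤ 16 := by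
    intro x hx v w
    have h1 : ∀ e, ¬ Sel_Bad Ψ o e x := by
      unfold goodS at hx
      exact (mem_filter.1 hx).2
    rcases ho2 v w with h | h | h
    · have h2 := h1 (v, w)
      by_contra h3
      rw [not_le] at h3
      exact h2 ⟨h, h3⟩
    · have h2 := h1 (w, v)
      by_contra h3
      rw [not_le, hs] at h3
      exact h2 ⟨h, h3⟩
    · rw [h]
      norm_num
  have hexp : ∀ x ∈ goodS (Sel_L Ψ) (Sel_Bad Ψ o), ∀ v,
      ∏ w, (1 + Sel_psi (Ψ v w (x v) (x w))) = Real.exp ((∑ w, Ψ v w (x v) (x w)) / 16) := by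
    intro x hx v
    rw [Finset.sum_div, Real.exp_sum]
    refine Finset.prod_congr rfl fun w _ => ?_
    exact Sel_psi_exp (hg16 x hx v w)
  have hg0 : (0 : ℝ) < ((goodS (Sel_L Ψ) (Sel_Bad Ψ o)).card : ℝ) := by
    exact_mod_cast hpos.card_pos
  have h1 : ((goodS (Sel_L Ψ) (Sel_Bad Ψ o)).card : ℝ) * Real.exp (t + 1) ≤
      ∑ v : V, ∑ x ∈ goodS (Sel_L Ψ) (Sel_Bad Ψ o), ∏ w, (1 + Sel_psi (Ψ v w (x v) (x w))) := by
    rw [Finset.sum_comm]
    calc ((goodS (Sel_L Ψ) (Sel_Bad Ψ o)).card : ℝ) * Real.exp (t + 1)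
        = ∑ x ∈ goodS (Sel_L Ψ) (Sel_Bad Ψ o), Real.exp (t + 1) := by
          rw [sum_const, nsmul_eq_mul]
      _ ≤ _ := by
          refine Finset.sum_le_sum fun x hx => ?_
          obtain ⟨v, hv⟩ := hcon x
          have h2 : Real.exp (t + 1) ≤ ∏ w, (1 + Sel_psi (Ψ v w (x v) (x w))) := by
            rw [hexp x hx v, Real.exp_le_exp, le_div_iff₀ (by norm_num)]
            linarith
          refine le_trans h2 ?_
          refine Finset.single_le_sum (f := fun v => ∏ w, (1 + Sel_psi (Ψ v w (x v) (x w))))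
            (fun u _ => ?_) (mem_univ v)
          refine Finset.prod_nonneg fun w _ => ?_
          have := Sel_psi_nonneg (h0 u w (x u) (x w))
          linarith
  have h2 : ∑ v : V, ∑ x ∈ goodS (Sel_L Ψ) (Sel_Bad Ψ o), ∏ w, (1 + Sel_psi (Ψ v w (x v) (x w))) ≤
      (Fintype.card V : ℝ) * (5 * ((goodS (Sel_L Ψ) (Sel_Bad Ψ o)).card : ℝ)) := by
    calc ∑ v : V, ∑ x ∈ goodS (Sel_L Ψ) (Sel_Bad Ψ o), ∏ w, (1 + Sel_psi (Ψ v w (x v) (x w)))
        ≤ ∑ v : V, (5 * ((goodS (Sel_L Ψ) (Sel_Bad Ψ o)).card : ℝ)) := by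
          refine Finset.sum_le_sum fun v _ => ?_
          refine le_trans (Sel_good_expo Ψ h0 hs hd hrow o ho v) ?_
          exact mul_le_mul_of_nonneg_right Sel_exp_num.le hg0.le
      _ = _ := by rw [sum_const, nsmul_eq_mul, card_univ]
  have h3 : Real.exp (t + 1) ≤ 5 * (Fintype.card V : ℝ) := by
    have h4 : ((goodS (Sel_L Ψ) (Sel_Bad Ψ o)).card : ℝ) * Real.exp (t + 1) ≤
        ((goodS (Sel_L Ψ) (Sel_Bad Ψ o)).card : ℝ) * (5 * (Fintype.card V : ℝ)) := by
      refine le_trans (le_trans h1 h2) (le_of_eq ?_)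
      ring
    exact le_of_mul_le_mul_left h4 hg0
  have h5 : (2.5 : ℝ) * 2 ^ t ≤ Real.exp (t + 1) := by
    have h6 : (2.7 : ℝ) < Real.exp 1 := by
      have := Real.exp_one_gt_d9
      linarith
    rw [Real.exp_add, ← mul_one (t : ℝ), Real.exp_nat_mul]
    have h7 : (2 : ℝ) ^ t ≤ Real.exp 1 ^ t := pow_le_pow_left₀ (by norm_num) (by linarith) t
    have h8 : (0 : ℝ) < 2 ^ t := by positivity
    calc (2.5 : ℝ) * 2 ^ t ≤ 2 ^ t * Real.exp 1 := by nlinarith
      _ ≤ Real.exp 1 ^ t * Real.exp 1 := mul_le_mul_of_nonneg_right h7 (Real.exp_pos 1).le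
  have h9 : 2 * (Fintype.card V : ℝ) < 2 ^ t := by exact_mod_cast ht
  linarith

end Sel

/-- the symmetric form of the functions -/
private def Sel_sym {Ω : Type} (N : ℕ) (Φ : ℕ → ℕ → Ω → Ω → ℝ) :
    Fin N ⊕ Fin N → Fin N ⊕ Fin N → Ω → Ω → ℝ
  | Sum.inl g, Sum.inr h => fun a b => Φ g h a b
  | Sum.inr h, Sum.inl g => fun a b => Φ g h b a
  | Sum.inl _, Sum.inl _ => fun _ _ => 0
  | Sum.inr _, Sum.inr _ => fun _ _ => 0

theorem sel {Ω : Type} [Fintype Ω] [Nonempty Ω] (N t : ℕ) (ht : 4 * N < 2 ^ t)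
    (Φ : ℕ → ℕ → Ω → Ω → ℝ) (h0 : ∀ g h x y, 0 ≤ Φ g h x y)
    (hrow : ∀ g < N, ∑ h ∈ range N, ∑ x, ∑ y, Φ g h x y ≤ (Fintype.card Ω : ℝ) ^ 2)
    (hcol : ∀ h < N, ∑ g ∈ range N, ∑ x, ∑ y, Φ g h x y ≤ (Fintype.card Ω : ℝ) ^ 2) :
    ∃ s r : ℕ → Ω, (∀ g < N, ∑ h ∈ range N, Φ g h (s g) (r h) ≤ 16 * (t + 1)) ∧
      (∀ h < N, ∑ g ∈ range N, Φ g h (s g) (r h) ≤ 16 * (t + 1)) := by
  classical
  obtain ⟨x, hx⟩ := Sel_gen (V := Fin N ⊕ Fin N) (Ω := Ω) (Sel_sym N Φ)
    (by
      intro v w a b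
      rcases v with g | h <;> rcases w with g' | h' <;> simp only [Sel_sym] <;>
        first | exact le_rfl | exact h0 _ _ _ _)
    (by
      intro v w a b
      rcases v with g | h <;> rcases w with g' | h' <;> rfl)
    (by
      intro v a b
      rcases v with g | h <;> rfl)
    (by
      intro v
      rcases v with g | h
      · rw [Fintype.sum_sum_type]
        simp only [Sel_sym, sum_const_zero, zero_add]
        have := hrow g g.2
        rwa [Finset.sum_range] at this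
      · rw [Fintype.sum_sum_type]
        simp only [Sel_sym, sum_const_zero, add_zero]
        have := hcol h h.2
        rw [Finset.sum_range] at this
        refine le_trans (le_of_eq ?_) this
        refine Finset.sum_congr rfl fun g _ => Finset.sum_comm)
    (fun v w => v.isLeft = true ∧ w.isLeft = false)
    (by
      rintro v w ⟨h1, h2⟩ ⟨h3, h4⟩
      rw [h1] at h4
      exact absurd h4 (by decide))
    (by
      intro v w
      rcases v with g | h <;> rcases w with g' | h'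
      · exact Or.inr (Or.inr fun _ _ => rfl)
      · exact Or.inl ⟨rfl, rfl⟩
      · exact Or.inr (Or.inl ⟨rfl, rfl⟩)
      · exact Or.inr (Or.inr fun _ _ => rfl)) t
    (by
      rw [Fintype.card_sum, Fintype.card_fin]
      omega)
  refine ⟨fun g => if hg : g < N then x (Sum.inl ⟨g, hg⟩) else Classical.arbitrary Ω,
    fun h => if hh : h < N then x (Sum.inr ⟨h, hh⟩) else Classical.arbitrary Ω, ?_, ?_⟩
  · intro g hg
    have h1 := hx (Sum.inl ⟨g, hg⟩)
    rw [Fintype.sum_sum_type] at h1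
    simp only [Sel_sym, sum_const_zero, zero_add] at h1
    rw [Finset.sum_range]
    refine le_trans (le_of_eq ?_) h1
    refine Finset.sum_congr rfl fun h _ => ?_
    beta_reduce
    rw [dif_pos hg, dif_pos h.2]
  · intro h hh
    have h1 := hx (Sum.inr ⟨h, hh⟩)
    rw [Fintype.sum_sum_type] at h1
    simp only [Sel_sym, sum_const_zero, add_zero] at h1
    rw [Finset.sum_range]
    refine le_trans (le_of_eq ?_) h1
    refine Finset.sum_congr rfl fun g _ => ?_
    beta_reduce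
    rw [dif_pos hh, dif_pos g.2]

end FHA
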