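import Pool.Agent.FHA.Avg
import Pool.Agent.FHA.Sel
import Pool.Agent.FHA.Bal

/-!
# FHA.Step: one step of the embedding

PROOF.  Unfold `St`: `p, q, A, U, B, V`; `η g h = dens n Z (A g) (B h) (U g) (V h)`, `w g h = wt σ p q g h`.
`n ≥ 2`, `J ≥ 1` (from `hJ`), `Ω = Fin J × Fin (n ^ J)`, `|Ω| = J n ^ J`, `δ = 12/J (2 log K + 1) > 0`, `n ^ 3 δ ≤ 1` by `hJ`.
(A) For `ξ, ξ' ∈ Ω` let `η' g h ξ ξ' = dens n Z (A g - ξ.1) (B h - ξ'.1) (U g n^ξ.1 + ix ξ) (V h n^ξ'.1 + ix ξ')` and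
`ι g h ξ ξ' = irr n Z (A g - (ξ.1+1)) (B h - (ξ'.1+1)) (same indices)`, and
`Φ g h ξ ξ' = (η'/lam + ι/(δ lam)) √w / 2`.  By `avg_dens`, `avg_irr` (`J ≤ D + J ≤ A g, B h`) the sum of `Φ g h` over `ξ, ξ'` is at most
`|Ω|^2 (η/lam + (12/J) φ(η)/(δ lam)) √w / 2`, `φ = negMulLog`.  `φ(η) ≤ 2 η log K + 1/K^2` (let `y = K^2 η`:
`-y log y ≤ 1`, since `-log y ≤ 1/y - 1`; true for `η = 0` too).  `√w ≤ w`, and `∑_h w g h ≤ k ≤ K`, so
`∑_h (12/J) φ(η g h) √w ≤ (12/J) (2 log K * lam + 1/K) ≤ δ lam` because `1/K ≤ lam`.  So the row sums, and in the same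
way the column sums, are `≤ |Ω|^2`.  `sel` gives `s, r`.  Let `lam' = 32 (t+1) lam`: the row sums and column sums of
`η' √w` are `≤ lam'` and those of `ι √w` are `≤ δ lam'` (`Φ g h (s g) (r h) ≥ η' √w/(2 lam)`, ...).
(B) Apply `bal` to `f i = (η'_{p i, q (σ i)})^2` and `lam'`: `∑_{i : p i = g, q (σ i) = h} f i = w g h η'^2`, so the square root is
`η' √w`.  Get `c, d`.
(C) New state: `p' i = p i * n + c i`, `q' j = q j * n + d j` (`< N n`, monotone: if `p i < p j` clear, if `p i = p j` by `bal`);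
for the label `G = g n + x` (`g = G / n`, `x = G % n`) the interval of level `A' G = A g - (s g).1 - 1 ≥ D` with index
`U' G = (U g * n ^ (s g).1 + ix (s g)) * n + x`; in the same way for columns.
Order: `(ix + 1) ≤ n ^ (s g).1` (`ix < n ^ j` because `ξ.2 < n ^ J = n ^ j * n ^ (J-j)`), so the interval is contained in that of
`g`: `(U' G + 1) n ^ (A' G) ≤ (U g + 1) n ^ (A g)` and `U g n ^ (A g) ≤ U' G n ^ (A' G)`; within a group the indices increase.
Sizes by `bal`.  Row sums: by `dens_child_le` the new density of `(g n + x, h n + y)` is `≤ 2 η' g h + n^2 ι g h`, and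
`∑_{h,y} 2 η' √(w') ≤ 2 * 9 lam'` (by `bal`, the square root there is `η' √w'`), `∑_{h,y} n^2 ι g h √(w' ) ≤
n^2 ∑_h ι g h * n √(w g h)  ≤ n^3 δ lam' ≤ lam'` (`w' ≤ w`).  (`∑ over range (N n)` is a double sum by `FHT.sum_digits`,
`(h n + y) / n = h`, `% n = y`.)  Total `19 lam' = 608 (t+1) lam`.
-/

namespace FHA

open Finset

private theorem Step_phi {K : ℕ} (hK : 2 ≤ K) {x : ℝ} (hx : 0 ≤ x) :
    Real.negMulLog x ≤ 2 * Real.log K * x + 1 / (K : ℝ) ^ 2 := by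
  have hK0 : (0 : ℝ) < K := by
    have : 0 < K := by omega
    exact_mod_cast this
  have hK2 : (0 : ℝ) < 1 / (K : ℝ) ^ 2 := by positivity
  rcases hx.eq_or_lt with h0 | h0
  · rw [← h0, Real.negMulLog_zero, mul_zero, zero_add]
    exact hK2.le
  · have h1 : Real.log (1 / ((K : ℝ) ^ 2 * x)) ≤ 1 / ((K : ℝ) ^ 2 * x) - 1 :=
      Real.log_le_sub_one_of_pos (by positivity)
    rw [one_div, Real.log_inv, Real.log_mul (by positivity) h0.ne', Real.log_pow] at h1
    have h2 := mul_le_mul_of_nonneg_left h1 h0.le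
    have h3 : x * (((K : ℝ) ^ 2 * x)⁻¹ - 1) = 1 / (K : ℝ) ^ 2 - x := by
      field_simp
    rw [h3] at h2
    unfold Real.negMulLog
    push_cast at h2
    nlinarith

private theorem Step_sqrt (w : ℕ) : √(w : ℝ) ≤ w := by
  rw [Real.sqrt_le_iff]
  refine ⟨Nat.cast_nonneg _, ?_⟩
  have : w ≤ w ^ 2 := Nat.le_self_pow two_ne_zero w
  exact_mod_cast this

private theorem Step_wt_row {k : ℕ} (σ : Equiv.Perm (Fin k)) (p q : Fin k → ℕ) (g N : ℕ) :
    ∑ h ∈ range N, wt σ p q g h ≤ k := by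
  unfold wt
  simp only [Finset.card_filter]
  rw [Finset.sum_comm]
  refine (Finset.sum_le_card_nsmul _ _ 1 fun i _ => ?_).trans ?_
  · by_cases hp : p i = g
    · simp only [hp, true_and]
      rw [Finset.sum_ite_eq]
      split_ifs <;> omega
    · simp [hp]
  · simp

private theorem Step_wt_col {k : ℕ} (σ : Equiv.Perm (Fin k)) (p q : Fin k → ℕ) (h N : ℕ) :
    ∑ g ∈ range N, wt σ p q g h ≤ k := by
  unfold wt
  simp only [Finset.card_filter]
  rw [Finset.sum_comm]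
  refine (Finset.sum_le_card_nsmul _ _ 1 fun i _ => ?_).trans ?_
  · by_cases hq : q (σ i) = h
    · simp only [hq, and_true]
      rw [Finset.sum_ite_eq]
      split_ifs <;> omega
    · simp [hq]
  · simp

private theorem Step_phisum {K k N : ℕ} (hK : 2 ≤ K) (hk : k ≤ K) {lam : ℝ}
    (hlam : 1 / (K : ℝ) ≤ lam) (η : ℕ → ℝ) (hη : ∀ h, 0 ≤ η h) (w : ℕ → ℕ)
    (hw : ∑ h ∈ range N, w h ≤ k) (hs : ∑ h ∈ range N, η h * √(w h : ℝ) ≤ lam) :
    ∑ h ∈ range N, Real.negMulLog (η h) * √(w h : ℝ) ≤ (2 * Real.log K + 1) * lam := by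
  have hK0 : (0 : ℝ) < K := by
    have : 0 < K := by omega
    exact_mod_cast this
  have hlog : 0 ≤ Real.log K := Real.log_natCast_nonneg K
  have h1 : ∑ h ∈ range N, Real.negMulLog (η h) * √(w h : ℝ) ≤
      ∑ h ∈ range N, (2 * Real.log K * (η h * √(w h : ℝ)) + 1 / (K : ℝ) ^ 2 * (w h : ℝ)) := by
    refine Finset.sum_le_sum fun h _ => ?_
    have g1 := mul_le_mul_of_nonneg_right (Step_phi hK (hη h)) (Real.sqrt_nonneg (w h : ℝ))
    have g2 := mul_le_mul_of_nonneg_left (Step_sqrt (w h)) (by positivity : 0 ≤ 1 / (K : ℝ) ^ 2)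
    calc Real.negMulLog (η h) * √(w h : ℝ) ≤
        (2 * Real.log K * η h + 1 / (K : ℝ) ^ 2) * √(w h : ℝ) := g1
      _ = 2 * Real.log K * (η h * √(w h : ℝ)) + 1 / (K : ℝ) ^ 2 * √(w h : ℝ) := by ring
      _ ≤ _ := add_le_add le_rfl g2
  rw [Finset.sum_add_distrib, ← Finset.mul_sum, ← Finset.mul_sum] at h1
  have h2 : ∑ h ∈ range N, (w h : ℝ) ≤ K := by
    have : ∑ h ∈ range N, w h ≤ K := hw.trans hk
    exact_mod_cast this
  have h3 : 1 / (K : ℝ) ^ 2 * ∑ h ∈ range N, (w h : ℝ) ≤ lam := by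
    calc 1 / (K : ℝ) ^ 2 * ∑ h ∈ range N, (w h : ℝ) ≤ 1 / (K : ℝ) ^ 2 * K :=
          mul_le_mul_of_nonneg_left h2 (by positivity)
      _ = 1 / (K : ℝ) := by field_simp
      _ ≤ lam := hlam
  have h4 := mul_le_mul_of_nonneg_left hs (by positivity : 0 ≤ 2 * Real.log (K : ℝ))
  linarith

private theorem Step_rowsum {N : ℕ} {lam δ L j C2 : ℝ} (hlam : 0 < lam) (hL : 0 < L) (hj : 0 < j)
    (hδ : δ = 12 * L / j) (hC : 0 ≤ C2) (η φ w : ℕ → ℝ)
    (h1 : ∑ h ∈ range N, η h * √(w h) ≤ lam) (h2 : ∑ h ∈ range N, φ h * √(w h) ≤ L * lam) :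
    ∑ h ∈ range N, (√(w h) / (2 * lam) * (C2 * η h) +
      √(w h) / (2 * δ * lam) * (C2 * (12 / j * φ h))) ≤ C2 := by
  have hδ0 : 0 < δ := by rw [hδ]; positivity
  have e1 : ∑ h ∈ range N, (√(w h) / (2 * lam) * (C2 * η h) +
      √(w h) / (2 * δ * lam) * (C2 * (12 / j * φ h))) =
      C2 / (2 * lam) * ∑ h ∈ range N, η h * √(w h) +
      C2 * (12 / j) / (2 * δ * lam) * ∑ h ∈ range N, φ h * √(w h) := by
    rw [Finset.mul_sum, Finset.mul_sum, ← Finset.sum_add_distrib]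
    refine Finset.sum_congr rfl fun h _ => ?_
    ring
  rw [e1]
  have g1 := mul_le_mul_of_nonneg_left h1 (by positivity : 0 ≤ C2 / (2 * lam))
  have g2 := mul_le_mul_of_nonneg_left h2 (by positivity : 0 ≤ C2 * (12 / j) / (2 * δ * lam))
  have e2 : C2 / (2 * lam) * lam = C2 / 2 := by field_simp
  have e3 : C2 * (12 / j) / (2 * δ * lam) * (L * lam) = C2 / 2 := by
    rw [hδ]
    field_simp
  linarith

private noncomputable def Step_eta (n J : ℕ) (Z : Finset (ℕ × ℕ)) (A U B V : ℕ → ℕ) (g h : ℕ)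
    (ξ ξ' : Fin J × Fin (n ^ J)) : ℝ :=
  dens n Z (A g - ξ.1) (B h - ξ'.1) (U g * n ^ (ξ.1 : ℕ) + ix n J ξ)
    (V h * n ^ (ξ'.1 : ℕ) + ix n J ξ')

private noncomputable def Step_iota (n J : ℕ) (Z : Finset (ℕ × ℕ)) (A U B V : ℕ → ℕ) (g h : ℕ)
    (ξ ξ' : Fin J × Fin (n ^ J)) : ℝ :=
  irr n Z (A g - (ξ.1 + 1)) (B h - (ξ'.1 + 1)) (U g * n ^ (ξ.1 : ℕ) + ix n J ξ)
    (V h * n ^ (ξ'.1 : ℕ) + ix n J ξ')

private theorem Step_A {n J k K N D t : ℕ} (Z : Finset (ℕ × ℕ)) (σ : Equiv.Perm (Fin k))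
    {lam δ : ℝ} (hn : 1 ≤ n) (hJ : 1 ≤ J) (hk : k ≤ K) (hK : 2 ≤ K) (hlam : 1 / (K : ℝ) ≤ lam)
    (hδ : δ = 12 * (2 * Real.log K + 1) / J) (ht : 4 * N < 2 ^ t)
    (p q : Fin k → ℕ) (A U B V : ℕ → ℕ) (hA : ∀ g < N, D + J ≤ A g) (hB : ∀ h < N, D + J ≤ B h)
    (hrow : ∀ g < N, ∑ h ∈ range N,
      dens n Z (A g) (B h) (U g) (V h) * √(wt σ p q g h) ≤ lam)
    (hcol : ∀ h < N, ∑ g ∈ range N,
      dens n Z (A g) (B h) (U g) (V h) * √(wt σ p q g h) ≤ lam) :
    ∃ s r : ℕ → Fin J × Fin (n ^ J),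
      (∀ g < N, ∑ h ∈ range N, Step_eta n J Z A U B V g h (s g) (r h) * √(wt σ p q g h) ≤
        32 * (t + 1) * lam) ∧
      (∀ g < N, ∑ h ∈ range N, Step_iota n J Z A U B V g h (s g) (r h) * √(wt σ p q g h) ≤
        δ * (32 * (t + 1) * lam)) ∧
      (∀ h < N, ∑ g ∈ range N, Step_eta n J Z A U B V g h (s g) (r h) * √(wt σ p q g h) ≤
        32 * (t + 1) * lam) ∧
      (∀ h < N, ∑ g ∈ range N, Step_iota n J Z A U B V g h (s g) (r h) * √(wt σ p q g h) ≤
        δ * (32 * (t + 1) * lam)) := by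
  have hK0 : (0 : ℝ) < K := by
    have : 0 < K := by omega
    exact_mod_cast this
  have hlam0 : 0 < lam := lt_of_lt_of_le (by positivity) hlam
  have hJ0 : (0 : ℝ) < J := by exact_mod_cast hJ
  have hlog : 0 ≤ Real.log K := Real.log_natCast_nonneg K
  have hL : 0 < 2 * Real.log K + 1 := by positivity
  have hδ0 : 0 < δ := by rw [hδ]; positivity
  have hne : Nonempty (Fin J × Fin (n ^ J)) :=
    ⟨(⟨0, hJ⟩, ⟨0, Nat.pow_pos hn⟩)⟩
  have hcard : (Fintype.card (Fin J × Fin (n ^ J)) : ℝ) = (J : ℝ) * (n : ℝ) ^ J := by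
    rw [Fintype.card_prod, Fintype.card_fin, Fintype.card_fin]
    push_cast
    ring
  have he0 : ∀ g h ξ ξ', 0 ≤ Step_eta n J Z A U B V g h ξ ξ' := fun _ _ _ _ => dens_nonneg _ _ _ _ _ _
  have hi0 : ∀ g h ξ ξ', 0 ≤ Step_iota n J Z A U B V g h ξ ξ' := fun _ _ _ _ => irr_nonneg _ _ _ _ _ _
  obtain ⟨Φ, hΦ⟩ : ∃ Φ : ℕ → ℕ → Fin J × Fin (n ^ J) → Fin J × Fin (n ^ J) → ℝ,
      ∀ g h ξ ξ', Φ g h ξ ξ' = √(wt σ p q g h) / (2 * lam) * Step_eta n J Z A U B V g h ξ ξ' +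
        √(wt σ p q g h) / (2 * δ * lam) * Step_iota n J Z A U B V g h ξ ξ' :=
    ⟨fun g h ξ ξ' => _, fun _ _ _ _ => rfl⟩
  have hΦ0 : ∀ g h ξ ξ', 0 ≤ Φ g h ξ ξ' := fun g h ξ ξ' => by
    rw [hΦ]
    have := he0 g h ξ ξ'
    have := hi0 g h ξ ξ'
    positivity
  have hC : 0 ≤ ((J : ℝ) * (n : ℝ) ^ J) ^ 2 := by positivity
  have hsum : ∀ g < N, ∀ h < N, ∑ ξ, ∑ ξ', Φ g h ξ ξ' ≤
      √(wt σ p q g h) / (2 * lam) *
        (((J : ℝ) * (n : ℝ) ^ J) ^ 2 * dens n Z (A g) (B h) (U g) (V h)) +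
      √(wt σ p q g h) / (2 * δ * lam) * (((J : ℝ) * (n : ℝ) ^ J) ^ 2 *
        (12 / J * Real.negMulLog (dens n Z (A g) (B h) (U g) (V h)))) := by
    intro g hg h hh
    have hJA : J ≤ A g := by have := hA g hg; omega
    have hJB : J ≤ B h := by have := hB h hh; omega
    simp only [hΦ, Finset.sum_add_distrib, ← Finset.mul_sum]
    refine add_le_add (mul_le_mul_of_nonneg_left ?_ (by positivity))
      (mul_le_mul_of_nonneg_left ?_ (by positivity))
    · exact (avg_dens hn Z J (A g) (B h) (U g) (V h) hJA hJB).le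
    · exact avg_irr hn Z J (A g) (B h) (U g) (V h) hJ hJA hJB
  obtain ⟨s, r, hs, hr⟩ := sel N t ht Φ hΦ0
    (fun g hg => by
      rw [hcard]
      refine (Finset.sum_le_sum fun h hh => hsum g hg h (Finset.mem_range.1 hh)).trans ?_
      exact Step_rowsum hlam0 hL hJ0 hδ hC (fun h => dens n Z (A g) (B h) (U g) (V h))
        (fun h => Real.negMulLog (dens n Z (A g) (B h) (U g) (V h)))
        (fun h => (wt σ p q g h : ℝ)) (hrow g hg)
        (Step_phisum hK hk hlam _ (fun h => dens_nonneg _ _ _ _ _ _) _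
          (Step_wt_row σ p q g N) (hrow g hg)))
    (fun h hh => by
      rw [hcard]
      refine (Finset.sum_le_sum fun g hg => hsum g (Finset.mem_range.1 hg) h hh).trans ?_
      exact Step_rowsum hlam0 hL hJ0 hδ hC (fun g => dens n Z (A g) (B h) (U g) (V h))
        (fun g => Real.negMulLog (dens n Z (A g) (B h) (U g) (V h)))
        (fun g => (wt σ p q g h : ℝ)) (hcol h hh)
        (Step_phisum hK hk hlam _ (fun h => dens_nonneg _ _ _ _ _ _) _
          (Step_wt_col σ p q h N) (hcol h hh)))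
  have hle1 : ∀ g h ξ ξ', Step_eta n J Z A U B V g h ξ ξ' * √(wt σ p q g h) ≤
      2 * lam * Φ g h ξ ξ' := fun g h ξ ξ' => by
    have h1 := hi0 g h ξ ξ'
    have h2 : 2 * lam * Φ g h ξ ξ' = Step_eta n J Z A U B V g h ξ ξ' * √(wt σ p q g h) +
        √(wt σ p q g h) * Step_iota n J Z A U B V g h ξ ξ' / δ := by
      rw [hΦ]
      field_simp
    rw [h2]
    have : 0 ≤ √(wt σ p q g h) * Step_iota n J Z A U B V g h ξ ξ' / δ := by positivity
    linarith
  have hle2 : ∀ g h ξ ξ', Step_iota n J Z A U B V g h ξ ξ' * √(wt σ p q g h) ≤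
      2 * δ * lam * Φ g h ξ ξ' := fun g h ξ ξ' => by
    have h1 := he0 g h ξ ξ'
    have h2 : 2 * δ * lam * Φ g h ξ ξ' = Step_iota n J Z A U B V g h ξ ξ' * √(wt σ p q g h) +
        δ * √(wt σ p q g h) * Step_eta n J Z A U B V g h ξ ξ' := by
      rw [hΦ]
      field_simp
      ring
    rw [h2]
    have : 0 ≤ δ * √(wt σ p q g h) * Step_eta n J Z A U B V g h ξ ξ' := by positivity
    linarith
  refine ⟨s, r, fun g hg => ?_, fun g hg => ?_, fun h hh => ?_, fun h hh => ?_⟩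
  · refine (Finset.sum_le_sum fun h _ => hle1 g h (s g) (r h)).trans ?_
    rw [← Finset.mul_sum]
    have := mul_le_mul_of_nonneg_left (hs g hg) (by positivity : 0 ≤ 2 * lam)
    linarith
  · refine (Finset.sum_le_sum fun h _ => hle2 g h (s g) (r h)).trans ?_
    rw [← Finset.mul_sum]
    have := mul_le_mul_of_nonneg_left (hs g hg) (by positivity : 0 ≤ 2 * δ * lam)
    linarith
  · refine (Finset.sum_le_sum fun g _ => hle1 g h (s g) (r h)).trans ?_
    rw [← Finset.mul_sum]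
    have := mul_le_mul_of_nonneg_left (hr h hh) (by positivity : 0 ≤ 2 * lam)
    linarith
  · refine (Finset.sum_le_sum fun g _ => hle2 g h (s g) (r h)).trans ?_
    rw [← Finset.mul_sum]
    have := mul_le_mul_of_nonneg_left (hr h hh) (by positivity : 0 ≤ 2 * δ * lam)
    linarith

private theorem Step_ix {n J : ℕ} (ξ : Fin J × Fin (n ^ J)) : ix n J ξ + 1 ≤ n ^ (ξ.1 : ℕ) := by
  unfold ix
  rw [Nat.add_one_le_iff]
  refine Nat.div_lt_of_lt_mul ?_
  rw [← pow_add]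
  have h1 : J - (ξ.1 : ℕ) + ξ.1 = J := Nat.sub_add_cancel ξ.1.2.le
  rw [h1]
  exact ξ.2.2

/-- the new interval is contained in the old one -/
private theorem Step_int {n J D a u x : ℕ} (ξ : Fin J × Fin (n ^ J)) (ha : D + J ≤ a) (hx : x < n) :
    ((u * n ^ (ξ.1 : ℕ) + ix n J ξ) * n + x + 1) * n ^ (a - (ξ.1 + 1)) ≤ (u + 1) * n ^ a ∧
    u * n ^ a ≤ ((u * n ^ (ξ.1 : ℕ) + ix n J ξ) * n + x) * n ^ (a - (ξ.1 + 1)) := by
  have h1 : (ξ.1 : ℕ) + 1 + (a - (ξ.1 + 1)) = a := by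
    have := ξ.1.2
    omega
  have h2 : n ^ a = n ^ (ξ.1 : ℕ) * n * n ^ (a - (ξ.1 + 1)) := by
    conv_lhs => rw [← h1]
    rw [pow_add, pow_succ]
  have h3 := Step_ix ξ
  rw [h2]
  constructor
  · rw [← mul_assoc]
    refine Nat.mul_le_mul_right _ ?_
    calc (u * n ^ (ξ.1 : ℕ) + ix n J ξ) * n + x + 1 ≤ (u * n ^ (ξ.1 : ℕ) + ix n J ξ) * n + n := by
          omega
      _ = (u * n ^ (ξ.1 : ℕ) + (ix n J ξ + 1)) * n := by ring
      _ ≤ (u * n ^ (ξ.1 : ℕ) + n ^ (ξ.1 : ℕ)) * n := by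
        refine Nat.mul_le_mul_right _ ?_
        omega
      _ = (u + 1) * (n ^ (ξ.1 : ℕ) * n) := by ring
  · rw [← mul_assoc]
    refine Nat.mul_le_mul_right _ ?_
    calc u * (n ^ (ξ.1 : ℕ) * n) = u * n ^ (ξ.1 : ℕ) * n := by ring
      _ ≤ (u * n ^ (ξ.1 : ℕ) + ix n J ξ) * n := Nat.mul_le_mul_right _ (Nat.le_add_right _ _)
      _ ≤ _ := Nat.le_add_right _ _

/-- the order of the new intervals -/
private theorem Step_order {n J N D X : ℕ} (hn : 1 ≤ n) (A U : ℕ → ℕ) (s : ℕ → Fin J × Fin (n ^ J))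
    (hA : ∀ g < N, D + J ≤ A g)
    (hord : ∀ g g', g < g' → g' < N → (U g + 1) * n ^ A g ≤ U g' * n ^ A g')
    (hX : ∀ g < N, (U g + 1) * n ^ A g ≤ X) :
    (∀ G G', G < G' → G' < N * n →
      ((U (G / n) * n ^ ((s (G / n)).1 : ℕ) + ix n J (s (G / n))) * n + G % n + 1) *
        n ^ (A (G / n) - ((s (G / n)).1 + 1)) ≤
      ((U (G' / n) * n ^ ((s (G' / n)).1 : ℕ) + ix n J (s (G' / n))) * n + G' % n) *
        n ^ (A (G' / n) - ((s (G' / n)).1 + 1))) ∧
    (∀ G < N * n,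
      ((U (G / n) * n ^ ((s (G / n)).1 : ℕ) + ix n J (s (G / n))) * n + G % n + 1) *
        n ^ (A (G / n) - ((s (G / n)).1 + 1)) ≤ X) := by
  have hdiv : ∀ G < N * n, G / n < N := fun G hG => Nat.div_lt_of_lt_mul (by rwa [mul_comm] at hG)
  constructor
  · intro G G' h1 h2
    have hg' := hdiv G' h2
    have hg := hdiv G (h1.trans h2)
    have hle : G / n ≤ G' / n := Nat.div_le_div_right h1.le
    rcases hle.eq_or_lt with he | hlt
    · have e1 := Nat.div_add_mod G n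
      have e2 := Nat.div_add_mod G' n
      rw [← he] at e2 ⊢
      refine Nat.mul_le_mul_right _ ?_
      have : G % n < G' % n := by omega
      omega
    · have a1 := (Step_int (u := U (G / n)) (s (G / n)) (hA _ hg) (Nat.mod_lt G hn)).1
      have a2 := (Step_int (u := U (G' / n)) (s (G' / n)) (hA _ hg') (Nat.mod_lt G' hn)).2
      exact a1.trans ((hord _ _ hlt hg').trans a2)
  · intro G h2
    have hg := hdiv G h2
    have a1 := (Step_int (u := U (G / n)) (s (G / n)) (hA _ hg) (Nat.mod_lt G hn)).1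
    exact a1.trans (hX _ hg)

private theorem Step_eq {n a c g x : ℕ} (hc : c < n) (hx : x < n) :
    a * n + c = g * n + x ↔ a = g ∧ c = x := by
  constructor
  · intro h
    have h1 : (a * n + c) / n = (g * n + x) / n := by rw [h]
    have h2 : (a * n + c) % n = (g * n + x) % n := by rw [h]
    have hn : 0 < n := by omega
    rw [mul_comm a, mul_comm g, Nat.mul_add_div hn, Nat.mul_add_div hn, Nat.div_eq_of_lt hc,
      Nat.div_eq_of_lt hx] at h1
    rw [mul_comm a, mul_comm g, Nat.mul_add_mod, Nat.mul_add_mod, Nat.mod_eq_of_lt hc,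
      Nat.mod_eq_of_lt hx] at h2
    omega
  · rintro ⟨rfl, rfl⟩
    rfl

private theorem Step_mono {k n : ℕ} {p c : Fin k → ℕ} (hp : Monotone p) (hc : ∀ i, c i < n)
    (hcc : ∀ i j, i ≤ j → p i = p j → c i ≤ c j) : Monotone fun i => p i * n + c i := by
  intro i j hij
  change p i * n + c i ≤ p j * n + c j
  rcases (hp hij).eq_or_lt with h | h
  · have := hcc i j hij h
    rw [h]
    omega
  · have h1 : (p i + 1) * n ≤ p j * n := Nat.mul_le_mul_right _ h
    have h2 := hc i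
    rw [add_mul, one_mul] at h1
    omega

private theorem Step_lt {N n a c : ℕ} (ha : a < N) (hc : c < n) : a * n + c < N * n := by
  have h1 : (a + 1) * n ≤ N * n := Nat.mul_le_mul_right _ ha
  rw [add_mul, one_mul] at h1
  omega

private theorem Step_sqrtf {k : ℕ} (s : Finset (Fin k)) (f : Fin k → ℝ) {e : ℝ} (he : 0 ≤ e)
    (hf : ∀ i ∈ s, f i = e ^ 2) : √(∑ i ∈ s, f i) = e * √(s.card : ℝ) := by
  rw [Finset.sum_congr rfl hf, Finset.sum_const, nsmul_eq_mul, mul_comm,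
    Real.sqrt_mul (by positivity), Real.sqrt_sq he]

/-- the new sums -/
private theorem Step_new {n N : ℕ} {lam' δ : ℝ} (hn3 : (n : ℝ) ^ 3 * δ ≤ 1) (hlam' : 0 ≤ lam')
    (e i w : ℕ → ℝ) (w' d : ℕ → ℕ → ℝ) (hi : ∀ h, 0 ≤ i h)
    (hw : ∀ h < N, ∀ y < n, w' h y ≤ w h)
    (hd : ∀ h < N, ∀ y < n, d h y ≤ 2 * e h + (n : ℝ) ^ 2 * i h)
    (h1 : ∑ h ∈ range N, ∑ y ∈ range n, e h * √(w' h y) ≤ 9 * lam')
    (h2 : ∑ h ∈ range N, i h * √(w h) ≤ δ * lam') :
    ∑ h ∈ range N, ∑ y ∈ range n, d h y * √(w' h y) ≤ 19 * lam' := by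
  have g1 : ∑ h ∈ range N, ∑ y ∈ range n, d h y * √(w' h y) ≤
      ∑ h ∈ range N, ∑ y ∈ range n, (2 * (e h * √(w' h y)) + (n : ℝ) ^ 2 * (i h * √(w h))) := by
    refine Finset.sum_le_sum fun h hh => Finset.sum_le_sum fun y hy => ?_
    rw [Finset.mem_range] at hh hy
    have a1 := mul_le_mul_of_nonneg_right (hd h hh y hy) (Real.sqrt_nonneg (w' h y))
    have a2 := mul_le_mul_of_nonneg_left (Real.sqrt_le_sqrt (hw h hh y hy))
      (mul_nonneg (by positivity : 0 ≤ (n : ℝ) ^ 2) (hi h))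
    calc d h y * √(w' h y) ≤ (2 * e h + (n : ℝ) ^ 2 * i h) * √(w' h y) := a1
      _ = 2 * (e h * √(w' h y)) + (n : ℝ) ^ 2 * i h * √(w' h y) := by ring
      _ ≤ 2 * (e h * √(w' h y)) + (n : ℝ) ^ 2 * i h * √(w h) := add_le_add le_rfl a2
      _ = _ := by ring
  have g2 : ∑ h ∈ range N, ∑ y ∈ range n, (2 * (e h * √(w' h y)) + (n : ℝ) ^ 2 * (i h * √(w h))) =
      2 * ∑ h ∈ range N, ∑ y ∈ range n, e h * √(w' h y) +
        (n : ℝ) ^ 3 * ∑ h ∈ range N, i h * √(w h) := by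
    rw [Finset.mul_sum, Finset.mul_sum, ← Finset.sum_add_distrib]
    refine Finset.sum_congr rfl fun h _ => ?_
    rw [Finset.sum_add_distrib, Finset.sum_const, Finset.card_range, nsmul_eq_mul,
      Finset.mul_sum]
    ring
  have g3 := mul_le_mul_of_nonneg_left h2 (by positivity : 0 ≤ (n : ℝ) ^ 3)
  have g4 := mul_le_mul_of_nonneg_right hn3 hlam'
  rw [g2] at g1
  linarith

theorem step {n b J k K N m D t X : ℕ} (Z : Finset (ℕ × ℕ)) (σ : Equiv.Perm (Fin k)) {lam : ℝ}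
    (hn : n = 2 * b) (hb : 1 ≤ b) (hm : 1 ≤ m) (hk : k ≤ K) (hK : 2 ≤ K) (hlam : 1 / (K : ℝ) ≤ lam)
    (hJ : 12 * (2 * Real.log K + 1) * (n : ℝ) ^ 3 ≤ J) (ht : 4 * N < 2 ^ t)
    (h : St n Z σ X N lam (b * m) (D + J)) : St n Z σ X (N * n) (608 * (t + 1) * lam) m D := by
  obtain ⟨p, q, A, U, B, V, hp, hq, hpN, hqN, hUo, hVo, hUX, hVX, hA, hB, hpm, hqm, hrow, hcol⟩ := h
  have hn1 : 1 ≤ n := by omega
  have hn0 : (0 : ℝ) < n := by exact_mod_cast hn1
  have hK0 : (0 : ℝ) < K := by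
    have : 0 < K := by omega
    exact_mod_cast this
  have hlam0 : 0 < lam := lt_of_lt_of_le (by positivity) hlam
  have hlog : 0 ≤ Real.log K := Real.log_natCast_nonneg K
  have hJ0 : (0 : ℝ) < J := lt_of_lt_of_le (by positivity) hJ
  have hJ1 : 1 ≤ J := by
    have : 0 < J := by exact_mod_cast hJ0
    omega
  obtain ⟨δ, hδ⟩ : ∃ δ : ℝ, δ = 12 * (2 * Real.log K + 1) / J := ⟨_, rfl⟩
  have hn3 : (n : ℝ) ^ 3 * δ ≤ 1 := by
    rw [hδ, mul_div_assoc', div_le_one hJ0]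
    linarith
  obtain ⟨s, r, h1, h2, h3, h4⟩ := Step_A (D := D) (t := t) Z σ hn1 hJ1 hk hK hlam hδ ht p q A U B V hA hB
    hrow hcol
  obtain ⟨lam', hlam'⟩ : ∃ l : ℝ, l = 32 * (t + 1) * lam := ⟨_, rfl⟩
  rw [← hlam'] at h1 h2 h3 h4
  have hl0 : 0 ≤ lam' := by rw [hlam']; positivity
  have he0 : ∀ g h, 0 ≤ Step_eta n J Z A U B V g h (s g) (r h) := fun _ _ => dens_nonneg _ _ _ _ _ _
  have hi0 : ∀ g h, 0 ≤ Step_iota n J Z A U B V g h (s g) (r h) := fun _ _ => irr_nonneg _ _ _ _ _ _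
  obtain ⟨f, hf⟩ : ∃ f : Fin k → ℝ,
      ∀ i, f i = (Step_eta n J Z A U B V (p i) (q (σ i)) (s (p i)) (r (q (σ i)))) ^ 2 :=
    ⟨fun i => _, fun _ => rfl⟩
  have hfs : ∀ (T : Finset (Fin k)) (g h : ℕ), (∀ i ∈ T, p i = g ∧ q (σ i) = h) →
      √(∑ i ∈ T, f i) = Step_eta n J Z A U B V g h (s g) (r h) * √(T.card : ℝ) := by
    intro T g h hT
    refine Step_sqrtf T f (he0 g h) fun i hi => ?_
    obtain ⟨e1, e2⟩ := hT i hi
    rw [hf, e1, e2]
  obtain ⟨c, d, hc, hd, hcc, hdd, hcm, hdm, hr1, hr2⟩ := bal σ f (fun i => by rw [hf]; positivity) p q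
    hp hq hpN hqN hb hm hpm hqm hl0
    (fun g hg => by
      refine le_trans (le_of_eq (Finset.sum_congr rfl fun h _ => ?_)) (h1 g hg)
      rw [hfs _ g h fun i hi => (Finset.mem_filter.1 hi).2]
      rfl)
    (fun h hh => by
      refine le_trans (le_of_eq (Finset.sum_congr rfl fun g _ => ?_)) (h3 h hh)
      rw [hfs _ g h fun i hi => (Finset.mem_filter.1 hi).2]
      rfl)
  rw [← hn] at hc hd hr1 hr2
  have hdiv : ∀ G < N * n, G / n < N := fun G hG => Nat.div_lt_of_lt_mul (by rwa [mul_comm] at hG)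
  have hoU := Step_order hn1 A U s hA hUo hUX
  have hoV := Step_order hn1 B V r hB hVo hVX
  -- the weights
  have hwt : ∀ g x h y, x < n → y < n → wt σ (fun i => p i * n + c i) (fun j => q j * n + d j)
      (g * n + x) (h * n + y) =
      (univ.filter fun i => (p i = g ∧ c i = x) ∧ q (σ i) = h ∧ d (σ i) = y).card := by
    intro g x h y hx hy
    unfold wt
    congr 1
    ext i
    simp only [Finset.mem_filter, Finset.mem_univ, true_and, Step_eq (hc i) hx,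
      Step_eq (hd (σ i)) hy]
  have hwle : ∀ g x h y, (((univ.filter fun i =>
      (p i = g ∧ c i = x) ∧ q (σ i) = h ∧ d (σ i) = y).card : ℕ) : ℝ) ≤ (wt σ p q g h : ℝ) := by
    intro g x h y
    unfold wt
    refine Nat.cast_le.2 (Finset.card_le_card fun i hi => ?_)
    simp only [Finset.mem_filter, Finset.mem_univ, true_and] at hi ⊢
    exact ⟨hi.1.1, hi.2.1⟩
  have hsq : ∀ g x h y, √(∑ i ∈ univ.filter (fun i =>
      (p i = g ∧ c i = x) ∧ q (σ i) = h ∧ d (σ i) = y), f i) =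
      Step_eta n J Z A U B V g h (s g) (r h) * √(((univ.filter fun i =>
      (p i = g ∧ c i = x) ∧ q (σ i) = h ∧ d (σ i) = y).card : ℕ) : ℝ) := by
    intro g x h y
    refine hfs _ g h fun i hi => ?_
    simp only [Finset.mem_filter, Finset.mem_univ, true_and] at hi
    exact ⟨hi.1.1, hi.2.1⟩
  -- the densities
  have hden : ∀ g < N, ∀ h < N, ∀ x < n, ∀ y < n,
      dens n Z (A g - ((s g).1 + 1)) (B h - ((r h).1 + 1))
        ((U g * n ^ ((s g).1 : ℕ) + ix n J (s g)) * n + x)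
        ((V h * n ^ ((r h).1 : ℕ) + ix n J (r h)) * n + y) ≤
      2 * Step_eta n J Z A U B V g h (s g) (r h) +
        (n : ℝ) ^ 2 * Step_iota n J Z A U B V g h (s g) (r h) := by
    intro g hg h hh x hx y hy
    have e1 : A g - ((s g).1 + 1) + 1 = A g - (s g).1 := by
      have := hA g hg
      have := (s g).1.2
      omega
    have e2 : B h - ((r h).1 + 1) + 1 = B h - (r h).1 := by
      have := hB h hh
      have := (r h).1.2
      omega
    have := dens_child_le hn1 Z (A g - ((s g).1 + 1)) (B h - ((r h).1 + 1))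
      (U g * n ^ ((s g).1 : ℕ) + ix n J (s g)) (V h * n ^ ((r h).1 : ℕ) + ix n J (r h)) hx hy
    rw [e1, e2] at this
    exact this
  have hdm' : ∀ h y : ℕ, y < n → (h * n + y) / n = h := fun h y hy => by
    rw [mul_comm, Nat.mul_add_div (by omega), Nat.div_eq_of_lt hy, add_zero]
  have hmm' : ∀ h y : ℕ, y < n → (h * n + y) % n = y := fun h y hy => by
    rw [mul_comm, Nat.mul_add_mod, Nat.mod_eq_of_lt hy]
  have h608 : 608 * (t + 1) * lam = 19 * lam' := by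
    rw [hlam']
    ring
  refine ⟨fun i => p i * n + c i, fun j => q j * n + d j,
    fun G => A (G / n) - ((s (G / n)).1 + 1),
    fun G => (U (G / n) * n ^ ((s (G / n)).1 : ℕ) + ix n J (s (G / n))) * n + G % n,
    fun H => B (H / n) - ((r (H / n)).1 + 1),
    fun H => (V (H / n) * n ^ ((r (H / n)).1 : ℕ) + ix n J (r (H / n))) * n + H % n,
    Step_mono hp hc hcc, Step_mono hq hd hdd, fun i => Step_lt (hpN i) (hc i),
    fun j => Step_lt (hqN j) (hd j), hoU.1, hoV.1, hoU.2, hoV.2, fun G hG => ?_, fun H hH => ?_,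
    fun G => ?_, fun H => ?_, fun G hG => ?_, fun H hH => ?_⟩
  · have := hA _ (hdiv G hG)
    have := (s (G / n)).1.2
    show D ≤ A (G / n) - ((s (G / n)).1 + 1)
    omega
  · have := hB _ (hdiv H hH)
    have := (r (H / n)).1.2
    show D ≤ B (H / n) - ((r (H / n)).1 + 1)
    omega
  · refine le_trans (Finset.card_le_card fun i hi => ?_) (hcm (G / n) (G % n))
    simp only [Finset.mem_filter, Finset.mem_univ, true_and] at hi ⊢
    rw [← Nat.div_add_mod' G n] at hi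
    exact (Step_eq (hc i) (Nat.mod_lt G hn1)).1 hi
  · refine le_trans (Finset.card_le_card fun j hj => ?_) (hdm (H / n) (H % n))
    simp only [Finset.mem_filter, Finset.mem_univ, true_and] at hj ⊢
    rw [← Nat.div_add_mod' H n] at hj
    exact (Step_eq (hd j) (Nat.mod_lt H hn1)).1 hj
  · have hg := hdiv G hG
    have hx := Nat.mod_lt G hn1
    obtain ⟨g, hgd⟩ : ∃ g, g = G / n := ⟨_, rfl⟩
    obtain ⟨x, hxd⟩ : ∃ x, x = G % n := ⟨_, rfl⟩
    have hGe : G = g * n + x := by rw [hgd, hxd, Nat.div_add_mod']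
    rw [FHT.sum_digits, h608]
    simp only [← hgd, ← hxd] at hg hx ⊢
    refine le_trans (le_of_eq (Finset.sum_congr rfl fun h _ => Finset.sum_congr rfl fun y hy => ?_))
      (Step_new (w := fun h => (wt σ p q g h : ℝ))
        (e := fun h => Step_eta n J Z A U B V g h (s g) (r h))
        (i := fun h => Step_iota n J Z A U B V g h (s g) (r h))
        (w' := fun h y => (((univ.filter fun i =>
          (p i = g ∧ c i = x) ∧ q (σ i) = h ∧ d (σ i) = y).card : ℕ) : ℝ))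
        (d := fun h y => dens n Z (A g - ((s g).1 + 1)) (B h - ((r h).1 + 1))
          ((U g * n ^ ((s g).1 : ℕ) + ix n J (s g)) * n + x)
          ((V h * n ^ ((r h).1 : ℕ) + ix n J (r h)) * n + y))
        hn3 hl0 (fun h => hi0 g h) (fun h _ y _ => hwle g x h y)
        (fun h hh y hy => hden g hg h hh x hx y hy) ?_ (h2 g hg))
    · rw [Finset.mem_range] at hy
      simp only [hdm' h y hy, hmm' h y hy]
      rw [hGe, hwt g x h y hx hy]
    · refine le_trans (le_of_eq ?_) (hr1 g hg x hx)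
      exact Finset.sum_congr rfl fun h _ => Finset.sum_congr rfl fun y _ => (hsq g x h y).symm
  · have hg := hdiv H hH
    have hy := Nat.mod_lt H hn1
    obtain ⟨h, hhd⟩ : ∃ h, h = H / n := ⟨_, rfl⟩
    obtain ⟨y, hyd⟩ : ∃ y, y = H % n := ⟨_, rfl⟩
    have hHe : H = h * n + y := by rw [hhd, hyd, Nat.div_add_mod']
    rw [FHT.sum_digits, h608]
    simp only [← hhd, ← hyd] at hg hy ⊢
    refine le_trans (le_of_eq (Finset.sum_congr rfl fun g _ => Finset.sum_congr rfl fun x hx => ?_))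
      (Step_new (w := fun g => (wt σ p q g h : ℝ))
        (e := fun g => Step_eta n J Z A U B V g h (s g) (r h))
        (i := fun g => Step_iota n J Z A U B V g h (s g) (r h))
        (w' := fun g x => (((univ.filter fun i =>
          (p i = g ∧ c i = x) ∧ q (σ i) = h ∧ d (σ i) = y).card : ℕ) : ℝ))
        (d := fun g x => dens n Z (A g - ((s g).1 + 1)) (B h - ((r h).1 + 1))
          ((U g * n ^ ((s g).1 : ℕ) + ix n J (s g)) * n + x)
          ((V h * n ^ ((r h).1 : ℕ) + ix n J (r h)) * n + y))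
        hn3 hl0 (fun g => hi0 g h) (fun g _ x _ => hwle g x h y)
        (fun g hgg x hx => hden g hgg h hg x hx y hy) ?_ (h4 h hg))
    · rw [Finset.mem_range] at hx
      simp only [hdm' g x hx, hmm' g x hx]
      rw [hHe, hwt g x h y hx hy]
    · refine le_trans (le_of_eq ?_) (hr2 h hg y hy)
      exact Finset.sum_congr rfl fun g _ => Finset.sum_congr rfl fun x _ => (hsq g x h y).symm

end FHA
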